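import Pool.Agent.W139.PX.F4
import Pool.Agent.H181R5.PB_T9
import Pool.Agent.H623R3.PBT8

/-!
# Level of distribution for all palindromes with an odd number of digits

The second half follows `Pool.Agent.H623R3.PBT8` (helper623), with a general level.
-/

set_option autoImplicit false

namespace Pool.Agent.W139.PX

open Finset Filter Topology
open Pool.Agent.H39R3.PB (ph ph_nonneg ph_le_one Ps cnt)
open Pool.Agent.W89.PW (Fw ps BigW PtW)

lemma ph_one' (x : ℝ) : ph 1 x = 1 := by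
  unfold ph
  simp [Pool.Agent.Helper112.ls_ee_zero]

/-- comparison of the exponential sums -/
lemma Ps_le_Fw (b L : ℕ) (α : ℝ) : Ps b (L + 1) 0 (L + 1) α ≤ Fw b b 1 L L α := by
  unfold Ps Fw
  rw [prod_range_succ']
  have h1 : ∏ k ∈ range L, ph b (Pool.Agent.H39R3.PB.fr b (L + 1) (0 + (k + 1)) * α) =
      ∏ c ∈ range L, ps b 1 (Pool.Agent.W89.PW.fr b L c * α) := by
    apply prod_congr rfl
    intro c _
    unfold ps
    rw [ph_one', mul_one, zero_add, Pool.Agent.W89.PW.fr_eq]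
  rw [h1]
  apply mul_le_of_le_one_right _ (ph_le_one _ _)
  apply prod_nonneg
  intro c _
  exact mul_nonneg (ph_nonneg _ _) (ph_nonneg _ _)

lemma U_le (b L q : ℕ) : Pool.Agent.H39R3.PB.U b (L + 1) q ≤ Pool.Agent.W261.PWBV.U b b 1 L q := by
  unfold Pool.Agent.H39R3.PB.U Pool.Agent.W261.PWBV.U
  exact sum_le_sum fun a _ => Ps_le_Fw b L _

/-- the sum of the `U` up to `b ^ (κ L)` -/
theorem USum_unif {b : ℕ} (hb : 2 ≤ b) {H CM : ℝ} (hMaj : MajP b b 1 H CM) (hH0 : 0 < H)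
    (hHb : 1 ≤ b * H) (hCM : 0 < CM) {κ : ℝ} (hκ0 : 0 < κ) (hκH : (b : ℝ) ^ κ * H < 1) (A : ℕ) :
    ∀ᶠ L : ℕ in atTop, ∑ q ∈ (Icc 2 ⌊(b : ℝ) ^ (κ * L)⌋₊).filter (fun q => q.Coprime (2 * b)),
      (q.divisors.card : ℝ) ^ 2 * Pool.Agent.H39R3.PB.U b L q / q ≤ 1 / (L : ℝ) ^ A := by
  have hb1 : (1 : ℝ) < b := by exact_mod_cast (by omega : 1 < b)
  have hb0 : (0 : ℝ) < b := by linarith
  -- a larger exponent
  set ρ := (b : ℝ) ^ κ * H with hρ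
  have hρ0 : 0 < ρ := by positivity
  obtain ⟨κ', h1, h2⟩ : ∃ κ' : ℝ, κ < κ' ∧ (b : ℝ) ^ κ' * H < 1 := by
    have hlim : Tendsto (fun n : ℕ => (b : ℝ) ^ (κ + 1 / ((n : ℝ) + 1)) * H) atTop (𝓝 ((b : ℝ) ^ (κ + 0) * H)) := by
      apply Tendsto.mul_const
      apply Tendsto.rpow tendsto_const_nhds _ (Or.inl hb0.ne')
      exact tendsto_const_nhds.add tendsto_one_div_add_atTop_nhds_zero_nat
    rw [add_zero] at hlim
    obtain ⟨n, hn⟩ := (hlim.eventually (gt_mem_nhds hκH)).exists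
    refine ⟨κ + 1 / ((n : ℝ) + 1), ?_, hn⟩
    have : 0 < 1 / ((n : ℝ) + 1) := by positivity
    linarith
  have hκ'0 : 0 < κ' := by linarith
  have hκ1 : κ' < 1 := by
    by_contra hcon
    push Not at hcon
    have h3 : (b : ℝ) ≤ (b : ℝ) ^ κ' := by
      calc (b : ℝ) = (b : ℝ) ^ (1 : ℝ) := (Real.rpow_one _).symm
        _ ≤ _ := Real.rpow_le_rpow_of_exponent_le hb1.le hcon
    have h4 : (b : ℝ) * H ≤ (b : ℝ) ^ κ' * H := mul_le_mul_of_nonneg_right h3 hH0.le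
    linarith
  have hm4 := m4_unif hb
  have hPt : PtW b b 1 := Pool.Agent.W571.PW.Pt.main b b 1 hb hb le_rfl rfl
  have hBig : BigW b b 1 κ' := bigW_of_majP hb (by omega) le_rfl rfl hm4 hMaj hH0 hHb hCM hκ'0 h2
  have hU := Pool.Agent.W261.PWBV.U_sum b b 1 hb hPt κ' hκ'0 hκ1 hBig (A + 1)
  have h3 : ∀ᶠ L : ℕ in atTop, κ ≤ (κ' - κ) * (L : ℝ) :=
    ((tendsto_natCast_atTop_atTop (R := ℝ)).const_mul_atTop (by linarith)).eventually_ge_atTop _
  have key : ∀ᶠ L : ℕ in atTop, ∑ q ∈ (Icc 2 ⌊(b : ℝ) ^ (κ * ((L + 1 : ℕ) : ℝ))⌋₊).filter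
      (fun q => q.Coprime (2 * b)),
      (q.divisors.card : ℝ) ^ 2 * Pool.Agent.H39R3.PB.U b (L + 1) q / q ≤ 1 / (((L + 1 : ℕ) : ℝ)) ^ A := by
    filter_upwards [hU, h3, eventually_ge_atTop (2 ^ A)] with L hL h4 h5
    have hL2 : ((2 : ℝ)) ^ A ≤ L := by exact_mod_cast h5
    have hL1 : (1 : ℝ) ≤ L := by
      have : (1 : ℝ) ≤ 2 ^ A := one_le_pow₀ (by norm_num)
      linarith
    have hsub : (Icc 2 ⌊(b : ℝ) ^ (κ * ((L + 1 : ℕ) : ℝ))⌋₊).filter (fun q => q.Coprime (2 * b)) ⊆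
        (Icc 2 ⌊(b : ℝ) ^ (κ' * L)⌋₊).filter (fun q => q.Coprime (2 * b)) := by
      apply filter_subset_filter
      apply Icc_subset_Icc_right
      apply Nat.floor_le_floor
      apply Real.rpow_le_rpow_of_exponent_le hb1.le
      push_cast
      linarith
    have hU0 : ∀ q, 0 ≤ Pool.Agent.W261.PWBV.U b b 1 L q := fun q => Pool.Agent.W261.PWBV.U_nonneg _ _ _ _ _
    calc _ ≤ ∑ q ∈ (Icc 2 ⌊(b : ℝ) ^ (κ * ((L + 1 : ℕ) : ℝ))⌋₊).filter (fun q => q.Coprime (2 * b)),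
          (q.divisors.card : ℝ) ^ 2 * Pool.Agent.W261.PWBV.U b b 1 L q / q := by
          apply sum_le_sum
          intro q _
          have := U_le b L q
          gcongr
      _ ≤ ∑ q ∈ (Icc 2 ⌊(b : ℝ) ^ (κ' * L)⌋₊).filter (fun q => q.Coprime (2 * b)),
          (q.divisors.card : ℝ) ^ 2 * Pool.Agent.W261.PWBV.U b b 1 L q / q :=
          sum_le_sum_of_subset_of_nonneg hsub fun q _ _ =>
            div_nonneg (mul_nonneg (by positivity) (hU0 q)) (Nat.cast_nonneg q)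
      _ ≤ 1 / (L : ℝ) ^ (A + 1) := hL
      _ ≤ 1 / (((L + 1 : ℕ) : ℝ)) ^ A := by
          apply one_div_le_one_div_of_le (by positivity)
          have h6 : (((L + 1 : ℕ) : ℝ)) ≤ 2 * L := by push_cast; linarith
          calc (((L + 1 : ℕ) : ℝ)) ^ A ≤ (2 * (L : ℝ)) ^ A := pow_le_pow_left₀ (by positivity) h6 A
            _ = 2 ^ A * (L : ℝ) ^ A := mul_pow _ _ _
            _ ≤ L * (L : ℝ) ^ A := mul_le_mul_of_nonneg_right hL2 (by positivity)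
            _ = (L : ℝ) ^ (A + 1) := by rw [pow_succ]; ring
  rw [eventually_atTop] at key ⊢
  obtain ⟨L0, hL0⟩ := key
  refine ⟨L0 + 1, fun N hN => ?_⟩
  obtain ⟨L, rfl⟩ : ∃ L, N = L + 1 := ⟨N - 1, by omega⟩
  exact hL0 L (by omega)

/-- level of distribution for the palindromes with leading digit 1 -/
theorem BV_unif {b : ℕ} (hb : 2 ≤ b) {κ : ℝ} (hκ1 : κ ≤ 1)
    (hU : ∀ A : ℕ, ∀ᶠ L : ℕ in atTop, ∑ q ∈ (Icc 2 ⌊(b : ℝ) ^ (κ * L)⌋₊).filter (fun q => q.Coprime (2 * b)),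
      (q.divisors.card : ℝ) ^ 2 * Pool.Agent.H39R3.PB.U b L q / q ≤ 1 / (L : ℝ) ^ A) (A : ℕ) :
    ∀ᶠ L : ℕ in atTop, ∀ h : ℕ → ℕ,
    ∑ q ∈ (Icc 1 ⌊(b : ℝ) ^ (κ * L)⌋₊).filter (fun q => q.Coprime (2 * b)),
      (q.divisors.card : ℝ) ^ 2 * |cnt b L q (h q) - (b : ℝ) ^ L / q| ≤ (b : ℝ) ^ L / (L : ℝ) ^ A := by
  have hb0 : 0 < b := by omega
  have hbr : (0 : ℝ) < b := by exact_mod_cast hb0
  have hb1 : (1 : ℝ) ≤ b := by exact_mod_cast hb0
  filter_upwards [hU (A + 5), eventually_ge_atTop ((b + 1) ^ 4)] with L hL hLb h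
  set D := ⌊(b : ℝ) ^ (κ * L)⌋₊ with hD
  have hLb' : ((b : ℝ) + 1) ^ 4 ≤ L := by exact_mod_cast hLb
  have hL1 : (1 : ℝ) ≤ L := by
    have : (1 : ℝ) ≤ ((b : ℝ) + 1) ^ 4 := one_le_pow₀ (by linarith)
    linarith
  have hL0 : (0 : ℝ) < L := by linarith
  have h1 : ∑ q ∈ (Icc 1 D).filter (fun q => q.Coprime (2 * b)),
      (q.divisors.card : ℝ) ^ 2 * |cnt b L q (h q) - (b : ℝ) ^ L / q| ≤
      ∑ q ∈ (Icc 1 D).filter (fun q => q.Coprime (2 * b)),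
      (q.divisors.card : ℝ) ^ 2 *
        ((b : ℝ) ^ L / q * ∑ d ∈ q.divisors.filter (fun d => 1 < d), Pool.Agent.H39R3.PB.U b L d) := by
    refine sum_le_sum fun q hq => ?_
    rw [mem_filter] at hq
    exact mul_le_mul_of_nonneg_left (Pool.Agent.H623R3.PBT8.cnt_bound hb0 L q (h q) hq.2) (by positivity)
  have h2 := h1.trans (Pool.Agent.H623R3.PBT8.double b L D)
  have h3 := Pool.Agent.H316R2.tau_sq_sum_le D
  have hlog : 1 + Real.log D ≤ (b + 1) * L := by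
    rcases Nat.eq_zero_or_pos D with h0 | h0
    · rw [h0]
      simp only [Nat.cast_zero, Real.log_zero, add_zero]
      nlinarith
    · have hDle : (D : ℝ) ≤ (b : ℝ) ^ (κ * L) := Nat.floor_le (by positivity)
      have hDle2 : (D : ℝ) ≤ (b : ℝ) ^ ((1 : ℝ) * L) := by
        refine hDle.trans (Real.rpow_le_rpow_of_exponent_le hb1 ?_)
        exact mul_le_mul_of_nonneg_right hκ1 hL0.le
      have h4 : Real.log D ≤ (1 * L) * Real.log b := by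
        rw [← Real.log_rpow hbr]
        exact Real.log_le_log (by exact_mod_cast h0) hDle2
      have h5 : Real.log b ≤ b - 1 := Real.log_le_sub_one_of_pos hbr
      have h6 : (1 * L) * Real.log b ≤ (1 * L) * ((b : ℝ) - 1) :=
        mul_le_mul_of_nonneg_left h5 (by positivity)
      nlinarith [mul_pos hbr hL0]
  have hlog0 : 0 ≤ 1 + Real.log D := by
    have := Real.log_natCast_nonneg D
    linarith
  have h4 : ∑ e ∈ Icc 1 D, (e.divisors.card : ℝ) ^ 2 / e ≤ ((b : ℝ) + 1) ^ 4 * (L : ℝ) ^ 4 := by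
    refine h3.trans ?_
    calc (1 + Real.log D) ^ 4 ≤ (((b : ℝ) + 1) * (L : ℝ)) ^ 4 := by gcongr
      _ = ((b : ℝ) + 1) ^ 4 * (L : ℝ) ^ 4 := by ring
  refine h2.trans ?_
  have hS0 : 0 ≤ ∑ e ∈ Icc 1 D, (e.divisors.card : ℝ) ^ 2 / e :=
    sum_nonneg fun _ _ => by positivity
  calc (b : ℝ) ^ L * ((∑ d ∈ (Icc 2 D).filter (fun q => q.Coprime (2 * b)),
      (d.divisors.card : ℝ) ^ 2 * Pool.Agent.H39R3.PB.U b L d / d) *
        ∑ e ∈ Icc 1 D, (e.divisors.card : ℝ) ^ 2 / e)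
      ≤ (b : ℝ) ^ L * ((1 / (L : ℝ) ^ (A + 5)) * (((b : ℝ) + 1) ^ 4 * (L : ℝ) ^ 4)) :=
        mul_le_mul_of_nonneg_left (mul_le_mul hL h4 hS0 (by positivity)) (by positivity)
    _ ≤ (b : ℝ) ^ L / (L : ℝ) ^ A := by
        generalize ((b : ℝ) + 1) ^ 4 = B at hLb'
        have h5 : (1 / (L : ℝ) ^ (A + 5)) * (B * (L : ℝ) ^ 4) = B / L * (1 / (L : ℝ) ^ A) := by
          have hy : ((L : ℝ) ^ A) ≠ 0 := by positivity
          have hx : (L : ℝ) ≠ 0 := hL0.ne'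
          rw [pow_add]
          generalize (L : ℝ) ^ A = y at hy
          generalize (L : ℝ) = x at hx
          field_simp
        rw [h5]
        have h6 : B / (L : ℝ) ≤ 1 := by rw [div_le_one hL0]; exact hLb'
        have h7 : (0 : ℝ) < 1 / (L : ℝ) ^ A := by positivity
        calc (b : ℝ) ^ L * (B / L * (1 / (L : ℝ) ^ A))
            ≤ (b : ℝ) ^ L * (1 * (1 / (L : ℝ) ^ A)) := by gcongr
          _ = _ := by ring

/-- level of distribution for all palindromes with `2 L + 1` digits -/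
theorem level_unif {b : ℕ} (hb : 2 ≤ b) {H CM : ℝ} (hMaj : MajP b b 1 H CM) (hH0 : 0 < H)
    (hHb : 1 ≤ b * H) (hCM : 0 < CM) {κ : ℝ} (hκ0 : 0 < κ) (hκH : (b : ℝ) ^ κ * H < 1) (A : ℕ) :
    ∀ᶠ L : ℕ in atTop, ∀ h : ℕ → ℕ,
    ∑ q ∈ (Icc 1 ⌊(b : ℝ) ^ (κ * L)⌋₊).filter (fun q => q.Coprime (2 * b)),
      |(((range (b ^ (2 * L + 1))).filter (fun n => b ^ (2 * L) ≤ n ∧
          (Nat.digits b n).reverse = Nat.digits b n ∧ n ≡ h q [MOD q])).card : ℝ)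
          - ((b : ℝ) - 1) * (b : ℝ) ^ L / q| ≤ (b : ℝ) ^ L / (L : ℝ) ^ A := by
  have hb1 : (1 : ℝ) < b := by exact_mod_cast (by omega : 1 < b)
  have hκ1 : κ ≤ 1 := by
    by_contra hcon
    push Not at hcon
    have h3 : (b : ℝ) ≤ (b : ℝ) ^ κ := by
      calc (b : ℝ) = (b : ℝ) ^ (1 : ℝ) := (Real.rpow_one _).symm
        _ ≤ _ := Real.rpow_le_rpow_of_exponent_le hb1.le hcon.le
    have h4 : (b : ℝ) * H ≤ (b : ℝ) ^ κ * H := mul_le_mul_of_nonneg_right h3 hH0.le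
    linarith
  filter_upwards [Pool.Agent.H181R5.PBT9.BV_all_gen hb (fun L => ⌊(b : ℝ) ^ (κ * L)⌋₊)
    (fun A => BV_unif hb hκ1 (USum_unif hb hMaj hH0 hHb hCM hκ0 hκH) A) A] with L hL h
  refine le_trans (le_of_eq ?_) (hL h)
  refine sum_congr rfl fun q _ => ?_
  have e : (range (b ^ (2 * L + 1))).filter (fun n => b ^ (2 * L) ≤ n ∧
      (Nat.digits b n).reverse = Nat.digits b n ∧ n ≡ h q [MOD q]) =
      (Pool.Agent.H181R5.PBT9.palin b L).filter (fun n => n ≡ h q [MOD q]) := by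
    unfold Pool.Agent.H181R5.PBT9.palin
    rw [filter_filter]
    refine filter_congr fun n _ => ?_
    constructor
    · rintro ⟨h1, h2, h3⟩; exact ⟨⟨h1, h2⟩, h3⟩
    · rintro ⟨⟨h1, h2⟩, h3⟩; exact ⟨h1, h2, h3⟩
  rw [e]

end Pool.Agent.W139.PX
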