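import Pool.Agent.W89.PW.Count

/-! # The additive energy of the digits -/

set_option autoImplicit false

namespace Pool.Agent.W139.PX

open Finset Pool.Agent.W89.PW

/-- `∑ |i - j|` over `i, j < s` -/
lemma sum_dist (s : ℕ) : 3 * ∑ i ∈ range s, ∑ j ∈ range s, |(i : ℝ) - j| = (s : ℝ) ^ 3 - s := by
  induction s with
  | zero => simp
  | succ s ih =>
    have h1 : ∑ i ∈ range (s + 1), ∑ j ∈ range (s + 1), |(i : ℝ) - j| =
        ∑ i ∈ range s, ∑ j ∈ range s, |(i : ℝ) - j| + 2 * ∑ i ∈ range s, |(i : ℝ) - s| := by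
      rw [sum_range_succ]
      have h2 : ∀ i ∈ range s, ∑ j ∈ range (s + 1), |(i : ℝ) - j| =
          ∑ j ∈ range s, |(i : ℝ) - j| + |(i : ℝ) - s| := fun i _ => sum_range_succ _ _
      rw [sum_congr rfl h2, sum_add_distrib, sum_range_succ (fun j : ℕ => |(s : ℝ) - j|)]
      have h3 : ∑ j ∈ range s, |(s : ℝ) - j| = ∑ i ∈ range s, |(i : ℝ) - s| :=
        sum_congr rfl fun i _ => abs_sub_comm _ _
      rw [h3]
      simp
      ring
    have h4 : ∑ i ∈ range s, |(i : ℝ) - s| = (s : ℝ) * (s + 1) / 2 := by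
      have h5 : ∀ i ∈ range s, |(i : ℝ) - s| = s - i := by
        intro i hi
        rw [mem_range] at hi
        have : (i : ℝ) ≤ s := by exact_mod_cast hi.le
        rw [abs_of_nonpos (by linarith)]
        ring
      rw [sum_congr rfl h5, sum_sub_distrib, sum_const, card_range, nsmul_eq_mul]
      have h6 : 2 * ∑ i ∈ range s, (i : ℝ) = s * (s - 1) := by
        clear ih h1 h5
        induction s with
        | zero => simp
        | succ n ih =>
          rw [sum_range_succ, mul_add, ih]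
          push_cast
          ring
      linarith
    rw [h1, h4]
    push_cast
    linarith

/-- upper bound for the additive energy -/
theorem card_Eset_le {s t : ℕ} (hst : s ≤ t) :
    ((Eset s t).card : ℝ) ≤ (s : ℝ) ^ 2 * t - ((s : ℝ) ^ 3 - s) / 3 := by
  classical
  have h1 : (Eset s t).card ≤ ∑ i : Fin s, ∑ i' : Fin s,
      ((univ : Finset (Fin t × Fin t)).filter (fun p => (i : ℕ) + (p.1 : ℕ) = (i' : ℕ) + (p.2 : ℕ))).card := by
    have h2 : (Eset s t).card ≤ ((univ : Finset (Fin s × Fin s)).sigma (fun x =>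
        (univ : Finset (Fin t × Fin t)).filter
          (fun p => (x.1 : ℕ) + (p.1 : ℕ) = (x.2 : ℕ) + (p.2 : ℕ)))).card := by
      apply card_le_card_of_injOn (fun p => ⟨(p.1.1, p.2.1), (p.1.2, p.2.2)⟩)
      · intro p hp
        unfold Eset at hp
        rw [mem_coe, mem_filter] at hp
        rw [mem_coe, mem_sigma]
        refine ⟨mem_univ _, ?_⟩
        rw [mem_filter]
        exact ⟨mem_univ _, hp.2⟩
      · rintro ⟨⟨a, b⟩, ⟨c, d⟩⟩ _ ⟨⟨a', b'⟩, ⟨c', d'⟩⟩ _ h
        simp only [Sigma.mk.injEq, Prod.mk.injEq, heq_eq_eq] at h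
        obtain ⟨⟨rfl, rfl⟩, rfl, rfl⟩ := h
        rfl
    refine h2.trans (le_of_eq ?_)
    rw [card_sigma, ← univ_product_univ, sum_product]
  have h3 : ∀ i i' : Fin s, (((univ : Finset (Fin t × Fin t)).filter
      (fun p => (i : ℕ) + (p.1 : ℕ) = (i' : ℕ) + (p.2 : ℕ))).card : ℝ) ≤ t - |((i : ℕ) : ℝ) - (i' : ℕ)| := by
    have key : ∀ i i' : ℕ, i ≤ i' → i' < s → (((univ : Finset (Fin t × Fin t)).filter
        (fun p => i + (p.1 : ℕ) = i' + (p.2 : ℕ))).card : ℝ) ≤ t - ((i' : ℝ) - i) := by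
      intro i i' h hi
      have h4 : ((univ : Finset (Fin t × Fin t)).filter (fun p => i + (p.1 : ℕ) = i' + (p.2 : ℕ))).card ≤
          t - (i' - i) := by
        have h5 : ((univ : Finset (Fin t × Fin t)).filter (fun p => i + (p.1 : ℕ) = i' + (p.2 : ℕ))).card ≤
            (range (t - (i' - i))).card := by
          apply card_le_card_of_injOn (fun p => (p.2 : ℕ))
          · rintro ⟨p, q⟩ hp
            rw [mem_coe, mem_filter] at hp
            have h6 := p.2
            have h7 := hp.2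
            simp only at h7
            rw [mem_coe, mem_range]
            simp only
            omega
          · rintro ⟨p, q⟩ hp ⟨p', q'⟩ hp' h
            rw [mem_coe, mem_filter] at hp hp'
            have h6 := hp.2
            have h7 := hp'.2
            simp only at h6 h7 h
            apply Prod.ext
            · apply Fin.ext; simp only; omega
            · apply Fin.ext; simp only; omega
        rwa [card_range] at h5
      have h5 : ((t - (i' - i) : ℕ) : ℝ) = t - ((i' : ℝ) - i) := by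
        rw [Nat.cast_sub (by omega), Nat.cast_sub h]
      rw [← h5]
      exact_mod_cast h4
    intro i i'
    rcases le_total (i : ℕ) (i' : ℕ) with h | h
    · have h6 : ((i : ℕ) : ℝ) ≤ (i' : ℕ) := by exact_mod_cast h
      rw [abs_of_nonpos (by linarith), neg_sub]
      exact key _ _ h i'.2
    · have h6 : ((i' : ℕ) : ℝ) ≤ (i : ℕ) := by exact_mod_cast h
      rw [abs_of_nonneg (by linarith)]
      refine le_trans (le_of_eq ?_) (key _ _ h i.2)
      congr 1
      apply card_bij (fun p _ => (p.2, p.1))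
      · rintro ⟨p, q⟩ hp
        rw [mem_filter] at hp ⊢
        exact ⟨mem_univ _, hp.2.symm⟩
      · rintro ⟨p, q⟩ _ ⟨p', q'⟩ _ h
        simp only [Prod.mk.injEq] at h
        rw [h.1, h.2]
      · rintro ⟨p, q⟩ hp
        rw [mem_filter] at hp
        exact ⟨(q, p), by rw [mem_filter]; exact ⟨mem_univ _, hp.2.symm⟩, rfl⟩
  have h4 : ((Eset s t).card : ℝ) ≤ ∑ i : Fin s, ∑ i' : Fin s, ((t : ℝ) - |((i : ℕ) : ℝ) - (i' : ℕ)|) := by
    have h5 : ((Eset s t).card : ℝ) ≤ ((∑ i : Fin s, ∑ i' : Fin s,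
      ((univ : Finset (Fin t × Fin t)).filter
        (fun p => (i : ℕ) + (p.1 : ℕ) = (i' : ℕ) + (p.2 : ℕ))).card : ℕ) : ℝ) := by exact_mod_cast h1
    push_cast at h5
    exact h5.trans (sum_le_sum fun i _ => sum_le_sum fun i' _ => h3 i i')
  have h5 : ∑ i : Fin s, ∑ i' : Fin s, ((t : ℝ) - |((i : ℕ) : ℝ) - (i' : ℕ)|) =
      (s : ℝ) ^ 2 * t - ((s : ℝ) ^ 3 - s) / 3 := by
    have h6 := sum_dist s
    rw [Fin.sum_univ_eq_sum_range (fun i : ℕ => ∑ i' : Fin s, ((t : ℝ) - |(i : ℝ) - (i' : ℕ)|)) s]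
    have h7 : ∀ i : ℕ, ∑ i' : Fin s, ((t : ℝ) - |(i : ℝ) - (i' : ℕ)|) =
        s * t - ∑ j ∈ range s, |(i : ℝ) - j| := by
      intro i
      rw [Fin.sum_univ_eq_sum_range (fun i' : ℕ => ((t : ℝ) - |(i : ℝ) - (i' : ℕ)|)) s, sum_sub_distrib,
        sum_const, card_range, nsmul_eq_mul]
    rw [sum_congr rfl fun i _ => h7 i, sum_sub_distrib, sum_const, card_range, nsmul_eq_mul]
    linarith
  linarith

/-- the energy is small enough -/
theorem energy_bound {b s t : ℕ} (hb : 3 ≤ b) (hs : s = (b + 1) / 2) (ht : t = b + 1 - s) :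
    3 * (b : ℝ) / 4 < ((s : ℝ) * t) ^ 2 / (Eset s t).card := by
  have hst : s ≤ t := by omega
  have hE := card_Eset_le hst
  have hE0 : 0 < (Eset s t).card := by
    apply card_pos.2
    refine ⟨((⟨0, by omega⟩, ⟨0, by omega⟩), (⟨0, by omega⟩, ⟨0, by omega⟩)), ?_⟩
    unfold Eset
    simp
  have hER : (0 : ℝ) < (Eset s t).card := by exact_mod_cast hE0
  have hs2 : 2 ≤ s := by omega
  have hsR : (2 : ℝ) ≤ s := by exact_mod_cast hs2
  rw [lt_div_iff₀ hER]
  refine lt_of_le_of_lt (mul_le_mul_of_nonneg_left hE (by positivity)) ?_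
  rcases Nat.even_or_odd b with he | ho
  · obtain ⟨k, hk⟩ := he
    have hsk : s = k := by omega
    have htk : t = k + 1 := by omega
    have hbR : (b : ℝ) = 2 * s := by rw [hk, hsk]; push_cast; ring
    have htR : (t : ℝ) = s + 1 := by rw [htk, hsk]; push_cast; ring
    rw [hbR, htR]
    nlinarith [pow_pos (by linarith : (0 : ℝ) < s) 2, pow_pos (by linarith : (0 : ℝ) < s) 3,
      pow_pos (by linarith : (0 : ℝ) < s) 4]
  · obtain ⟨k, hk⟩ := ho
    have hsk : s = k + 1 := by omega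
    have htk : t = k + 1 := by omega
    have hbR : (b : ℝ) = 2 * s - 1 := by rw [hk, hsk]; push_cast; ring
    have htR : (t : ℝ) = s := by rw [htk, hsk]
    rw [hbR, htR]
    nlinarith [pow_pos (by linarith : (0 : ℝ) < s) 2, pow_pos (by linarith : (0 : ℝ) < s) 3,
      pow_pos (by linarith : (0 : ℝ) < s) 4]

end Pool.Agent.W139.PX
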