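import Pool.Agent.W139.PX.D5
import Pool.Agent.W139.PX.E1

/-! # Uniform digits: counting, and base 2 -/

set_option autoImplicit false

namespace Pool.Agent.W139.PX

open Finset Filter Topology Pool.Agent.W89.PW
open Pool.Agent.W571.PW.Dig (dg pv_eq)
open Pool.Agent.H181R5.PBT9 (pvl_inj)

/-- with uniform digits different digit vectors give different palindromes -/
lemma pv_inj_unif {b L : ℕ} (hb : 2 ≤ b) : Function.Injective (pv b b 1 L) := by
  intro m m' h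
  have hst : b + 1 = b + 1 := rfl
  have hb1 : 1 < b := by omega
  rw [pv_eq hb1 hst, pv_eq hb1 hst] at h
  have h2 := pvl_inj (b := b) (by omega) (L + 1) (by omega)
    (show (1, dg b b 1 L hb1 hst m) ∈ {x : ℕ × (Fin (L + 1) → Fin b) | x.1 < b} from hb1)
    (show (1, dg b b 1 L hb1 hst m') ∈ {x : ℕ × (Fin (L + 1) → Fin b) | x.1 < b} from hb1) h
  have h3 : dg b b 1 L hb1 hst m = dg b b 1 L hb1 hst m' := (Prod.ext_iff.1 h2).2
  funext c
  have h4 : ((m c).1 : ℕ) + ((m c).2 : ℕ) = ((m' c).1 : ℕ) + ((m' c).2 : ℕ) :=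
    congrArg Fin.val (congrFun h3 c.succ)
  have h5 : (m c).2 = (m' c).2 := Subsingleton.elim _ _
  have h6 : ((m c).2 : ℕ) = ((m' c).2 : ℕ) := congrArg Fin.val h5
  exact Prod.ext (Fin.ext (by omega)) h5

open Classical in
/-- the right order of magnitude for uniform digits -/
theorem unifN {b r : ℕ} (hb : 2 ≤ b) {H CM κ lam η : ℝ} (hMaj : MajP b b 1 H CM) (hH0 : 0 < H)
    (hHb : 1 ≤ b * H) (hCM : 0 < CM) (hm4 : (b : ℝ) * m4 b 1 < 1) (hκ0 : 0 < κ) (hκH : (b : ℝ) ^ κ * H < 1)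
    (hl0 : 0 < lam) (hl1 : lam ≤ 1)
    (hlam : lam * (1174 / 1000) < 994 / 1000) (hr : 1 / lam + 88 / (43 * κ) < r + 1) (hη : η < κ / 6) :
    ∃ c : ℝ, 0 < c ∧ ∀ᶠ N : ℕ in atTop, c * (b : ℝ) ^ N / N ≤ (((range (b ^ (2 * N + 1))).filter (fun n =>
      b ^ (2 * N) ≤ n ∧
      (Nat.digits b n).reverse = Nat.digits b n ∧ n.primeFactorsList.length ≤ r ∧
      ∀ p ∈ n.primeFactorsList, (b : ℝ) ^ (η * N) < p)).card : ℝ) := by
  have hb1 : (1 : ℝ) < b := by exact_mod_cast (by omega : 1 < b)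
  have hb0 : (0 : ℝ) < b := by linarith
  have hκ1 : κ < 1 := by
    by_contra hcon
    push Not at hcon
    have h1 : (b : ℝ) ≤ (b : ℝ) ^ κ := by
      calc (b : ℝ) = (b : ℝ) ^ (1 : ℝ) := (Real.rpow_one _).symm
        _ ≤ _ := Real.rpow_le_rpow_of_exponent_le hb1.le hcon
    have h2 : (b : ℝ) * H ≤ (b : ℝ) ^ κ * H := mul_le_mul_of_nonneg_right h1 hH0.le
    linarith
  have hPt : PtW b b 1 := Pool.Agent.W571.PW.Pt.main b b 1 hb hb le_rfl rfl
  have hBig : BigW b b 1 κ := bigW_of_majP hb (by omega) le_rfl rfl hm4 hMaj hH0 hHb hCM hκ0 hκH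
  have hBV : BVW b b 1 κ := bvW2 hb (by omega) le_rfl hPt hκ0 hκ1 hBig
  have hSq : SqW b b 1 κ := sqW_of_majP hMaj hH0 hHb hCM hb (by omega) le_rfl rfl hm4 hκ0 hκH
  obtain ⟨c, hc0, hc⟩ := almostG (r := r) hb (by omega) le_rfl rfl hκ0 hκ1 hBV hSq hl0 hl1 hlam hr
  refine ⟨c / b, by positivity, ?_⟩
  have h2 : ∀ᶠ L : ℕ in atTop, η ≤ (κ / 6 - η) * (L : ℝ) :=
    ((tendsto_natCast_atTop_atTop (R := ℝ)).const_mul_atTop (by linarith)).eventually_ge_atTop _
  have h3 : ∀ᶠ L : ℕ in atTop, c / b * (b : ℝ) ^ (L + 1) / ((L + 1 : ℕ) : ℝ) ≤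
      (((range (b ^ (2 * (L + 1) + 1))).filter
      (fun n => b ^ (2 * (L + 1)) ≤ n ∧
      (Nat.digits b n).reverse = Nat.digits b n ∧ n.primeFactorsList.length ≤ r ∧
      ∀ p ∈ n.primeFactorsList, (b : ℝ) ^ (η * ((L + 1 : ℕ) : ℝ)) < p)).card : ℝ) := by
    filter_upwards [hc, h2, eventually_ge_atTop 1] with L ⟨G, hG1, hG2⟩ h6 h7
    have hL0 : (0 : ℝ) < L := by exact_mod_cast h7
    have hcard : (G.image (pv b b 1 L)).card = G.card := card_image_of_injective _ (pv_inj_unif hb)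
    have hsub : G.image (pv b b 1 L) ⊆
        (range (b ^ (2 * (L + 1) + 1))).filter (fun n => b ^ (2 * (L + 1)) ≤ n ∧
        (Nat.digits b n).reverse = Nat.digits b n ∧ n.primeFactorsList.length ≤ r ∧
        ∀ p ∈ n.primeFactorsList, (b : ℝ) ^ (η * ((L + 1 : ℕ) : ℝ)) < p) := by
      intro n hn
      rw [mem_image] at hn
      obtain ⟨m, hm, rfl⟩ := hn
      rw [mem_filter, mem_range]
      obtain ⟨h9, h10, h11, h12, h13⟩ := hG2 m hm
      refine ⟨by rwa [show 2 * (L + 1) + 1 = 2 * L + 3 by ring], by rwa [show 2 * (L + 1) = 2 * L + 2 by ring],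
        h11, h12, fun p hp => lt_of_le_of_lt ?_ (h13 p hp)⟩
      apply Real.rpow_le_rpow_of_exponent_le hb1.le
      push_cast
      linarith
    have h8 : (G.card : ℝ) ≤ (((range (b ^ (2 * (L + 1) + 1))).filter
      (fun n => b ^ (2 * (L + 1)) ≤ n ∧
      (Nat.digits b n).reverse = Nat.digits b n ∧ n.primeFactorsList.length ≤ r ∧
      ∀ p ∈ n.primeFactorsList, (b : ℝ) ^ (η * ((L + 1 : ℕ) : ℝ)) < p)).card : ℝ) := by
      rw [← hcard]
      exact_mod_cast card_le_card hsub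
    refine le_trans ?_ (hG1.trans h8)
    rw [Nat.cast_one, mul_one]
    have e : c / b * (b : ℝ) ^ (L + 1) = c * (b : ℝ) ^ L := by
      rw [pow_succ]; field_simp
    rw [e]
    apply div_le_div_of_nonneg_left (by positivity) hL0
    push_cast
    linarith
  rw [eventually_atTop] at h3 ⊢
  obtain ⟨L0, hL0⟩ := h3
  refine ⟨L0 + 1, fun N hN => ?_⟩
  obtain ⟨L, rfl⟩ : ∃ L, N = L + 1 := ⟨N - 1, by omega⟩
  exact hL0 L (by omega)

lemma m4_two : m4 2 1 = 3 / 8 := by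
  have h : ∀ z, w2 2 1 z = (((range 2 ×ˢ range 2) ×ˢ (range 1 ×ˢ range 1)).filter
    (fun p => p.1.1 + p.1.2 + (p.2.1 + p.2.2) = z)).card := fun z => rfl
  have h0 : w2 2 1 0 = 1 := by rw [h]; decide
  have h1 : w2 2 1 1 = 2 := by rw [h]; decide
  have h2 : w2 2 1 2 = 1 := by rw [h]; decide
  have h3 : w2 2 1 3 = 0 := by rw [h]; decide
  have h4 : w2 2 1 4 = 0 := by rw [h]; decide
  have h5 : w2 2 1 5 = 0 := by rw [h]; decide
  unfold m4
  rw [show 2 * (2 + 1) = 6 by norm_num]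
  simp only [sum_range_succ, sum_range_zero, h0, h1, h2, h3, h4, h5]
  norm_num

open Classical in
/-- base 2: the right order of magnitude for at most five prime factors -/
theorem base2 : ∃ c : ℝ, 0 < c ∧ ∀ᶠ N : ℕ in atTop, c * ((2 : ℕ) : ℝ) ^ N / N ≤
    (((range (2 ^ (2 * N + 1))).filter (fun n => 2 ^ (2 * N) ≤ n ∧
      (Nat.digits 2 n).reverse = Nat.digits 2 n ∧ n.primeFactorsList.length ≤ 5 ∧
      ∀ p ∈ n.primeFactorsList, ((2 : ℕ) : ℝ) ^ ((1 / 13) * (N : ℝ)) < p)).card : ℝ) := by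
  set H : ℝ := Real.sqrt (1 / 2) with hH
  have hH0 : 0 < H := Real.sqrt_pos.2 (by norm_num)
  have hH2 : H ^ 2 = 1 / 2 := Real.sq_sqrt (by norm_num)
  have hH1 : H ≤ 1 := by nlinarith
  have hHh : 1 / 2 ≤ H := by nlinarith
  have hMaj : MajP 2 2 1 H (1 / H ^ 3) := majP_alt le_rfl (by norm_num) le_rfl le_rfl (by norm_num) hH0 hH1 (by
    rw [hH2]; norm_num)
  have hκ : (((2 : ℕ) : ℝ)) ^ (49 / 100 : ℝ) * H < 1 := by
    rw [hH, Real.sqrt_eq_rpow, one_div, Real.inv_rpow (by norm_num)]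
    rw [← div_eq_mul_inv, div_lt_one (by positivity)]
    push_cast
    exact Real.rpow_lt_rpow_of_exponent_lt (by norm_num) (by norm_num)
  exact unifN (r := 5) (κ := 49 / 100) (lam := 84 / 100) (η := 1 / 13) le_rfl hMaj hH0 (by push_cast; linarith)
    (by positivity) (by rw [m4_two]; norm_num) (by norm_num) hκ (by norm_num) (by norm_num) (by norm_num)
    (by norm_num) (by norm_num)

end Pool.Agent.W139.PX
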