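import Pool.Agent.W139.PX.F3
import Pool.Agent.W139.PX.E2

/-!
# Uniform digits in large bases: at most three prime factors, right order of magnitude
-/

set_option autoImplicit false

namespace Pool.Agent.W139.PX

open Finset Filter Topology Pool.Agent.W89.PW
open Pool.Agent.W139.PW (MxOK Mx MajOK)

/-- the fourth moment for uniform digits -/
lemma m4_unif {b : ℕ} (hb : 2 ≤ b) : (b : ℝ) * m4 b 1 < 1 := by
  classical
  have hb0 : (0 : ℝ) < b := by exact_mod_cast (by omega : 0 < b)
  have h1 : ∀ z, w2 b 1 z ≤ b := by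
    intro z
    unfold w2
    calc _ ≤ (range b).card := by
          apply card_le_card_of_injOn (fun p => p.1.1)
          · intro p hp
            rw [mem_coe, mem_filter, mem_product, mem_product] at hp
            exact hp.1.1.1
          · rintro ⟨⟨a, a'⟩, ⟨c, c'⟩⟩ hp ⟨⟨d, d'⟩, ⟨e, e'⟩⟩ hp' h
            rw [mem_coe, mem_filter, mem_product, mem_product, mem_product, mem_range, mem_range, mem_range,
              mem_range] at hp hp'
            simp only at hp hp' h
            have h2 := hp.1.2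
            have h3 := hp'.1.2
            have h4 := hp.2
            have h5 := hp'.2
            simp only [Prod.mk.injEq]
            omega
      _ = b := card_range b
  have h2 : ∑ z ∈ range (2 * (b + 1)), w2 b 1 z = b * b := by
    have h3 := card_eq_sum_card_fiberwise (f := fun p : (ℕ × ℕ) × (ℕ × ℕ) => p.1.1 + p.1.2 + (p.2.1 + p.2.2))
      (s := (range b ×ˢ range b) ×ˢ (range 1 ×ˢ range 1)) (t := range (2 * (b + 1))) (by
        intro p hp
        rw [mem_coe, mem_product, mem_product, mem_product, mem_range, mem_range, mem_range, mem_range] at hp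
        rw [mem_coe, mem_range]
        beta_reduce
        omega)
    rw [card_product, card_product, card_product, card_range, card_range, mul_one, mul_one] at h3
    exact h3.symm
  have h4 : w2 b 1 0 ≤ 1 := by
    unfold w2
    rw [card_le_one]
    rintro ⟨⟨a, a'⟩, ⟨c, c'⟩⟩ hp ⟨⟨d, d'⟩, ⟨e, e'⟩⟩ hp'
    rw [mem_filter] at hp hp'
    have h5 := hp.2
    have h6 := hp'.2
    simp only at h5 h6
    simp only [Prod.mk.injEq]
    omega
  have h4' : 1 ≤ w2 b 1 0 := by
    unfold w2
    apply card_pos.2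
    refine ⟨((0, 0), (0, 0)), ?_⟩
    rw [mem_filter, mem_product, mem_product, mem_product, mem_range, mem_range]
    simp
    omega
  have h5 : ∑ z ∈ range (2 * (b + 1)), w2 b 1 z ^ 2 + (b - 1) ≤ b * (b * b) := by
    rw [← h2, mul_sum, show 2 * (b + 1) = (2 * b + 1) + 1 by ring, sum_range_succ', sum_range_succ' (fun z => b * w2 b 1 z)]
    have h6 : ∑ z ∈ range (2 * b + 1), w2 b 1 (z + 1) ^ 2 ≤ ∑ z ∈ range (2 * b + 1), b * w2 b 1 (z + 1) := by
      apply sum_le_sum
      intro z _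
      rw [sq]
      exact Nat.mul_le_mul_right _ (h1 _)
    have h7 : w2 b 1 0 = 1 := by omega
    rw [h7]
    omega
  have h6 : ∑ z ∈ range (2 * (b + 1)), w2 b 1 z ^ 2 < b * (b * b) := by omega
  have h7 : ∑ z ∈ range (2 * (b + 1)), (w2 b 1 z : ℝ) ^ 2 < b * (b * b) := by exact_mod_cast h6
  unfold m4
  rw [Nat.cast_one, mul_one, ← mul_div_assoc, div_lt_one (by positivity)]
  calc (b : ℝ) * ∑ z ∈ range (2 * (b + 1)), (w2 b 1 z : ℝ) ^ 2 < b * (b * (b * b)) :=
        mul_lt_mul_of_pos_left h7 hb0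
    _ = (b : ℝ) ^ 4 := by ring

/-- the mean of the majorant -/
noncomputable def HU (b : ℕ) : ℝ := (2 + 2 / Real.pi * Real.log b) / b

lemma HU_facts {b : ℕ} (hb : 64 ≤ b) : 0 < HU b ∧ 1 ≤ b * HU b ∧ HU b ≤ 1 := by
  have hbR : (64 : ℝ) ≤ b := by exact_mod_cast hb
  have hb0 : (0 : ℝ) < b := by linarith
  have hl : 0 ≤ Real.log b := Real.log_nonneg (by linarith)
  have hpi := Real.pi_pos
  have h1 : b * HU b = 2 + 2 / Real.pi * Real.log b := by
    unfold HU
    field_simp
  have h2 : 0 ≤ 2 / Real.pi * Real.log b := by positivity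
  refine ⟨?_, by rw [h1]; linarith, ?_⟩
  · unfold HU
    positivity
  · unfold HU
    rw [div_le_one hb0]
    have h3 : Real.log b ≤ b / 2 := by
      have h4 : Real.log b = Real.log (b / 2) + Real.log 2 := by
        rw [← Real.log_mul (by positivity) (by norm_num)]
        congr 1
        ring
      have h5 : Real.log (b / 2) ≤ b / 2 - 1 := Real.log_le_sub_one_of_pos (by positivity)
      have h6 := Real.log_two_lt_d9
      linarith
    have h4 : 2 / Real.pi ≤ 1 := by
      rw [div_le_one hpi]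
      have := Real.pi_gt_three
      linarith
    have h5 : 2 / Real.pi * Real.log b ≤ 1 * (b / 2) := mul_le_mul h4 h3 hl (by norm_num)
    linarith

lemma majP_unif {b : ℕ} (hb : 64 ≤ b) : MajP b b 1 (HU b) 1 := by
  obtain ⟨h1, h2, h3⟩ := HU_facts hb
  exact majP_of_majOK (by omega) h1.le h3 (majUnif hb)

/-- the condition on `κ`, propagated to larger bases -/
lemma cond_mono {b : ℕ} {b0 κ : ℝ} (hb0 : 64 ≤ b0) (hb : b0 ≤ b)
    (h : 2 + 2 / Real.pi * Real.log b0 < b0 ^ (1 - κ)) (hd : 2 / Real.pi ≤ (1 - κ) * b0 ^ (1 - κ)) :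
    (b : ℝ) ^ κ * HU b < 1 := by
  have hbp : (0 : ℝ) < b := by linarith
  have hb0p : 0 < b0 := by linarith
  have h1 : 2 + 2 / Real.pi * Real.log b < (b : ℝ) ^ (1 - κ) := by
    set z := Real.log (b / b0) with hz
    have hz0 : 0 ≤ z := Real.log_nonneg (by rw [le_div_iff₀ hb0p]; linarith)
    have h2 : Real.log b = Real.log b0 + z := by
      rw [hz, Real.log_div hbp.ne' hb0p.ne']
      ring
    have h3 : (b : ℝ) ^ (1 - κ) = b0 ^ (1 - κ) * Real.exp ((1 - κ) * z) := by
      rw [Real.rpow_def_of_pos hbp, Real.rpow_def_of_pos hb0p, ← Real.exp_add, h2]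
      congr 1
      ring
    have h4 : (1 - κ) * z + 1 ≤ Real.exp ((1 - κ) * z) := Real.add_one_le_exp _
    have h5 : 0 < b0 ^ (1 - κ) := by positivity
    have h6 : b0 ^ (1 - κ) * ((1 - κ) * z + 1) ≤ b0 ^ (1 - κ) * Real.exp ((1 - κ) * z) :=
      mul_le_mul_of_nonneg_left h4 h5.le
    have h7 : 2 / Real.pi * z ≤ (1 - κ) * b0 ^ (1 - κ) * z := mul_le_mul_of_nonneg_right hd hz0
    rw [h3, h2]
    nlinarith
  unfold HU
  rw [← mul_div_assoc, div_lt_one hbp]
  have h2 : (b : ℝ) ^ κ * (b : ℝ) ^ (1 - κ) = b := by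
    rw [← Real.rpow_add hbp]
    simp
  calc (b : ℝ) ^ κ * (2 + 2 / Real.pi * Real.log b) < (b : ℝ) ^ κ * (b : ℝ) ^ (1 - κ) :=
        mul_lt_mul_of_pos_left h1 (by positivity)
    _ = b := h2

lemma log_two_div_pi : 2 / Real.pi ≤ 6367 / 10000 := by
  rw [div_le_iff₀ Real.pi_pos]
  have := Real.pi_gt_d4
  norm_num at this
  linarith

/-- `κ = 6/10` for `b ≥ 64` -/
lemma cond64 {b : ℕ} (hb : 64 ≤ b) : (b : ℝ) ^ (6 / 10 : ℝ) * HU b < 1 := by
  have hbR : (64 : ℝ) ≤ b := by exact_mod_cast hb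
  have h64 : (5277 / 1000 : ℝ) < 64 ^ (1 - 6 / 10 : ℝ) := by
    have h1 : ((5277 / 1000 : ℝ)) ^ 5 < (64 ^ (1 - 6 / 10 : ℝ)) ^ 5 := by
      rw [← Real.rpow_natCast, ← Real.rpow_natCast, ← Real.rpow_mul (by norm_num)]
      norm_num
    exact lt_of_pow_lt_pow_left₀ 5 (by positivity) h1
  have hpi := log_two_div_pi
  have hpp : 0 < 2 / Real.pi := by positivity
  apply cond_mono (b0 := 64) le_rfl hbR
  · have h1 : Real.log 64 ≤ 4.16 := by
      have h2 : (64 : ℝ) = 2 ^ 6 := by norm_num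
      rw [h2, Real.log_pow]
      have := Real.log_two_lt_d9
      norm_num at this ⊢
      linarith
    have h2 : 2 / Real.pi * Real.log 64 ≤ 6367 / 10000 * 4.16 :=
      mul_le_mul hpi h1 (Real.log_nonneg (by norm_num)) (by norm_num)
    norm_num at h2
    linarith
  · linarith

/-- `κ = 727/1000` for `b ≥ 1000` -/
lemma cond1000 {b : ℕ} (hb : 1000 ≤ b) : (b : ℝ) ^ (727 / 1000 : ℝ) * HU b < 1 := by
  have hbR : (1000 : ℝ) ≤ b := by exact_mod_cast hb
  have h1000 : (657 / 100 : ℝ) < 1000 ^ (1 - 727 / 1000 : ℝ) := by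
    have h1 : ((657 / 100 : ℝ)) ^ 11 < (1000 ^ (3 / 11 : ℝ)) ^ 11 := by
      rw [← Real.rpow_natCast (1000 ^ (3 / 11 : ℝ)), ← Real.rpow_mul (by norm_num)]
      have e : (3 / 11 : ℝ) * ((11 : ℕ) : ℝ) = ((3 : ℕ) : ℝ) := by norm_num
      rw [e, Real.rpow_natCast]
      norm_num
    have h2 : (657 / 100 : ℝ) < 1000 ^ (3 / 11 : ℝ) := lt_of_pow_lt_pow_left₀ 11 (by positivity) h1
    exact h2.trans_le (Real.rpow_le_rpow_of_exponent_le (by norm_num) (by norm_num))
  have hpi := log_two_div_pi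
  have hpp : 0 < 2 / Real.pi := by positivity
  apply cond_mono (b0 := 1000) (by norm_num) hbR
  · have h1 : Real.log 1000 ≤ 6.932 := by
      have h2 : Real.log 1000 ≤ Real.log (2 ^ 10) := Real.log_le_log (by norm_num) (by norm_num)
      rw [Real.log_pow] at h2
      have := Real.log_two_lt_d9
      norm_num at this h2 ⊢
      linarith
    have h2 : 2 / Real.pi * Real.log 1000 ≤ 6367 / 10000 * 6.932 :=
      mul_le_mul hpi h1 (Real.log_nonneg (by norm_num)) (by norm_num)
    norm_num at h2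
    linarith
  · linarith

open Classical in
/-- at most five prime factors in every base, right order of magnitude -/
theorem five {b : ℕ} (hb : 2 ≤ b) : ∃ c : ℝ, 0 < c ∧ ∀ᶠ N : ℕ in atTop, c * (b : ℝ) ^ N / N ≤
    (((range (b ^ (2 * N + 1))).filter (fun n => b ^ (2 * N) ≤ n ∧
      (Nat.digits b n).reverse = Nat.digits b n ∧ n.primeFactorsList.length ≤ 5 ∧
      ∀ p ∈ n.primeFactorsList, (b : ℝ) ^ ((1 / 13) * (N : ℝ)) < p)).card : ℝ) := by
  have hbR : (2 : ℝ) ≤ b := by exact_mod_cast hb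
  have hb0 : (0 : ℝ) < b := by linarith
  set H : ℝ := Real.sqrt (1 / b) with hH
  have hH0 : 0 < H := Real.sqrt_pos.2 (by positivity)
  have hH2 : H ^ 2 = 1 / b := Real.sq_sqrt (by positivity)
  have hb1 : 1 / (b : ℝ) ≤ 1 := by
    rw [div_le_one hb0]
    linarith
  have hH1 : H ≤ 1 := by
    by_contra hcon
    push Not at hcon
    have h1 : 1 < H ^ 2 := one_lt_pow₀ hcon two_ne_zero
    linarith
  have hHb : 1 ≤ b * H := by
    have h1 : (b : ℝ) * H ^ 2 = 1 := by
      rw [hH2]
      field_simp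
    have h2 : H ^ 2 ≤ H := by nlinarith
    have h3 : (b : ℝ) * H ^ 2 ≤ b * H := mul_le_mul_of_nonneg_left h2 hb0.le
    linarith
  have hMaj : MajP b b 1 H (1 / H ^ 3) := majP_alt hb (by omega) le_rfl le_rfl (by omega) hH0 hH1 (by
    rw [hH2, Nat.cast_one, mul_one])
  have hκ : (b : ℝ) ^ (49 / 100 : ℝ) * H < 1 := by
    rw [hH, Real.sqrt_eq_rpow, one_div, Real.inv_rpow hb0.le]
    rw [← div_eq_mul_inv, div_lt_one (by positivity)]
    exact Real.rpow_lt_rpow_of_exponent_lt (by linarith) (by norm_num)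
  exact unifN (r := 5) (κ := 49 / 100) (lam := 84 / 100) (η := 1 / 13) hb hMaj hH0 hHb
    (by positivity) (m4_unif hb) (by norm_num) hκ (by norm_num) (by norm_num) (by norm_num)
    (by norm_num) (by norm_num)

open Classical in
/-- the right order of magnitude -/
theorem finU {b : ℕ} (hb : 2 ≤ b) : ∃ c : ℝ, 0 < c ∧ ∀ᶠ N : ℕ in atTop, c * (b : ℝ) ^ N / N ≤
    (((range (b ^ (2 * N + 1))).filter (fun n => b ^ (2 * N) ≤ n ∧
      (Nat.digits b n).reverse = Nat.digits b n ∧
      n.primeFactorsList.length ≤ (if 1000 ≤ b then 3 else if 64 ≤ b then 4 else 5) ∧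
      ∀ p ∈ n.primeFactorsList, (b : ℝ) ^ ((1 / 13) * (N : ℝ)) < p)).card : ℝ) := by
  rcases lt_or_ge b 64 with hb' | hb'
  · rw [if_neg (by omega), if_neg (by omega)]
    exact five hb
  · obtain ⟨h1, h2, h3⟩ := HU_facts hb'
    rcases lt_or_ge b 1000 with h9 | h9
    · rw [if_neg (by omega), if_pos hb']
      exact unifN (r := 4) (κ := 6 / 10) (lam := 84 / 100) (η := 1 / 13) (by omega) (majP_unif hb') h1 h2
        one_pos (m4_unif (by omega)) (by norm_num) (cond64 hb') (by norm_num) (by norm_num) (by norm_num)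
        (by norm_num) (by norm_num)
    · rw [if_pos h9]
      exact unifN (r := 3) (κ := 727 / 1000) (lam := 846 / 1000) (η := 1 / 13) (by omega) (majP_unif hb') h1 h2
        one_pos (m4_unif (by omega)) (by norm_num) (cond1000 h9) (by norm_num) (by norm_num) (by norm_num)
        (by norm_num) (by norm_num)

end Pool.Agent.W139.PX
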