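import Mathlib

/-!
# From palindromes with a given number of digits to palindromes up to `x`
-/

set_option autoImplicit false

namespace Pool.Agent.W139.PX

open Finset Filter Topology

/-- a palindromic list is determined by its first half -/
lemma list_eq_of_take {l l' : List ℕ} (h1 : l.reverse = l) (h2 : l'.reverse = l') (hlen : l.length = l'.length)
    {h : ℕ} (hh : l.length ≤ 2 * h) (ht : l.take h = l'.take h) : l = l' := by
  apply List.ext_getElem hlen
  intro i hi hi'
  have key : ∀ j, (hj : j < l.length) → j < h → l[j] = l'[j]'(by omega) := by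
    intro j hj hjh
    have e1 : (l.take h)[j]'(by rw [List.length_take]; omega) = l[j] := List.getElem_take
    have e2 : (l'.take h)[j]'(by rw [List.length_take]; omega) = l'[j]'(by omega) := List.getElem_take
    rw [← e1, ← e2]
    congr 1
  rcases lt_or_ge i h with hc | hc
  · exact key i hi hc
  · have e1 : l[i] = l[l.length - 1 - i]'(by omega) := by
      have : l.reverse[i]'(by rw [List.length_reverse]; omega) = l[l.length - 1 - i]'(by omega) := by
        rw [List.getElem_reverse]
      rw [← this]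
      congr 1
      exact h1.symm
    have e2 : l'[i] = l'[l'.length - 1 - i]'(by omega) := by
      have : l'.reverse[i]'(by rw [List.length_reverse]; omega) = l'[l'.length - 1 - i]'(by omega) := by
        rw [List.getElem_reverse]
      rw [← this]
      congr 1
      exact h2.symm
    rw [e1, e2]
    have e3 := key (l.length - 1 - i) (by omega) (by omega)
    rw [e3]
    congr 1
    omega

/-- the number of palindromes with `k` digits -/
lemma card_pal_len {b : ℕ} (hb : 2 ≤ b) (k M : ℕ) :
    ((range M).filter (fun n => (Nat.digits b n).reverse = Nat.digits b n ∧ (Nat.digits b n).length = k)).card ≤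
      b ^ ((k + 1) / 2) := by
  rw [← card_range (b ^ ((k + 1) / 2))]
  apply card_le_card_of_injOn (fun n => Nat.ofDigits b ((Nat.digits b n).take ((k + 1) / 2)))
  · intro n hn
    rw [mem_coe, mem_filter] at hn
    rw [mem_coe, mem_range]
    have h1 : Nat.ofDigits b ((Nat.digits b n).take ((k + 1) / 2)) <
        b ^ ((Nat.digits b n).take ((k + 1) / 2)).length := by
      apply Nat.ofDigits_lt_base_pow_length (by omega)
      intro x hx
      exact Nat.digits_lt_base (by omega) (List.mem_of_mem_take hx)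
    refine h1.trans_le (Nat.pow_le_pow_right (by omega) ?_)
    rw [List.length_take]
    exact min_le_left _ _
  · intro n hn m hm h
    rw [mem_coe, mem_filter] at hn hm
    have h1 : (Nat.digits b n).take ((k + 1) / 2) = (Nat.digits b m).take ((k + 1) / 2) := by
      apply Nat.ofDigits_inj_of_len_eq (b := b) (by omega)
      · rw [List.length_take, List.length_take, hn.2.2, hm.2.2]
      · intro x hx
        exact Nat.digits_lt_base (by omega) (List.mem_of_mem_take hx)
      · intro x hx
        exact Nat.digits_lt_base (by omega) (List.mem_of_mem_take hx)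
      · exact h
    have h2 := list_eq_of_take hn.2.1 hm.2.1 (hn.2.2.trans hm.2.2.symm) (h := (k + 1) / 2)
      (by rw [hn.2.2]; omega) h1
    exact Nat.digits_inj_iff.1 h2

lemma geom_le {b : ℕ} (hb : 2 ≤ b) (K : ℕ) : ∑ j ∈ range (K + 1), b ^ j ≤ 2 * b ^ K := by
  induction K with
  | zero => simp
  | succ K ih =>
    rw [sum_range_succ, pow_succ]
    have : b ^ K * 2 ≤ b ^ K * b := Nat.mul_le_mul_left _ hb
    omega

/-- the number of palindromes below `b ^ (2 N + 3)` -/
lemma card_pal_le {b : ℕ} (hb : 2 ≤ b) (N x : ℕ) (hx : x < b ^ (2 * N + 3)) :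
    ((Icc 1 x).filter (fun n => (Nat.digits b n).reverse = Nat.digits b n)).card ≤ 4 * b ^ (N + 2) := by
  have h1 : (Icc 1 x).filter (fun n => (Nat.digits b n).reverse = Nat.digits b n) ⊆
      (range (2 * N + 4)).biUnion fun k => (range (x + 1)).filter
        (fun n => (Nat.digits b n).reverse = Nat.digits b n ∧ (Nat.digits b n).length = k) := by
    intro n hn
    rw [mem_filter, mem_Icc] at hn
    rw [mem_biUnion]
    refine ⟨(Nat.digits b n).length, ?_, ?_⟩
    · rw [mem_range]
      have : (Nat.digits b n).length ≤ 2 * N + 3 := (Nat.digits_length_le_iff (by omega) n).2 (by omega)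
      omega
    · rw [mem_filter, mem_range]
      exact ⟨by omega, hn.2, rfl⟩
  refine (card_le_card h1).trans (card_biUnion_le.trans ?_)
  refine (sum_le_sum fun k _ => card_pal_len hb k (x + 1)).trans ?_
  have h2 : ∀ M : ℕ, ∑ k ∈ range (2 * M), b ^ ((k + 1) / 2) ≤ 2 * ∑ j ∈ range (M + 1), b ^ j := by
    intro M
    induction M with
    | zero => simp
    | succ M ih =>
      rw [show 2 * (M + 1) = 2 * M + 1 + 1 by ring, sum_range_succ, sum_range_succ, sum_range_succ _ (M + 1),
        mul_add]
      have e1 : (2 * M + 1) / 2 = M := by omega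
      have e2 : (2 * M + 1 + 1) / 2 = M + 1 := by omega
      rw [e1, e2]
      have : b ^ M ≤ b ^ (M + 1) := Nat.pow_le_pow_right (by omega) (by omega)
      omega
  have h3 := h2 (N + 2)
  rw [show 2 * (N + 2) = 2 * N + 4 by ring] at h3
  refine h3.trans ?_
  have h4 := geom_le hb (N + 2)
  omega

open Classical in
/-- transfer to all `x` -/
theorem to_x {b r : ℕ} (hb : 2 ≤ b) {c : ℝ} (hc : 0 < c)
    (h : ∀ᶠ N : ℕ in atTop, c * (b : ℝ) ^ N / N ≤
    (((range (b ^ (2 * N + 1))).filter (fun n => b ^ (2 * N) ≤ n ∧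
      (Nat.digits b n).reverse = Nat.digits b n ∧
      n.primeFactorsList.length ≤ r ∧
      ∀ p ∈ n.primeFactorsList, (b : ℝ) ^ ((1 / 13) * (N : ℝ)) < p)).card : ℝ)) :
    ∃ c' : ℝ, 0 < c' ∧ ∀ᶠ x : ℕ in atTop,
      c' * (((Icc 1 x).filter (fun n => (Nat.digits b n).reverse = Nat.digits b n)).card : ℝ) / Real.log x ≤
      (((Icc 1 x).filter (fun n => (Nat.digits b n).reverse = Nat.digits b n ∧
        n.primeFactorsList.length ≤ r ∧ ∀ p ∈ n.primeFactorsList, (x : ℝ) ^ (1 / 30 : ℝ) < p)).card : ℝ) := by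
  have hb1 : (1 : ℝ) < b := by exact_mod_cast (by omega : 1 < b)
  have hb0 : (0 : ℝ) < b := by linarith
  have hlb : 0 < Real.log b := Real.log_pos hb1
  rw [eventually_atTop] at h
  obtain ⟨N0, hN0⟩ := h
  refine ⟨c * Real.log b / (4 * b ^ 2), by positivity, ?_⟩
  filter_upwards [eventually_ge_atTop (b ^ (2 * (N0 + 10) + 3))] with x hx
  set N := (Nat.log b x - 1) / 2 with hN
  have hx0 : x ≠ 0 := by
    have : 0 < b ^ (2 * (N0 + 10) + 3) := by positivity
    omega
  have hlog : 2 * (N0 + 10) + 3 ≤ Nat.log b x := Nat.le_log_of_pow_le (by omega) hx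
  have hNN : N0 + 10 ≤ N := by omega
  have h1 : b ^ (2 * N + 1) ≤ x :=
    (Nat.pow_le_pow_right (by omega) (by omega : 2 * N + 1 ≤ Nat.log b x)).trans (Nat.pow_log_le_self b hx0)
  have h2 : x < b ^ (2 * N + 3) :=
    (Nat.lt_pow_succ_log_self (by omega) x).trans_le (Nat.pow_le_pow_right (by omega) (by omega))
  have h3 := hN0 N (by omega)
  have hNR : (10 : ℝ) ≤ N := by exact_mod_cast (by omega : 10 ≤ N)
  have hN0' : (0 : ℝ) < N := by linarith
  have h4 : (((range (b ^ (2 * N + 1))).filter (fun n => b ^ (2 * N) ≤ n ∧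
      (Nat.digits b n).reverse = Nat.digits b n ∧
      n.primeFactorsList.length ≤ r ∧
      ∀ p ∈ n.primeFactorsList, (b : ℝ) ^ ((1 / 13) * (N : ℝ)) < p)).card : ℝ) ≤
      (((Icc 1 x).filter (fun n => (Nat.digits b n).reverse = Nat.digits b n ∧
        n.primeFactorsList.length ≤ r ∧ ∀ p ∈ n.primeFactorsList, (x : ℝ) ^ (1 / 30 : ℝ) < p)).card : ℝ) := by
    have : ((range (b ^ (2 * N + 1))).filter (fun n => b ^ (2 * N) ≤ n ∧
      (Nat.digits b n).reverse = Nat.digits b n ∧
      n.primeFactorsList.length ≤ r ∧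
      ∀ p ∈ n.primeFactorsList, (b : ℝ) ^ ((1 / 13) * (N : ℝ)) < p)) ⊆
      ((Icc 1 x).filter (fun n => (Nat.digits b n).reverse = Nat.digits b n ∧
        n.primeFactorsList.length ≤ r ∧ ∀ p ∈ n.primeFactorsList, (x : ℝ) ^ (1 / 30 : ℝ) < p)) := by
      intro n hn
      rw [mem_filter, mem_range] at hn
      obtain ⟨g1, g2, g3, g4, g5⟩ := hn
      rw [mem_filter, mem_Icc]
      refine ⟨⟨?_, by omega⟩, g3, g4, ?_⟩
      · have : 0 < b ^ (2 * N) := by positivity
        omega
      · intro p hp
        refine lt_of_le_of_lt ?_ (g5 p hp)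
        have e1 : (x : ℝ) ≤ (b : ℝ) ^ (2 * (N : ℝ) + 3) := by
          have e2 : (x : ℝ) ≤ (b : ℝ) ^ (2 * N + 3) := by exact_mod_cast h2.le
          have e3 : (b : ℝ) ^ (2 * (N : ℝ) + 3) = (b : ℝ) ^ (2 * N + 3) := by
            rw [← Real.rpow_natCast]
            push_cast
            rfl
          rw [e3]
          exact e2
        calc (x : ℝ) ^ (1 / 30 : ℝ) ≤ ((b : ℝ) ^ (2 * (N : ℝ) + 3)) ^ (1 / 30 : ℝ) :=
              Real.rpow_le_rpow (Nat.cast_nonneg _) e1 (by norm_num)
          _ = (b : ℝ) ^ ((2 * (N : ℝ) + 3) * (1 / 30)) := by rw [← Real.rpow_mul hb0.le]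
          _ ≤ (b : ℝ) ^ ((1 / 13) * (N : ℝ)) := by
              apply Real.rpow_le_rpow_of_exponent_le hb1.le
              linarith
    exact_mod_cast card_le_card this
  refine le_trans ?_ (h3.trans h4)
  have h5 : (((Icc 1 x).filter (fun n => (Nat.digits b n).reverse = Nat.digits b n)).card : ℝ) ≤
      4 * (b : ℝ) ^ (N + 2) := by
    exact_mod_cast card_pal_le hb N x h2
  have h6 : (N : ℝ) * Real.log b ≤ Real.log x := by
    have e1 : ((b : ℝ)) ^ N ≤ x := by
      have : b ^ N ≤ b ^ (2 * N + 1) := Nat.pow_le_pow_right (by omega) (by omega)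
      exact_mod_cast this.trans h1
    have e2 := Real.log_le_log (by positivity) e1
    rwa [Real.log_pow] at e2
  have h7 : 0 < (N : ℝ) * Real.log b := by positivity
  have hlx : 0 < Real.log x := by linarith
  rw [div_le_div_iff₀ hlx hN0']
  calc c * Real.log b / (4 * b ^ 2) *
        (((Icc 1 x).filter (fun n => (Nat.digits b n).reverse = Nat.digits b n)).card : ℝ) * N
      ≤ c * Real.log b / (4 * b ^ 2) * (4 * (b : ℝ) ^ (N + 2)) * N := by gcongr
    _ = c * (b : ℝ) ^ N * (N * Real.log b) := by
        rw [pow_add]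
        field_simp
    _ ≤ c * (b : ℝ) ^ N * Real.log x := mul_le_mul_of_nonneg_left h6 (by positivity)

end Pool.Agent.W139.PX
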