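import Pool.Agent.W139.PX.E2
import Pool.Agent.W22.PW_M4

/-! # The numerical conditions -/

set_option autoImplicit false

namespace Pool.Agent.W139.PX

open Finset Filter Topology Pool.Agent.W89.PW

lemma rpow_lt_of_pow {x y κ : ℝ} {p q : ℕ} (hx : 0 ≤ x) (hy : 0 ≤ y) (hq : q ≠ 0) (hκ : κ * q = p)
    (h : x ^ p < y ^ q) : x ^ κ < y := by
  have h2 : (x ^ κ) ^ q < y ^ q := by
    rw [← Real.rpow_natCast, ← Real.rpow_mul hx, hκ, Real.rpow_natCast]
    exact h
  exact lt_of_pow_lt_pow_left₀ q hy h2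

lemma HH_le {b s t : ℕ} (hb : 3 ≤ b) (hs : s = (b + 1) / 2) (ht : t = b + 1 - s) : HH s t ≤ 2 / b := by
  have hb0 : (0 : ℝ) < b := by exact_mod_cast (by omega : 0 < b)
  have hs0 : (0 : ℝ) < s := by exact_mod_cast (by omega : 0 < s)
  unfold HH
  rcases Nat.even_or_odd b with he | ho
  · obtain ⟨k, hk⟩ := he
    have hsk : s = k := by omega
    have htk : t = k + 1 := by omega
    have hbR : (b : ℝ) = 2 * s := by rw [hk, hsk]; push_cast; ring
    have htR : (t : ℝ) = s + 1 := by rw [htk, hsk]; push_cast; ring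
    rw [hbR, htR]
    rw [div_add_div _ _ (by positivity) (by positivity), div_div, div_le_div_iff₀ (by positivity) (by positivity)]
    nlinarith
  · obtain ⟨k, hk⟩ := ho
    have hsk : s = k + 1 := by omega
    have htk : t = k + 1 := by omega
    have hbR : (b : ℝ) = 2 * s - 1 := by rw [hk, hsk]; push_cast; ring
    have htR : (t : ℝ) = s := by rw [htk, hsk]
    have h1 : 0 < 2 * (s : ℝ) - 1 := by rw [← hbR]; exact hb0
    rw [hbR, htR]
    rw [div_add_div _ _ (by positivity) (by positivity), div_div, div_le_div_iff₀ (by positivity) (by positivity)]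
    nlinarith

lemma kap9 {b s t : ℕ} (hb : 9 ≤ b) (hs : s = (b + 1) / 2) (ht : t = b + 1 - s) :
    (b : ℝ) ^ (183 / 250 : ℝ) * HH s t < 1 := by
  rcases lt_or_ge b 14 with h14 | h14
  · interval_cases b
    · subst hs
      norm_num at ht
      subst ht
      have h1 : ((9 : ℕ) : ℝ) ^ (183 / 250 : ℝ) < 5 :=
        rpow_lt_of_pow (p := 183) (q := 250) (by norm_num) (by norm_num) (by norm_num) (by norm_num) (by norm_num)
      unfold HH
      norm_num at h1 ⊢
      linarith
    · subst hs
      norm_num at ht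
      subst ht
      have h1 : ((10 : ℕ) : ℝ) ^ (183 / 250 : ℝ) < 60 / 11 :=
        rpow_lt_of_pow (p := 183) (q := 250) (by norm_num) (by norm_num) (by norm_num) (by norm_num) (by norm_num)
      unfold HH
      norm_num at h1 ⊢
      linarith
    · subst hs
      norm_num at ht
      subst ht
      have h1 : ((11 : ℕ) : ℝ) ^ (183 / 250 : ℝ) < 6 :=
        rpow_lt_of_pow (p := 183) (q := 250) (by norm_num) (by norm_num) (by norm_num) (by norm_num) (by norm_num)
      unfold HH
      norm_num at h1 ⊢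
      linarith
    · subst hs
      norm_num at ht
      subst ht
      have h1 : ((12 : ℕ) : ℝ) ^ (183 / 250 : ℝ) < 84 / 13 :=
        rpow_lt_of_pow (p := 183) (q := 250) (by norm_num) (by norm_num) (by norm_num) (by norm_num) (by norm_num)
      unfold HH
      norm_num at h1 ⊢
      linarith
    · subst hs
      norm_num at ht
      subst ht
      have h1 : ((13 : ℕ) : ℝ) ^ (183 / 250 : ℝ) < 7 :=
        rpow_lt_of_pow (p := 183) (q := 250) (by norm_num) (by norm_num) (by norm_num) (by norm_num) (by norm_num)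
      unfold HH
      norm_num at h1 ⊢
      linarith
  · have hH := HH_le (by omega) hs ht
    have hbR : (14 : ℝ) ≤ b := by exact_mod_cast h14
    have hb0 : (0 : ℝ) < b := by linarith
    have h1 : (2 : ℝ) < 14 ^ (67 / 250 : ℝ) := by
      have h2 : (2 : ℝ) ^ (250 / 67 : ℝ) < 14 :=
        rpow_lt_of_pow (p := 250) (q := 67) (by norm_num) (by norm_num) (by norm_num) (by norm_num) (by norm_num)
      have h3 : ((2 : ℝ) ^ (250 / 67 : ℝ)) ^ (67 / 250 : ℝ) < 14 ^ (67 / 250 : ℝ) :=
        Real.rpow_lt_rpow (by positivity) h2 (by norm_num)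
      rw [← Real.rpow_mul (by norm_num)] at h3
      norm_num at h3
      exact h3
    have h2 : (14 : ℝ) ^ (67 / 250 : ℝ) ≤ (b : ℝ) ^ (67 / 250 : ℝ) :=
      Real.rpow_le_rpow (by norm_num) hbR (by norm_num)
    have h3 : (b : ℝ) ^ (183 / 250 : ℝ) * (b : ℝ) ^ (67 / 250 : ℝ) = b := by
      rw [← Real.rpow_add hb0]
      norm_num
    have h4 : 0 < (b : ℝ) ^ (183 / 250 : ℝ) := by positivity
    calc (b : ℝ) ^ (183 / 250 : ℝ) * HH s t ≤ (b : ℝ) ^ (183 / 250 : ℝ) * (2 / b) :=
          mul_le_mul_of_nonneg_left hH h4.le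
      _ < 1 := by
          rw [← mul_div_assoc, div_lt_one hb0]
          calc (b : ℝ) ^ (183 / 250 : ℝ) * 2 < (b : ℝ) ^ (183 / 250 : ℝ) * (b : ℝ) ^ (67 / 250 : ℝ) :=
                mul_lt_mul_of_pos_left (h1.trans_le h2) h4
            _ = b := h3

lemma kap3 {b s t : ℕ} (hb : 3 ≤ b) (hb8 : b ≤ 8) (hs : s = (b + 1) / 2) (ht : t = b + 1 - s) :
    (b : ℝ) ^ (63 / 100 : ℝ) * HH s t < 1 := by
  interval_cases b
  · subst hs
    norm_num at ht
    subst ht
    have h1 : ((3 : ℕ) : ℝ) ^ (63 / 100 : ℝ) < 2 :=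
      rpow_lt_of_pow (p := 63) (q := 100) (by norm_num) (by norm_num) (by norm_num) (by norm_num) (by norm_num)
    unfold HH
    norm_num at h1 ⊢
    linarith
  · subst hs
    norm_num at ht
    subst ht
    have h1 : ((4 : ℕ) : ℝ) ^ (63 / 100 : ℝ) < 12 / 5 :=
      rpow_lt_of_pow (p := 63) (q := 100) (by norm_num) (by norm_num) (by norm_num) (by norm_num) (by norm_num)
    unfold HH
    norm_num at h1 ⊢
    linarith
  · subst hs
    norm_num at ht
    subst ht
    have h1 : ((5 : ℕ) : ℝ) ^ (63 / 100 : ℝ) < 3 :=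
      rpow_lt_of_pow (p := 63) (q := 100) (by norm_num) (by norm_num) (by norm_num) (by norm_num) (by norm_num)
    unfold HH
    norm_num at h1 ⊢
    linarith
  · subst hs
    norm_num at ht
    subst ht
    have h1 : ((6 : ℕ) : ℝ) ^ (63 / 100 : ℝ) < 24 / 7 :=
      rpow_lt_of_pow (p := 63) (q := 100) (by norm_num) (by norm_num) (by norm_num) (by norm_num) (by norm_num)
    unfold HH
    norm_num at h1 ⊢
    linarith
  · subst hs
    norm_num at ht
    subst ht
    have h1 : ((7 : ℕ) : ℝ) ^ (63 / 100 : ℝ) < 4 :=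
      rpow_lt_of_pow (p := 63) (q := 100) (by norm_num) (by norm_num) (by norm_num) (by norm_num) (by norm_num)
    unfold HH
    norm_num at h1 ⊢
    linarith
  · subst hs
    norm_num at ht
    subst ht
    have h1 : ((8 : ℕ) : ℝ) ^ (63 / 100 : ℝ) < 40 / 9 :=
      rpow_lt_of_pow (p := 63) (q := 100) (by norm_num) (by norm_num) (by norm_num) (by norm_num) (by norm_num)
    unfold HH
    norm_num at h1 ⊢
    linarith

open Classical in
/-- the final statement for `b ≥ 3` -/
theorem fin3 {b : ℕ} (hb : 3 ≤ b) : ∀ᶠ N : ℕ in atTop, (3 * (b : ℝ) / 4) ^ N ≤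
    (((range (b ^ (2 * N + 1))).filter (fun n => b ^ (2 * N) ≤ n ∧
      (Nat.digits b n).reverse = Nat.digits b n ∧
      n.primeFactorsList.length ≤ (if 9 ≤ b then 3 else if 3 ≤ b then 4 else 5) ∧
      ∀ p ∈ n.primeFactorsList, (b : ℝ) ^ ((1 / 13) * (N : ℝ)) < p)).card : ℝ) := by
  set s := (b + 1) / 2 with hs
  set t := b + 1 - s with ht
  have hm4 : (b : ℝ) * m4 s t < 1 := by
    have h := Pool.Agent.W22.PWM4.main b hb
    rw [← hs, ← ht] at h
    linarith
  have hE := energy_bound hb hs ht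
  have hbR : (3 : ℝ) ≤ b := by exact_mod_cast hb
  rcases lt_or_ge b 9 with h9 | h9
  · have h := almostN (b := b) (s := s) (t := t) (r := 4) (κ := 63 / 100) (lam := 84 / 100)
      (B := 3 * (b : ℝ) / 4) (η := 1 / 13) hb (by omega) (by omega) (by omega) (by norm_num)
      (kap3 hb (by omega) hs ht) hm4 (by norm_num) (by norm_num) (by norm_num) (by norm_num) (by linarith) hE
      (by norm_num)
    rw [if_neg (by omega), if_pos hb]
    exact h
  · have h := almostN (b := b) (s := s) (t := t) (r := 3) (κ := 183 / 250) (lam := 84 / 100)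
      (B := 3 * (b : ℝ) / 4) (η := 1 / 13) hb (by omega) (by omega) (by omega) (by norm_num)
      (kap9 h9 hs ht) hm4 (by norm_num) (by norm_num) (by norm_num) (by norm_num) (by linarith) hE
      (by norm_num)
    rw [if_pos h9]
    exact h

end Pool.Agent.W139.PX
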