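import Mathlib
import Pool.Agent.W89.PW.Defs
import Pool.Agent.W139.PW.B1

/-!
# Majorants for the products over the digits: the alternating majorant and the Fejér majorant
-/

set_option autoImplicit false

namespace Pool.Agent.W139.PX

open Finset Pool.Agent.Helper112 Pool.Agent.W89.PW
open Pool.Agent.H39R3.PB (ph pts apts ph_nonneg ph_le_one pts_mono pts_le_apts pts_add pts_mul_left)
open Pool.Agent.H39R3.PS (EM)
open Pool.Agent.W139.PW (MxOK Mx MajOK sq_sum_ee digs NB NB_inj NB_le PS_eq PS card_digs apts_sq apts_Mx apts_mul_left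
  apts_sum Mx_nonneg)

/-! ### square moduli -/

/-- sum over the square moduli -/
lemma sum_sq_moduli {ι : Type*} [DecidableEq ι] (S : Finset ι) (N : ι → ℕ) (M R P : ℕ) (T : ℝ) (hT0 : 0 ≤ T)
    (hP : 1 ≤ P)
    (hinj : ∀ m ∈ S, ∀ m' ∈ S, N m = N m' → m = m') (hle : ∀ m ∈ S, N m ≤ R)
    (hT : ∀ n : ℕ, 1 ≤ n → n ≤ R → (n.divisors.card : ℝ) ≤ T) :
    ∑ q ∈ (Ico P (2 * P)).filter (fun q => q.Coprime M),
      (∑ a ∈ range (q ^ 2), ‖∑ m ∈ S, ee ((N m : ℝ) * ((a : ℝ) / ((q ^ 2 : ℕ) : ℝ)))‖ ^ 2) /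
        ((q ^ 2 : ℕ) : ℝ) ≤ P * S.card + T * (S.card : ℝ) ^ 2 := by
  have h1 : ∑ q ∈ (Ico P (2 * P)).filter (fun q => q.Coprime M),
      (∑ a ∈ range (q ^ 2), ‖∑ m ∈ S, ee ((N m : ℝ) * ((a : ℝ) / ((q ^ 2 : ℕ) : ℝ)))‖ ^ 2) /
        ((q ^ 2 : ℕ) : ℝ) =
      ∑ p ∈ S ×ˢ S, ∑ q ∈ (Ico P (2 * P)).filter (fun q => q.Coprime M),
        if ((q ^ 2 : ℕ) : ℤ) ∣ ((N p.1 : ℤ) - N p.2) then (1 : ℝ) else 0 := by
    rw [sum_comm]
    apply sum_congr rfl
    intro q hq
    rw [mem_filter, mem_Ico] at hq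
    have hq1 : 0 < q ^ 2 := pow_pos (by omega) 2
    have hq2 : ((q ^ 2 : ℕ) : ℝ) ≠ 0 := by exact_mod_cast hq1.ne'
    rw [sq_sum_ee S N (q ^ 2) hq1, sum_div]
    apply sum_congr rfl
    intro p _
    split_ifs
    · exact div_self hq2
    · simp
  rw [h1]
  have h2 : ∀ p ∈ S ×ˢ S, ∑ q ∈ (Ico P (2 * P)).filter (fun q => q.Coprime M),
        (if ((q ^ 2 : ℕ) : ℤ) ∣ ((N p.1 : ℤ) - N p.2) then (1 : ℝ) else 0) ≤
      (if p.1 = p.2 then (P : ℝ) else 0) + T := by
    intro p hp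
    rw [mem_product] at hp
    split_ifs with h
    · have h3 : ∑ q ∈ (Ico P (2 * P)).filter (fun q => q.Coprime M),
          (if ((q ^ 2 : ℕ) : ℤ) ∣ ((N p.1 : ℤ) - N p.2) then (1 : ℝ) else 0) ≤ P := by
        calc ∑ q ∈ (Ico P (2 * P)).filter (fun q => q.Coprime M),
          (if ((q ^ 2 : ℕ) : ℤ) ∣ ((N p.1 : ℤ) - N p.2) then (1 : ℝ) else 0)
            ≤ ∑ q ∈ (Ico P (2 * P)).filter (fun q => q.Coprime M), (1 : ℝ) := by
              apply sum_le_sum
              intro q _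
              split_ifs <;> norm_num
          _ ≤ ∑ q ∈ Ico P (2 * P), (1 : ℝ) :=
              sum_le_sum_of_subset_of_nonneg (filter_subset _ _) (fun _ _ _ => by positivity)
          _ = P := by
              rw [sum_const, Nat.card_Ico, nsmul_eq_mul]
              have : 2 * P - P = P := by omega
              rw [this]
              ring
      linarith
    · have hne : N p.1 ≠ N p.2 := fun h' => h (hinj _ hp.1 _ hp.2 h')
      set n := ((N p.1 : ℤ) - N p.2).natAbs with hn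
      have hn1 : 1 ≤ n := by omega
      have hle1 := hle _ hp.1
      have hle2 := hle _ hp.2
      have hn2 : n ≤ R := by omega
      have hdiv := hT n hn1 hn2
      rw [zero_add]
      calc ∑ q ∈ (Ico P (2 * P)).filter (fun q => q.Coprime M),
          (if ((q ^ 2 : ℕ) : ℤ) ∣ ((N p.1 : ℤ) - N p.2) then (1 : ℝ) else 0)
          ≤ ∑ q ∈ Ico P (2 * P), (if q ∣ n then (1 : ℝ) else 0) := by
            refine (sum_le_sum_of_subset_of_nonneg (filter_subset _ _)
              (fun _ _ _ => by positivity)).trans ?_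
            apply sum_le_sum
            intro q _
            have h3 : (((q ^ 2 : ℕ) : ℤ) ∣ ((N p.1 : ℤ) - N p.2)) → q ∣ n := by
              intro h4
              rw [Int.natCast_dvd] at h4
              exact (dvd_pow_self q two_ne_zero).trans h4
            split_ifs with h5 h6
            · exact le_rfl
            · exact absurd (h3 h5) h6
            · norm_num
            · exact le_rfl
        _ = ((Ico P (2 * P)).filter (fun q => q ∣ n)).card := by
            rw [← sum_filter, sum_const, nsmul_eq_mul, mul_one]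
        _ ≤ (n.divisors.card : ℝ) := by
            have : (Ico P (2 * P)).filter (fun q => q ∣ n) ⊆ n.divisors := by
              intro q hq
              rw [mem_filter] at hq
              exact Nat.mem_divisors.2 ⟨hq.2, by omega⟩
            exact_mod_cast card_le_card this
        _ ≤ T := hdiv
  refine (sum_le_sum h2).trans (le_of_eq ?_)
  rw [sum_add_distrib, sum_const, card_product, nsmul_eq_mul, sum_product]
  have h3 : ∑ x ∈ S, ∑ y ∈ S, (if (x, y).1 = (x, y).2 then (P : ℝ) else 0) = S.card * P := by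
    rw [sum_congr rfl (g := fun _ => (P : ℝ))]
    · rw [sum_const, nsmul_eq_mul]
    · intro x hx
      simp only
      rw [sum_ite_eq, if_pos hx]
  rw [h3]
  push_cast
  ring

/-- second moment of a product over any set of positions, square moduli -/
theorem EM_sq {b : ℕ} (hb : 2 ≤ b) (L P : ℕ) (T : ℝ) (B : Finset ℕ) (hB : B ⊆ range L) (s : ℕ → ℕ)
    (hs : ∀ c ∈ B, s c ≤ b) (hs1 : ∀ c ∈ B, 1 ≤ s c) (hP : 1 ≤ P)
    (hT : ∀ n : ℕ, 1 ≤ n → n ≤ b ^ (2 * L + 1) → (n.divisors.card : ℝ) ≤ T) :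
    ∑ m ∈ (Ico P (2 * P)).filter (fun m => m.Coprime (2 * b)),
      EM (m ^ 2) (fun α => ∏ c ∈ B, ph (s c) (Pool.Agent.H39R3.PB.fr b L c * α) ^ 2) ≤
      P * ∏ c ∈ B, (1 / (s c : ℝ)) + T := by
  classical
  have hT0 : 0 ≤ T := by
    have := hT 1 le_rfl (Nat.one_le_pow _ _ (by omega))
    refine le_trans ?_ this
    positivity
  set D : ℝ := ∏ c ∈ B, (s c : ℝ) with hD
  have hD0 : 0 < D := by
    apply prod_pos
    intro c hc
    exact_mod_cast hs1 c hc
  have h1 : ∑ m ∈ (Ico P (2 * P)).filter (fun m => m.Coprime (2 * b)),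
      EM (m ^ 2) (fun α => ∏ c ∈ B, ph (s c) (Pool.Agent.H39R3.PB.fr b L c * α) ^ 2) =
      (∑ q ∈ (Ico P (2 * P)).filter (fun q => q.Coprime (2 * b)),
      (∑ a ∈ range (q ^ 2), ‖∑ m ∈ digs B s, ee ((NB b L B m : ℝ) * ((a : ℝ) / ((q ^ 2 : ℕ) : ℝ)))‖ ^ 2) /
        ((q ^ 2 : ℕ) : ℝ)) / D ^ 2 := by
    rw [sum_div]
    apply sum_congr rfl
    intro q _
    unfold EM
    rw [div_right_comm]
    congr 1
    rw [sum_div]
    apply sum_congr rfl
    intro a _
    beta_reduce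
    rw [prod_pow]
    have := PS_eq b L B s ((a : ℝ) / ((q ^ 2 : ℕ) : ℝ))
    unfold PS at this
    rw [this, div_pow]
  rw [h1, div_le_iff₀ (by positivity)]
  refine (sum_sq_moduli (digs B s) (NB b L B) (2 * b) (b ^ (2 * L + 1)) P T hT0 hP
    (fun m hm m' hm' h => NB_inj hb L hB s hs m m' hm hm' h)
    (fun m hm => NB_le hb L hB s hs m hm) hT).trans (le_of_eq ?_)
  rw [card_digs]
  push_cast
  rw [← hD]
  have h2 : ∏ c ∈ B, (1 / (s c : ℝ)) = 1 / D := by
    rw [prod_div_distrib, prod_const_one]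
  rw [h2]
  field_simp

lemma EM_mul_left (M : ℕ) (c : ℝ) (f : ℝ → ℝ) : EM M (fun x => c * f x) = c * EM M f := by
  unfold EM
  rw [← mul_sum, mul_div_assoc]

lemma EM_sum' (M : ℕ) {ι : Type*} (s : Finset ι) (f : ι → ℝ → ℝ) :
    EM M (fun x => ∑ i ∈ s, f i x) = ∑ i ∈ s, EM M (f i) := by
  unfold EM
  rw [sum_comm, sum_div]

/-- complete sums of products of majorants, square moduli -/
theorem EM_Mx {b : ℕ} (hb : 2 ≤ b) (L P : ℕ) (T : ℝ) (B : Finset ℕ) (hB : B ⊆ range L) (hP : 1 ≤ P)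
    (I : ℕ → Finset ℕ) (g : ℕ → ℕ → ℝ) (s : ℕ → ℕ → ℕ) (μ : ℕ → ℝ) (hM : ∀ c ∈ B, MxOK b (I c) (g c) (s c) (μ c))
    (hT : ∀ n : ℕ, 1 ≤ n → n ≤ b ^ (2 * L + 1) → (n.divisors.card : ℝ) ≤ T) :
    ∑ m ∈ (Ico P (2 * P)).filter (fun m => m.Coprime (2 * b)),
      EM (m ^ 2) (fun α => ∏ c ∈ B, Mx (I c) (g c) (s c) (Pool.Agent.H39R3.PB.fr b L c * α)) ≤
      P * ∏ c ∈ B, μ c + T := by
  classical
  have hT0 : 0 ≤ T := by
    have := hT 1 le_rfl (Nat.one_le_pow _ _ (by omega))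
    refine le_trans ?_ this
    positivity
  have h1 : (fun α : ℝ => ∏ c ∈ B, Mx (I c) (g c) (s c) (Pool.Agent.H39R3.PB.fr b L c * α)) = fun α =>
      ∑ p ∈ B.pi I, (∏ x ∈ B.attach, g x.1 (p x.1 x.2)) *
        ∏ c ∈ B, ph (if h : c ∈ B then s c (p c h) else 1) (Pool.Agent.H39R3.PB.fr b L c * α) ^ 2 := by
    funext α
    unfold Mx
    rw [prod_sum]
    apply sum_congr rfl
    intro p _
    rw [prod_mul_distrib]
    congr 1
    rw [← prod_attach B (fun c => ph (if h : c ∈ B then s c (p c h) else 1)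
      (Pool.Agent.H39R3.PB.fr b L c * α) ^ 2)]
    apply prod_congr rfl
    intro x _
    rw [dif_pos x.2]
  rw [h1]
  simp only [EM_sum', EM_mul_left]
  rw [sum_comm]
  simp only [← mul_sum]
  have hg0 : ∀ p ∈ B.pi I, 0 ≤ ∏ x ∈ B.attach, g x.1 (p x.1 x.2) := by
    intro p hp
    apply prod_nonneg
    intro x _
    exact (hM x.1 x.2).1 _ (mem_pi.1 hp x.1 x.2)
  have h2 : ∀ p ∈ B.pi I, (∏ x ∈ B.attach, g x.1 (p x.1 x.2)) *
      ∑ m ∈ (Ico P (2 * P)).filter (fun m => m.Coprime (2 * b)), EM (m ^ 2) (fun α =>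
        ∏ c ∈ B, ph (if h : c ∈ B then s c (p c h) else 1) (Pool.Agent.H39R3.PB.fr b L c * α) ^ 2) ≤
      (∏ x ∈ B.attach, g x.1 (p x.1 x.2)) *
        (P * ∏ c ∈ B, (1 / ((if h : c ∈ B then s c (p c h) else 1 : ℕ) : ℝ)) + T) := by
    intro p hp
    apply mul_le_mul_of_nonneg_left _ (hg0 p hp)
    apply EM_sq hb L P T B hB (fun c => if h : c ∈ B then s c (p c h) else 1)
    · intro c hc
      rw [dif_pos hc]
      exact (hM c hc).2.2.1 _ (mem_pi.1 hp c hc)
    · intro c hc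
      rw [dif_pos hc]
      exact (hM c hc).2.1 _ (mem_pi.1 hp c hc)
    · exact hP
    · exact hT
  refine (sum_le_sum h2).trans ?_
  have h3 : ∑ p ∈ B.pi I, ∏ x ∈ B.attach, g x.1 (p x.1 x.2) = 1 := by
    rw [← prod_sum B I g]
    apply prod_eq_one
    intro c hc
    exact (hM c hc).2.2.2.1
  have h4 : ∑ p ∈ B.pi I, (∏ x ∈ B.attach, g x.1 (p x.1 x.2)) *
      ∏ c ∈ B, (1 / ((if h : c ∈ B then s c (p c h) else 1 : ℕ) : ℝ)) ≤ ∏ c ∈ B, μ c := by
    have h5 : ∑ p ∈ B.pi I, (∏ x ∈ B.attach, g x.1 (p x.1 x.2)) *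
      ∏ c ∈ B, (1 / ((if h : c ∈ B then s c (p c h) else 1 : ℕ) : ℝ)) =
        ∏ c ∈ B, ∑ i ∈ I c, g c i / s c i := by
      rw [prod_sum]
      apply sum_congr rfl
      intro p _
      rw [← prod_attach B (fun c => (1 / ((if h : c ∈ B then s c (p c h) else 1 : ℕ) : ℝ))),
        ← prod_mul_distrib]
      apply prod_congr rfl
      intro x _
      rw [dif_pos x.2]
      ring
    rw [h5]
    apply prod_le_prod
    · intro c hc
      exact sum_nonneg fun i hi => div_nonneg ((hM c hc).1 i hi) (Nat.cast_nonneg _)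
    · intro c hc
      exact (hM c hc).2.2.2.2
  have h6 : ∀ p ∈ B.pi I, (∏ x ∈ B.attach, g x.1 (p x.1 x.2)) *
        (P * ∏ c ∈ B, (1 / ((if h : c ∈ B then s c (p c h) else 1 : ℕ) : ℝ)) + T) =
      P * ((∏ x ∈ B.attach, g x.1 (p x.1 x.2)) *
        ∏ c ∈ B, (1 / ((if h : c ∈ B then s c (p c h) else 1 : ℕ) : ℝ))) +
      T * (∏ x ∈ B.attach, g x.1 (p x.1 x.2)) := by
    intro p _
    ring
  rw [sum_congr rfl h6, sum_add_distrib, ← mul_sum (f := fun p : (a : ℕ) → a ∈ B → ℕ =>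
    (∏ x ∈ B.attach, g x.1 (p x.1 x.2)) *
        ∏ c ∈ B, (1 / ((if h : c ∈ B then s c (p c h) else 1 : ℕ) : ℝ))),
    ← mul_sum (f := fun p : (a : ℕ) → a ∈ B → ℕ => ∏ x ∈ B.attach, g x.1 (p x.1 x.2)), h3]
  have h8 := mul_le_mul_of_nonneg_left h4 (Nat.cast_nonneg (α := ℝ) P)
  linarith

/-! ### the property used for the large range and the squares -/

/-- the positions outside the block number `i` of length `K` below `J` -/
def SS (L J K i : ℕ) : Finset ℕ := (range L).filter (fun c => ¬ (c < J ∧ c / K = i))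

/-- majorisation of the products over all positions outside a block, with constant `CM` and mean value `H` -/
def MajP (b s t : ℕ) (H CM : ℝ) : Prop := ∀ (L J K i : ℕ) (T : ℝ), 1 ≤ K →
  (∀ n : ℕ, 1 ≤ n → n ≤ b ^ (2 * L + 3) → (n.divisors.card : ℝ) ≤ T) →
  (∀ Q : ℕ, pts b Q (fun α => ∏ c ∈ SS L J K i, ps s t (fr b L c * α)) ≤ 2 * Q * (Q * (CM * H ^ (L - K)) + T)) ∧
  (∀ P : ℕ, 1 ≤ P → ∑ m ∈ (Ico P (2 * P)).filter (fun m => m.Coprime (2 * b)),
    EM (m ^ 2) (fun α => ∏ c ∈ SS L J K i, ps s t (fr b L c * α)) ≤ P * (CM * H ^ (L - K)) + T)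

lemma EM_mono (M : ℕ) (F G : ℝ → ℝ) (h : ∀ x, F x ≤ G x) : EM M F ≤ EM M G := by
  unfold EM
  exact div_le_div_of_nonneg_right (Finset.sum_le_sum fun a _ => h _) (Nat.cast_nonneg _)

/-- shifting the positions by one -/
lemma prod_shift {b : ℕ} (L : ℕ) (B : Finset ℕ) (f : ℕ → ℝ → ℝ) (α : ℝ) :
    ∏ c ∈ B, f c (fr b L c * α) =
      ∏ c ∈ B.map (addRightEmbedding 1), f (c - 1) (Pool.Agent.H39R3.PB.fr b (L + 1) c * α) := by
  rw [prod_map]
  apply prod_congr rfl
  intro c _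
  simp only [addRightEmbedding_apply, Nat.add_sub_cancel]
  rw [fr_eq]

lemma prod_shift' (B : Finset ℕ) (f : ℕ → ℝ) :
    ∏ c ∈ B.map (addRightEmbedding 1), f (c - 1) = ∏ c ∈ B, f c := by
  rw [prod_map]
  apply prod_congr rfl
  intro c _
  simp only [addRightEmbedding_apply, Nat.add_sub_cancel]

lemma map_sub (L : ℕ) (B : Finset ℕ) (hB : B ⊆ range L) : B.map (addRightEmbedding 1) ⊆ range (L + 1) := by
  intro c hc
  rw [mem_map] at hc
  obtain ⟨a, ha, rfl⟩ := hc
  have := mem_range.1 (hB ha)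
  rw [mem_range]
  simp only [addRightEmbedding_apply]
  omega

lemma SS_sub (L J K i : ℕ) : SS L J K i ⊆ range L := filter_subset _ _

lemma card_SS (L J K i : ℕ) (hK : 1 ≤ K) : L - K ≤ (SS L J K i).card := by
  unfold SS
  have h1 : ((range L).filter (fun c => c < J ∧ c / K = i)).card ≤ K := by
    calc ((range L).filter (fun c => c < J ∧ c / K = i)).card ≤ (Ico (i * K) (i * K + K)).card := by
          apply card_le_card
          intro c hc
          rw [mem_filter] at hc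
          rw [mem_Ico]
          have h2 := Nat.div_add_mod c K
          have h3 := Nat.mod_lt c (show 0 < K by omega)
          rw [hc.2.2] at h2
          have h4 : i * K = K * i := mul_comm _ _
          constructor
          · omega
          · omega
      _ = K := by simp
  have h2 := card_filter_add_card_filter_not (s := range L) (fun c => c < J ∧ c / K = i)
  rw [card_range] at h2
  omega

/-- Fejér type majorants of a single digit sum give `MajP` -/
theorem majP_of_majOK {b s t : ℕ} (hb : 2 ≤ b) {μ : ℝ} (h0 : 0 ≤ μ) (h1 : μ ≤ 1) (h : MajOK b s t μ) :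
    MajP b s t μ 1 := by
  obtain ⟨I, g, sz, hOK, hmaj⟩ := h
  intro L J K i T hK hT
  have hT' : ∀ n : ℕ, 1 ≤ n → n ≤ b ^ (2 * (L + 1) + 1) → (n.divisors.card : ℝ) ≤ T := by
    intro n h1 h2
    exact hT n h1 (by rwa [show 2 * (L + 1) + 1 = 2 * L + 3 by ring] at h2)
  set B := SS L J K i with hB
  have hBL : B ⊆ range L := SS_sub _ _ _ _
  have hpt : ∀ α : ℝ, ∏ c ∈ B, ps s t (fr b L c * α) ≤
      ∏ c ∈ B.map (addRightEmbedding 1), Mx I g sz (Pool.Agent.H39R3.PB.fr b (L + 1) c * α) := by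
    intro α
    rw [← prod_shift L B (fun _ x => Mx I g sz x) α]
    apply prod_le_prod
    · intro c _
      exact mul_nonneg (ph_nonneg _ _) (ph_nonneg _ _)
    · intro c _
      exact hmaj _
  have hμ : ∏ c ∈ B.map (addRightEmbedding 1), μ ≤ 1 * μ ^ (L - K) := by
    rw [prod_const, card_map, one_mul]
    exact pow_le_pow_of_le_one h0 h1 (card_SS L J K i hK)
  constructor
  · intro Q
    refine (pts_mono hpt).trans ((pts_le_apts (fun α => prod_nonneg fun c _ => Mx_nonneg hOK _)).trans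
      ((apts_Mx hb (L + 1) Q T _ (map_sub L B hBL) (fun _ => I) (fun _ => g) (fun _ => sz) (fun _ => μ)
        (fun _ _ => hOK) hT').trans ?_))
    gcongr
  · intro P hP
    refine (sum_le_sum fun m _ => EM_mono _ _ _ hpt).trans
      ((EM_Mx hb (L + 1) P T _ (map_sub L B hBL) hP (fun _ => I) (fun _ => g) (fun _ => sz) (fun _ => μ)
        (fun _ _ => hOK) hT').trans ?_)
    gcongr

/-! ### the alternating majorant -/

/-- alternating sizes -/
def alt (s t c : ℕ) : ℕ := if c % 2 = 0 then s else t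

lemma prod_alt_le (s t L J K i : ℕ) (hs : 1 ≤ s) (ht : 1 ≤ t) (hK : 1 ≤ K) :
    ∃ n : ℕ, L - K ≤ 2 * n + 3 ∧ ∏ c ∈ SS L J K i, (1 / (alt s t c : ℝ)) ≤ (1 / ((s : ℝ) * t)) ^ n := by
  classical
  set P := (range (L / 2)).filter (fun j => 2 * j ∈ SS L J K i ∧ 2 * j + 1 ∈ SS L J K i) with hP
  have halt : ∀ c, 1 ≤ alt s t c := fun c => by unfold alt; split_ifs <;> assumption
  have hf0 : ∀ c, 0 ≤ 1 / (alt s t c : ℝ) := fun c => by positivity
  have hf1 : ∀ c, 1 / (alt s t c : ℝ) ≤ 1 := by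
    intro c
    have h1 : (1 : ℝ) ≤ alt s t c := by exact_mod_cast halt c
    rw [div_le_one (by linarith)]
    exact h1
  refine ⟨P.card, ?_, ?_⟩
  · have h1 : ((range (L / 2)).filter (fun j => ¬ (2 * j ∈ SS L J K i ∧ 2 * j + 1 ∈ SS L J K i))).card ≤
        K / 2 + 1 := by
      have hsub : (range (L / 2)).filter (fun j => ¬ (2 * j ∈ SS L J K i ∧ 2 * j + 1 ∈ SS L J K i)) ⊆
          Icc (i * K / 2) ((i * K + K - 1) / 2) := by
        intro j hj
        rw [mem_filter, mem_range] at hj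
        obtain ⟨hj1, hj2⟩ := hj
        have key : ∀ c, c < L → ¬ c ∈ SS L J K i → i * K ≤ c ∧ c < i * K + K := by
          intro c hc h
          unfold SS at h
          rw [mem_filter, mem_range] at h
          have h3 : c < J ∧ c / K = i := by
            by_contra hcon
            exact h ⟨hc, hcon⟩
          have h4 := Nat.div_add_mod c K
          have h5 := Nat.mod_lt c (show 0 < K by omega)
          rw [h3.2] at h4
          have h6 : i * K = K * i := mul_comm _ _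
          constructor
          · omega
          · omega
        rw [mem_Icc]
        have hor : ¬ (2 * j ∈ SS L J K i) ∨ ¬ (2 * j + 1 ∈ SS L J K i) := by
          by_contra hcon
          push Not at hcon
          exact hj2 hcon
        rcases hor with h | h
        · have := key (2 * j) (by omega) h
          constructor <;> omega
        · have := key (2 * j + 1) (by omega) h
          constructor <;> omega
      refine (card_le_card hsub).trans ?_
      rw [Nat.card_Icc]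
      generalize i * K = y
      omega
    have h2 := card_filter_add_card_filter_not (s := range (L / 2))
      (fun j => 2 * j ∈ SS L J K i ∧ 2 * j + 1 ∈ SS L J K i)
    rw [card_range, ← hP] at h2
    omega
  · set U := (P ×ˢ range 2).image (fun p => 2 * p.1 + p.2) with hU
    have hUS : U ⊆ SS L J K i := by
      intro c hc
      rw [hU, mem_image] at hc
      obtain ⟨⟨j, e⟩, hp, rfl⟩ := hc
      rw [mem_product, hP, mem_filter] at hp
      simp only [mem_range] at hp ⊢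
      obtain ⟨⟨_, h1, h2⟩, he⟩ := hp
      interval_cases e
      · simpa using h1
      · exact h2
    have hinj : Set.InjOn (fun p : ℕ × ℕ => 2 * p.1 + p.2) ((P ×ˢ range 2 : Finset (ℕ × ℕ)) : Set (ℕ × ℕ)) := by
      rintro ⟨j, e⟩ h1 ⟨j', e'⟩ h2 h
      rw [mem_coe, mem_product, mem_range] at h1 h2
      simp only at h1 h2 h
      have h3 := h1.2
      have h4 := h2.2
      rw [Prod.mk.injEq]
      omega
    have hprod : ∏ c ∈ U, (1 / (alt s t c : ℝ)) = (1 / ((s : ℝ) * t)) ^ P.card := by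
      rw [hU, prod_image hinj, prod_product, ← prod_const]
      apply prod_congr rfl
      intro j _
      rw [prod_range_succ, prod_range_one]
      simp only
      have e1 : alt s t (2 * j + 0) = s := by unfold alt; rw [if_pos (by omega)]
      have e2 : alt s t (2 * j + 1) = t := by unfold alt; rw [if_neg (by omega)]
      rw [e1, e2]
      field_simp
    rw [← prod_sdiff hUS, hprod]
    have h5 : ∏ c ∈ SS L J K i \ U, (1 / (alt s t c : ℝ)) ≤ 1 :=
      prod_le_one (fun c _ => hf0 c) (fun c _ => hf1 c)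
    calc _ ≤ 1 * (1 / ((s : ℝ) * t)) ^ P.card := mul_le_mul_of_nonneg_right h5 (by positivity)
      _ = _ := one_mul _

/-- the alternating majorant: mean value `1 / sqrt (s t)` -/
theorem majP_alt {b s t : ℕ} (hb : 2 ≤ b) (hs : 1 ≤ s) (ht : 1 ≤ t) (hsb : s ≤ b) (htb : t ≤ b) {H : ℝ}
    (hH0 : 0 < H) (hH1 : H ≤ 1) (hH : H ^ 2 = 1 / ((s : ℝ) * t)) : MajP b s t H (1 / H ^ 3) := by
  intro L J K i T hK hT
  have hT' : ∀ n : ℕ, 1 ≤ n → n ≤ b ^ (2 * (L + 1) + 1) → (n.divisors.card : ℝ) ≤ T := by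
    intro n h1 h2
    exact hT n h1 (by rwa [show 2 * (L + 1) + 1 = 2 * L + 3 by ring] at h2)
  set B := SS L J K i with hB
  have hBL : B ⊆ range L := SS_sub _ _ _ _
  set B' := B.map (addRightEmbedding 1) with hB'
  have hB'L := map_sub L B hBL
  -- sizes
  have halt1 : ∀ s t : ℕ, 1 ≤ s → 1 ≤ t → ∀ c, 1 ≤ alt s t c := by
    intro s t hs ht c
    unfold alt
    split_ifs <;> assumption
  have halt2 : ∀ s t : ℕ, s ≤ b → t ≤ b → ∀ c, alt s t c ≤ b := by
    intro s t hs ht c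
    unfold alt
    split_ifs <;> assumption
  -- product bounds
  have hpb : ∀ s t : ℕ, 1 ≤ s → 1 ≤ t → H ^ 2 = 1 / ((s : ℝ) * t) →
      ∏ c ∈ B', (1 / ((alt s t (c - 1) : ℕ) : ℝ)) ≤ 1 / H ^ 3 * H ^ (L - K) := by
    intro s t hs ht hH
    rw [hB', prod_shift' B (fun c => (1 / (alt s t c : ℝ)))]
    obtain ⟨n, hn1, hn2⟩ := prod_alt_le s t L J K i hs ht hK
    refine hn2.trans ?_
    rw [← hH, ← pow_mul]
    have h1 : H ^ (2 * n + 3) ≤ H ^ (L - K) := pow_le_pow_of_le_one hH0.le hH1 hn1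
    rw [div_mul_eq_mul_div, one_mul, le_div_iff₀ (by positivity), ← pow_add]
    exact h1
  have hp1 := hpb s t hs ht hH
  have hp2 := hpb t s ht hs (by rw [hH, mul_comm])
  have hpt : ∀ α : ℝ, ∏ c ∈ B, ps s t (fr b L c * α) ≤
      (1 / 2) * ∏ c ∈ B', ph (alt s t (c - 1)) (Pool.Agent.H39R3.PB.fr b (L + 1) c * α) ^ 2 +
      (1 / 2) * ∏ c ∈ B', ph (alt t s (c - 1)) (Pool.Agent.H39R3.PB.fr b (L + 1) c * α) ^ 2 := by
    intro α
    have e1 : ∏ c ∈ B, ps s t (fr b L c * α) =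
        (∏ c ∈ B', ph (alt s t (c - 1)) (Pool.Agent.H39R3.PB.fr b (L + 1) c * α)) *
        ∏ c ∈ B', ph (alt t s (c - 1)) (Pool.Agent.H39R3.PB.fr b (L + 1) c * α) := by
      rw [← prod_mul_distrib, hB', ← prod_shift L B (fun c x => ph (alt s t c) x * ph (alt t s c) x) α]
      apply prod_congr rfl
      intro c _
      unfold ps alt
      split_ifs
      · rfl
      · rw [mul_comm]
    rw [e1, prod_pow, prod_pow]
    nlinarith [sq_nonneg ((∏ c ∈ B', ph (alt s t (c - 1)) (Pool.Agent.H39R3.PB.fr b (L + 1) c * α)) -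
      ∏ c ∈ B', ph (alt t s (c - 1)) (Pool.Agent.H39R3.PB.fr b (L + 1) c * α))]
  constructor
  · intro Q
    have h1 := apts_sq hb (L + 1) Q T B' hB'L (fun c => alt s t (c - 1)) (fun c _ => halt2 s t hsb htb _)
      (fun c _ => halt1 s t hs ht _) hT'
    have h2 := apts_sq hb (L + 1) Q T B' hB'L (fun c => alt t s (c - 1)) (fun c _ => halt2 t s htb hsb _)
      (fun c _ => halt1 t s ht hs _) hT'
    have hpos : ∀ (s : ℕ → ℕ) (α : ℝ), 0 ≤ ∏ c ∈ B', ph (s c) (Pool.Agent.H39R3.PB.fr b (L + 1) c * α) ^ 2 :=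
      fun s α => prod_nonneg fun _ _ => sq_nonneg _
    refine (pts_mono hpt).trans ?_
    rw [pts_add, pts_mul_left, pts_mul_left]
    have h3 := (pts_le_apts (b := b) (Q := Q) (hpos (fun c => alt s t (c - 1)))).trans h1
    have h4 := (pts_le_apts (b := b) (Q := Q) (hpos (fun c => alt t s (c - 1)))).trans h2
    have h5 : 2 * (Q : ℝ) * (Q * ∏ c ∈ B', (1 / ((alt s t (c - 1) : ℕ) : ℝ)) + T) ≤
        2 * Q * (Q * (1 / H ^ 3 * H ^ (L - K)) + T) := by gcongr
    have h6 : 2 * (Q : ℝ) * (Q * ∏ c ∈ B', (1 / ((alt t s (c - 1) : ℕ) : ℝ)) + T) ≤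
        2 * Q * (Q * (1 / H ^ 3 * H ^ (L - K)) + T) := by gcongr
    linarith
  · intro P hP
    have h1 := EM_sq hb (L + 1) P T B' hB'L (fun c => alt s t (c - 1)) (fun c _ => halt2 s t hsb htb _)
      (fun c _ => halt1 s t hs ht _) hP hT'
    have h2 := EM_sq hb (L + 1) P T B' hB'L (fun c => alt t s (c - 1)) (fun c _ => halt2 t s htb hsb _)
      (fun c _ => halt1 t s ht hs _) hP hT'
    refine (sum_le_sum fun m _ => EM_mono _ _ _ hpt).trans ?_
    have e1 : ∀ m : ℕ, EM (m ^ 2) (fun α =>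
        (1 / 2) * ∏ c ∈ B', ph (alt s t (c - 1)) (Pool.Agent.H39R3.PB.fr b (L + 1) c * α) ^ 2 +
        (1 / 2) * ∏ c ∈ B', ph (alt t s (c - 1)) (Pool.Agent.H39R3.PB.fr b (L + 1) c * α) ^ 2) =
        (1 / 2) * EM (m ^ 2) (fun α =>
          ∏ c ∈ B', ph (alt s t (c - 1)) (Pool.Agent.H39R3.PB.fr b (L + 1) c * α) ^ 2) +
        (1 / 2) * EM (m ^ 2) (fun α =>
          ∏ c ∈ B', ph (alt t s (c - 1)) (Pool.Agent.H39R3.PB.fr b (L + 1) c * α) ^ 2) := by
      intro m
      unfold EM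
      rw [sum_add_distrib, ← mul_sum, ← mul_sum]
      ring
    simp only [e1]
    rw [sum_add_distrib, ← mul_sum, ← mul_sum]
    have h5 : (P : ℝ) * ∏ c ∈ B', (1 / ((alt s t (c - 1) : ℕ) : ℝ)) + T ≤
        P * (1 / H ^ 3 * H ^ (L - K)) + T := by gcongr
    have h6 : (P : ℝ) * ∏ c ∈ B', (1 / ((alt t s (c - 1) : ℕ) : ℝ)) + T ≤
        P * (1 / H ^ 3 * H ^ (L - K)) + T := by gcongr
    linarith

end Pool.Agent.W139.PX
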