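import Pool.Agent.W139.PX.D1
import Pool.Agent.W822.PW_Big
import Pool.Agent.W342.PW2

/-!
# The sum over the fractions with denominators `Q ≤ q < 2 Q` from a majorant

Adaptation of `Pool.Agent.W822.PW_Big` (helper822) to general majorants and `b ≥ 2`.
-/

set_option autoImplicit false

namespace Pool.Agent.W139.PX

open Finset Filter Topology Pool.Agent.Helper112 Pool.Agent.W89.PW Pool.Agent.W822.PWBig
open Pool.Agent.H39R3.PB (ph pts apts ph_nonneg ph_le_one ph_add_int pts_nonneg pts_mono pts_le_apts pts_add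
  pts_mul_left pts_sum dilate coprime_b fr_scale)

variable {b s t : ℕ}

/-- pointwise splitting -/
theorem split' (L J k K : ℕ) (lam : ℝ) (h0 : 0 < lam) (hJ : J ≤ k * K) (hJL : J ≤ L) (α : ℝ) :
    Fw b s t L L α ≤ (∑ i ∈ range k, lam * ∏ c ∈ SS L J K i,
      ps s t (fr b L c * α)) + (lam ^ (3 * k))⁻¹ * Fw b s t L J α ^ 4 := by
  set x : ℕ → ℝ := fun i => ∏ c ∈ (range L).filter (fun c => c < J ∧ c / K = i), ps s t (fr b L c * α) with hx
  have hx0 : ∀ i, 0 ≤ x i := fun i => prod_nonneg fun _ _ => ps_nonneg _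
  have hnn : ∀ i ∈ range k, 0 ≤ lam * ∏ c ∈ SS L J K i,
      ps s t (fr b L c * α) := fun i _ => mul_nonneg h0.le (prod_nonneg fun _ _ => ps_nonneg _)
  have hlast : 0 ≤ (lam ^ (3 * k))⁻¹ * Fw b s t L J α ^ 4 := by
    have := Fw_nonneg (b := b) (s := s) (t := t) L J α
    positivity
  by_cases hc : ∃ i ∈ range k, x i ≤ lam
  · obtain ⟨i, hi, hxi⟩ := hc
    have e1 : Fw b s t L L α = x i * ∏ c ∈ SS L J K i, ps s t (fr b L c * α) := by
      rw [hx]
      exact (prod_filter_mul_prod_filter_not (range L) (fun c => c < J ∧ c / K = i) _).symm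
    have e2 : Fw b s t L L α ≤ lam * ∏ c ∈ SS L J K i, ps s t (fr b L c * α) := by
      rw [e1]
      exact mul_le_mul_of_nonneg_right hxi (prod_nonneg fun _ _ => ps_nonneg _)
    have e3 := single_le_sum hnn hi
    linarith
  · push Not at hc
    have e1 : Fw b s t L J α = ∏ i ∈ range k, x i := by
      unfold Fw
      have hmaps : ∀ c ∈ range J, c / K ∈ range k := by
        intro c hc
        rw [mem_range] at hc ⊢
        exact Nat.div_lt_of_lt_mul (by rw [mul_comm]; omega)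
      rw [← prod_fiberwise_of_maps_to hmaps]
      apply prod_congr rfl
      intro i _
      apply prod_congr _ (fun _ _ => rfl)
      ext c
      simp only [mem_filter, mem_range]
      constructor
      · rintro ⟨h1, h2⟩
        exact ⟨by omega, h1, h2⟩
      · rintro ⟨_, h1, h2⟩
        exact ⟨h1, h2⟩
    have e2 : lam ^ k ≤ Fw b s t L J α := by
      rw [e1]
      calc lam ^ k = ∏ i ∈ range k, lam := by simp
        _ ≤ ∏ i ∈ range k, x i := prod_le_prod (fun _ _ => h0.le) (fun i hi => (hc i hi).le)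
    have e3 : Fw b s t L L α ≤ Fw b s t L J α := Fw_mono L hJL α
    set y := Fw b s t L J α with hy
    have hlk : 0 < lam ^ k := by positivity
    have hy0 : 0 < y := hlk.trans_le e2
    have e4 : y ≤ (lam ^ (3 * k))⁻¹ * y ^ 4 := by
      have e5 : lam ^ (3 * k) ≤ y ^ 3 := by
        rw [mul_comm 3 k, pow_mul]
        exact pow_le_pow_left₀ hlk.le e2 3
      rw [inv_mul_eq_div, le_div_iff₀ (by positivity)]
      calc y * lam ^ (3 * k) ≤ y * y ^ 3 := by gcongr
        _ = y ^ 4 := by ring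
    have e6 := sum_nonneg hnn
    linarith

/-- the basic bound -/
theorem big' (L k K J Q : ℕ) (T lam H CM R : ℝ) (h0 : 0 < lam)
    (hG : ∀ i : ℕ, pts b Q (fun α => ∏ c ∈ SS L J K i, ps s t (fr b L c * α)) ≤
      2 * Q * (Q * (CM * H ^ (L - K)) + T))
    (hLS : pts b Q (fun α => Fw b s t L J α ^ 4) ≤ R) 
    (hJk : J ≤ k * K) (hJL : J ≤ L) :
    pts b Q (Fw b s t L L) ≤ 2 * k * lam * Q * (Q * (CM * H ^ (L - K)) + T) + R / lam ^ (3 * k) := by
  have e1 : pts b Q (Fw b s t L L) ≤ ∑ i ∈ range k, lam * pts b Q (fun α =>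
      ∏ c ∈ SS L J K i, ps s t (fr b L c * α)) +
      (lam ^ (3 * k))⁻¹ * pts b Q (fun α => Fw b s t L J α ^ 4) := by
    refine (pts_mono (split' L J k K lam h0 hJk hJL)).trans (le_of_eq ?_)
    rw [pts_add, pts_sum, pts_mul_left]
    congr 1
    apply sum_congr rfl
    intro i _
    rw [pts_mul_left]
  have e3 : ∀ i ∈ range k, lam * pts b Q (fun α =>
      ∏ c ∈ SS L J K i, ps s t (fr b L c * α)) ≤
      lam * (2 * Q * (Q * (CM * H ^ (L - K)) + T)) := by
    intro i _
    exact mul_le_mul_of_nonneg_left (hG i) h0.le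
  calc pts b Q (Fw b s t L L) ≤ ∑ i ∈ range k, lam * pts b Q (fun α =>
      ∏ c ∈ SS L J K i, ps s t (fr b L c * α)) +
      (lam ^ (3 * k))⁻¹ * pts b Q (fun α => Fw b s t L J α ^ 4) := e1
    _ ≤ ∑ i ∈ range k, lam * (2 * Q * (Q * (CM * H ^ (L - K)) + T)) + (lam ^ (3 * k))⁻¹ * R := by
        apply add_le_add (sum_le_sum e3)
        exact mul_le_mul_of_nonneg_left hLS (by positivity)
    _ = _ := by
        rw [sum_const, card_range, nsmul_eq_mul]
        ring

/-- the sum over the fractions with denominators `Q ≤ q < 2 Q`, from a majorant with mean `H` -/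
theorem bigW_of_majP (hb : 2 ≤ b) (hs : 1 ≤ s) (ht : 1 ≤ t) (hst : s + t = b + 1) (hr : (b : ℝ) * m4 s t < 1)
    {H CM : ℝ} (hMaj : MajP b s t H CM) (hH0 : 0 < H) (hHb : 1 ≤ b * H) (hCM : 0 < CM) {κ : ℝ} (hκ : 0 < κ)
    (hκH : (b : ℝ) ^ κ * H < 1) : BigW b s t κ := by
  have hTLS := Pool.Agent.W342.PW2.mainLS
  set r : ℝ := (b : ℝ) * m4 s t with hrdef
  have hb3 : (2 : ℝ) ≤ b := by exact_mod_cast hb
  have hb0 : (0 : ℝ) < b := by linarith
  have hb1 : (1 : ℝ) < b := by linarith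
  have hr0 : 0 < r := mul_pos hb0 (m4_pos hs ht)
  have hbκ : 1 ≤ (b : ℝ) ^ κ := Real.one_le_rpow hb1.le hκ.le
  have hH1 : H < 1 := by
    have : 1 * H ≤ (b : ℝ) ^ κ * H := mul_le_mul_of_nonneg_right hbκ hH0.le
    linarith
  have hlb : 0 < Real.log b := Real.log_pos hb1
  have hlH : Real.log H < 0 := Real.log_neg hH0 hH1
  have hlr : Real.log r < 0 := Real.log_neg hr0 hr
  -- `κ < 1`
  have hκ1 : κ < 1 := by
    by_contra hcon
    push Not at hcon
    have h1 : (b : ℝ) ≤ (b : ℝ) ^ κ := by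
      calc (b : ℝ) = (b : ℝ) ^ (1 : ℝ) := (Real.rpow_one _).symm
        _ ≤ _ := Real.rpow_le_rpow_of_exponent_le hb1.le hcon
    have h2 : (b : ℝ) * H ≤ (b : ℝ) ^ κ * H := mul_le_mul_of_nonneg_right h1 hH0.le
    linarith
  -- `ρ = b ^ κ H < 1`
  have hρ : κ * Real.log b + Real.log H < 0 := by
    have h1 := Real.log_neg (by positivity) hκH
    rwa [Real.log_mul (by positivity) hH0.ne', Real.log_rpow hb0] at h1
  -- the number of blocks
  obtain ⟨k, hk⟩ := exists_nat_ge (κ * (-Real.log H) / (-(κ * Real.log b + Real.log H)) + 1)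
  have hk1 : (1 : ℝ) ≤ k := by
    have : 0 ≤ κ * (-Real.log H) / (-(κ * Real.log b + Real.log H)) := by
      apply div_nonneg
      · apply mul_nonneg hκ.le; linarith
      · linarith
    linarith
  have hk0 : (0 : ℝ) < k := by linarith
  have hkρ : κ * (-Real.log H) ≤ k * (-(κ * Real.log b + Real.log H)) := by
    have h1 : κ * (-Real.log H) / (-(κ * Real.log b + Real.log H)) ≤ k := by linarith
    rwa [div_le_iff₀ (by linarith)] at h1
  have hkN : 1 ≤ k := by exact_mod_cast hk1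
  -- the number `N`
  obtain ⟨N, hN⟩ := exists_nat_ge (Real.log b / (-Real.log H) + 2)
  have hN2 : (2 : ℝ) ≤ N := by
    have : 0 ≤ Real.log b / (-Real.log H) := div_nonneg hlb.le (by linarith)
    linarith
  have hNN : 2 ≤ N := by exact_mod_cast hN2
  have hNH : Real.log b ≤ (N - 1) * (-Real.log H) := by
    have h1 : Real.log b / (-Real.log H) ≤ N - 2 := by linarith
    rw [div_le_iff₀ (by linarith)] at h1
    nlinarith
  -- exponents
  set γ : ℝ := -Real.log r / Real.log b with hγ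
  have hγ0 : 0 < γ := div_pos (by linarith) hlb
  set η : ℝ := γ / (3 * k + 1) with hη
  have hη0 : 0 < η := by positivity
  have hηγ : (3 * k + 1) * η = γ := by rw [hη]; field_simp
  set ε : ℝ := η / (4 * N) with hε
  have hN0 : (0 : ℝ) < N := by linarith
  have hε0 : 0 < ε := by positivity
  have hεη : 2 * N * ε = η / 2 := by rw [hε]; field_simp; ring
  obtain ⟨C0, hC0, hτ⟩ := divisor_bound ε hε0
  obtain ⟨L0, hL0⟩ := exists_nat_ge (1 / (1 - κ))
  set δ : ℝ := min (η / 2) (1 / 2) with hδ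
  have hδ0 : 0 < δ := lt_min (by positivity) (by norm_num)
  have hδ1 : δ ≤ 1 / 2 := min_le_right _ _
  have hδη : δ ≤ η / 2 := min_le_left _ _
  set C1 : ℝ := CM * (1 / H ^ 3) with hC1
  have hC10 : 0 < C1 := by positivity
  set C2 : ℝ := C0 * ((b : ℝ) ^ (2 * N + 3)) ^ ε with hC2
  have hC20 : 0 < C2 := by positivity
  refine ⟨2 * ((b : ℝ) ^ (κ * L0)) ^ 2 + (2 * k * (C1 + C2) + 12 * ((b : ℝ) ^ 3 + 2)), δ, by positivity, hδ0,
    by linarith, ?_⟩
  intro L Q hQ hQL
  have hQ1 : (1 : ℝ) ≤ Q := by exact_mod_cast hQ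
  have hQ0 : (0 : ℝ) < Q := by linarith
  have hQδ : 1 ≤ (Q : ℝ) ^ (1 - δ) := Real.one_le_rpow hQ1 (by linarith)
  have hpos1 : 0 ≤ 2 * ((b : ℝ) ^ (κ * L0)) ^ 2 := by positivity
  have hpos2 : 0 ≤ 2 * k * (C1 + C2) + 12 * ((b : ℝ) ^ 3 + 2) := by positivity
  rcases Nat.lt_or_ge L L0 with hLL | hLL
  · -- small `L`
    have h1 : pts b Q (Fw b s t L L) ≤ 2 * (Q : ℝ) ^ 2 := pts_trivial Q _ (Fw_le_one L L)
    have h2 : (Q : ℝ) ≤ (b : ℝ) ^ (κ * L0) := by
      refine hQL.trans (Real.rpow_le_rpow_of_exponent_le hb1.le ?_)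
      have : (L : ℝ) ≤ L0 := by exact_mod_cast hLL.le
      exact mul_le_mul_of_nonneg_left this hκ.le
    have h3 : (Q : ℝ) ^ 2 ≤ ((b : ℝ) ^ (κ * L0)) ^ 2 := pow_le_pow_left₀ hQ0.le h2 2
    calc pts b Q (Fw b s t L L) ≤ 2 * ((b : ℝ) ^ (κ * L0)) ^ 2 * 1 := by linarith
      _ ≤ (2 * ((b : ℝ) ^ (κ * L0)) ^ 2 + (2 * k * (C1 + C2) + 12 * ((b : ℝ) ^ 3 + 2))) * (Q : ℝ) ^ (1 - δ) :=
          mul_le_mul (by linarith) hQδ (by norm_num) (by linarith)
  · have hbN : 1 < b := by omega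
    set J : ℕ := Nat.log b Q + 1 with hJ
    have f1 : Q < b ^ J := Nat.lt_pow_succ_log_self hbN Q
    have f2 : b ^ J ≤ b * Q := by
      rw [hJ, pow_succ, mul_comm]
      exact Nat.mul_le_mul_left b (Nat.pow_log_le_self b (by omega))
    have f1r : (Q : ℝ) ≤ (b : ℝ) ^ J := by exact_mod_cast f1.le
    have f2r : (b : ℝ) ^ J ≤ b * Q := by exact_mod_cast f2
    have hJ1 : 1 ≤ J := by omega
    -- `J ≤ κ L + 1`
    have hJu : (J : ℝ) ≤ κ * L + 1 := by
      have h1 : (b : ℝ) ^ (Nat.log b Q) ≤ (b : ℝ) ^ (κ * L) := by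
        refine le_trans ?_ hQL
        exact_mod_cast Nat.pow_log_le_self b (by omega)
      rw [← Real.rpow_natCast, Real.rpow_le_rpow_left_iff hb1] at h1
      rw [hJ]
      push_cast
      linarith
    have hJL : J ≤ L := by
      have h1 : (L0 : ℝ) ≤ L := by exact_mod_cast hLL
      have h2 : 1 / (1 - κ) ≤ L := hL0.trans h1
      rw [div_le_iff₀ (by linarith)] at h2
      have h3 : (J : ℝ) ≤ L := by nlinarith
      exact_mod_cast h3
    set M : ℕ := min L (N * J) with hM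
    have hML : M ≤ L := min_le_left _ _
    have hMN : M ≤ N * J := min_le_right _ _
    have hJM : J ≤ M := le_min hJL (Nat.le_mul_of_pos_left J (by omega))
    set K : ℕ := J / k + 1 with hK
    have hJK : J ≤ k * K := by
      rw [hK]
      exact (Nat.lt_mul_div_succ J (show 0 < k by omega)).le
    have hKr : (K : ℝ) ≤ J / k + 1 := by
      rw [hK]
      push_cast
      have := Nat.cast_div_le (α := ℝ) (m := J) (n := k)
      linarith
    have hKJ : K ≤ J + 1 := by
      rw [hK]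
      have := Nat.div_le_self J k
      omega
    -- the main term
    have hmain0 : (Q : ℝ) * H ^ (M - K) ≤ 1 / H ^ 3 := by
      have hMK : (M : ℝ) - K ≤ ((M - K : ℕ) : ℝ) := by
        rcases le_total K M with h | h
        · rw [Nat.cast_sub h]
        · rw [Nat.sub_eq_zero_of_le h]
          have : (M : ℝ) ≤ K := by exact_mod_cast h
          push_cast
          linarith
      have h1 : Real.log ((Q : ℝ) * H ^ (M - K)) ≤ Real.log (1 / H ^ 3) := by
        rw [Real.log_mul hQ0.ne' (by positivity), Real.log_pow, one_div, Real.log_inv, Real.log_pow]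
        have h2 : ((M - K : ℕ) : ℝ) * Real.log H ≤ ((M : ℝ) - K) * Real.log H :=
          mul_le_mul_of_nonpos_right hMK hlH.le
        push_cast
        rcases le_total L (N * J) with h | h
        · have hMeq : M = L := min_eq_left h
          have h3 : Real.log Q ≤ κ * L * Real.log b := by
            have := Real.log_le_log hQ0 hQL
            rwa [Real.log_rpow hb0] at this
          have h4 : (K : ℝ) ≤ (κ * L + 1) / k + 1 := by
            refine hKr.trans ?_
            gcongr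
          have h5 : (κ * L + 1) / k = κ * L / k + 1 / k := by ring
          have h6 : (1 : ℝ) / k ≤ 1 := by rw [div_le_one hk0]; exact hk1
          have h7 : (K : ℝ) ≤ κ * L / k + 2 := by linarith
          have h8 : (K : ℝ) * (-Real.log H) ≤ (κ * L / k + 2) * (-Real.log H) :=
            mul_le_mul_of_nonneg_right h7 (by linarith)
          have h9 : κ * L / k * (-Real.log H) ≤ L * (-(κ * Real.log b + Real.log H)) := by
            have : κ * L / k * (-Real.log H) = L * (κ * (-Real.log H)) / k := by ring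
            rw [this, div_le_iff₀ hk0]
            have h10 : (L : ℝ) * (κ * (-Real.log H)) ≤ L * (k * (-(κ * Real.log b + Real.log H))) :=
              mul_le_mul_of_nonneg_left hkρ (Nat.cast_nonneg L)
            linarith
          rw [hMeq] at h2 ⊢
          nlinarith
        · have hMeq : M = N * J := min_eq_right h
          have h3 : Real.log Q ≤ J * Real.log b := by
            have := Real.log_le_log hQ0 f1r
            rwa [Real.log_pow] at this
          have h4 : (K : ℝ) ≤ J + 1 := by exact_mod_cast hKJ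
          have h5 : (K : ℝ) * (-Real.log H) ≤ (J + 1) * (-Real.log H) :=
            mul_le_mul_of_nonneg_right h4 (by linarith)
          have h6 : (J : ℝ) * Real.log b ≤ J * ((N - 1) * (-Real.log H)) :=
            mul_le_mul_of_nonneg_left hNH (Nat.cast_nonneg J)
          have h7 : (M : ℝ) = N * J := by rw [hMeq]; push_cast; ring
          rw [h7] at h2
          nlinarith
      exact (Real.log_le_log_iff (by positivity) (by positivity)).1 h1
    have hmain : (Q : ℝ) * (CM * H ^ (M - K)) ≤ C1 := by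
      calc (Q : ℝ) * (CM * H ^ (M - K)) = CM * (Q * H ^ (M - K)) := by ring
        _ ≤ CM * (1 / H ^ 3) := mul_le_mul_of_nonneg_left hmain0 hCM.le
    -- the divisor bound
    set T : ℝ := C2 * (Q : ℝ) ^ (η / 2) with hT
    have hTp : ∀ n : ℕ, 1 ≤ n → n ≤ b ^ (2 * M + 3) → (n.divisors.card : ℝ) ≤ T := by
      intro n hn1 hn2
      refine (hτ n hn1).trans ?_
      have h1 : (n : ℝ) ≤ (b : ℝ) ^ (2 * N + 3) * (Q : ℝ) ^ (2 * N) := by
        calc (n : ℝ) ≤ (b : ℝ) ^ (2 * M + 3) := by exact_mod_cast hn2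
          _ ≤ (b : ℝ) ^ (2 * (N * J) + 3) := pow_le_pow_right₀ hb1.le (by omega)
          _ = ((b : ℝ) ^ J) ^ (2 * N) * (b : ℝ) ^ 3 := by rw [← pow_mul, ← pow_add]; congr 1; ring
          _ ≤ (b * Q : ℝ) ^ (2 * N) * (b : ℝ) ^ 3 := by gcongr
          _ = _ := by ring
      have h2 : (n : ℝ) ^ ε ≤ ((b : ℝ) ^ (2 * N + 3) * (Q : ℝ) ^ (2 * N)) ^ ε :=
        Real.rpow_le_rpow (by positivity) h1 hε0.le
      have h3 : ((b : ℝ) ^ (2 * N + 3) * (Q : ℝ) ^ (2 * N)) ^ ε =
          ((b : ℝ) ^ (2 * N + 3)) ^ ε * (Q : ℝ) ^ (η / 2) := by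
        rw [Real.mul_rpow (by positivity) (by positivity)]
        congr 1
        rw [← Real.rpow_natCast (Q : ℝ), ← Real.rpow_mul hQ0.le]
        congr 1
        push_cast
        exact hεη
      rw [h3] at h2
      calc C0 * (n : ℝ) ^ ε ≤ C0 * (((b : ℝ) ^ (2 * N + 3)) ^ ε * (Q : ℝ) ^ (η / 2)) :=
            mul_le_mul_of_nonneg_left h2 hC0.le
        _ = T := by rw [hT, hC2]; ring
    set lam : ℝ := (Q : ℝ) ^ (-η) with hlam
    have hlam0 : 0 < lam := by positivity
    have hG : ∀ i : ℕ, pts b Q (fun α => ∏ c ∈ SS M J K i, ps s t (fr b M c * α)) ≤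
        2 * Q * (Q * (CM * H ^ (M - K)) + T) :=
      fun i => (hMaj M J K i T (Nat.succ_pos _) hTp).1 Q
    have hLS := hTLS b s t (by omega) hs ht hst M J Q hJ1 hJM f1.le f2
    have hbig := big' M k K J Q T lam H CM _ hlam0 hG hLS hJK hJM
    -- `r ^ J ≤ Q ^ (-γ)`
    have hrJ : r ^ J ≤ (Q : ℝ) ^ (-γ) := by
      rw [← Real.log_le_log_iff (by positivity) (by positivity), Real.log_pow, Real.log_rpow hQ0]
      have h1 : Real.log Q ≤ J * Real.log b := by
        have := Real.log_le_log hQ0 f1r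
        rwa [Real.log_pow] at this
      have h2 : γ * Real.log Q ≤ γ * (J * Real.log b) := mul_le_mul_of_nonneg_left h1 hγ0.le
      have h3 : γ * (J * Real.log b) = -(J * Real.log r) := by
        rw [hγ]; field_simp
      linarith
    have hsec : r ^ J / lam ^ (3 * k) ≤ (Q : ℝ) ^ (-η) := by
      rw [div_le_iff₀ (by positivity)]
      refine hrJ.trans (le_of_eq ?_)
      rw [hlam, ← Real.rpow_natCast, ← Real.rpow_mul hQ0.le, ← Real.rpow_add hQ0]
      congr 1
      push_cast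
      linarith
    have hQη : (Q : ℝ) * (Q : ℝ) ^ (-η) * (Q : ℝ) ^ (η / 2) = (Q : ℝ) ^ (1 - η / 2) := by
      nth_rewrite 1 [← Real.rpow_one (Q : ℝ)]
      rw [← Real.rpow_add hQ0, ← Real.rpow_add hQ0]
      congr 1
      ring
    have hQη2 : 1 ≤ (Q : ℝ) ^ (η / 2) := Real.one_le_rpow hQ1 (by positivity)
    have hle : (Q : ℝ) ^ (1 - η / 2) ≤ (Q : ℝ) ^ (1 - δ) :=
      Real.rpow_le_rpow_of_exponent_le hQ1 (by linarith)
    have hfirst : 2 * k * lam * Q * (Q * (CM * H ^ (M - K)) + T) ≤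
        2 * k * (C1 + C2) * (Q : ℝ) ^ (1 - η / 2) := by
      have h1 : Q * (CM * H ^ (M - K)) + T ≤ (C1 + C2) * (Q : ℝ) ^ (η / 2) := by
        have : C1 * 1 ≤ C1 * (Q : ℝ) ^ (η / 2) := mul_le_mul_of_nonneg_left hQη2 hC10.le
        rw [hT]
        linarith
      calc 2 * k * lam * Q * (Q * (CM * H ^ (M - K)) + T) ≤ 2 * k * lam * Q * ((C1 + C2) * (Q : ℝ) ^ (η / 2)) :=
            mul_le_mul_of_nonneg_left h1 (by positivity)
        _ = 2 * k * (C1 + C2) * ((Q : ℝ) * lam * (Q : ℝ) ^ (η / 2)) := by ring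
        _ = _ := by rw [hlam, hQη]
    have hsecond : 12 * ((b : ℝ) ^ 3 + 2) * Q * r ^ J / lam ^ (3 * k) ≤
        12 * ((b : ℝ) ^ 3 + 2) * (Q : ℝ) ^ (1 - η / 2) := by
      calc 12 * ((b : ℝ) ^ 3 + 2) * Q * r ^ J / lam ^ (3 * k)
          = 12 * ((b : ℝ) ^ 3 + 2) * Q * (r ^ J / lam ^ (3 * k)) := by ring
        _ ≤ 12 * ((b : ℝ) ^ 3 + 2) * Q * (Q : ℝ) ^ (-η) := mul_le_mul_of_nonneg_left hsec (by positivity)
        _ ≤ 12 * ((b : ℝ) ^ 3 + 2) * Q * (Q : ℝ) ^ (-η) * (Q : ℝ) ^ (η / 2) :=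
            le_mul_of_one_le_right (by positivity) hQη2
        _ = 12 * ((b : ℝ) ^ 3 + 2) * ((Q : ℝ) * (Q : ℝ) ^ (-η) * (Q : ℝ) ^ (η / 2)) := by ring
        _ = _ := by rw [hQη]
    calc pts b Q (Fw b s t L L) ≤ pts b Q (Fw b s t M M) := pts_shrink hML Q
      _ ≤ (2 * k * (C1 + C2) + 12 * ((b : ℝ) ^ 3 + 2)) * (Q : ℝ) ^ (1 - η / 2) := by
          refine hbig.trans ?_
          linarith
      _ ≤ (2 * k * (C1 + C2) + 12 * ((b : ℝ) ^ 3 + 2)) * (Q : ℝ) ^ (1 - δ) :=
          mul_le_mul_of_nonneg_left hle hpos2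
      _ ≤ _ := mul_le_mul_of_nonneg_right (by linarith) (by positivity)

end Pool.Agent.W139.PX
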