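import Pool.Agent.W139.PX.D3
import Pool.Agent.W261.PW_BV
import Pool.Agent.W571.PW.Dig
import Pool.Agent.W571.PW.Pt

/-!
# Level of distribution and digit facts for `b ≥ 2`

The proofs are those of `Pool.Agent.W261.PW_BV` and `Pool.Agent.W571.PW.Dig` (helper261, helper571), which are stated
for `b ≥ 3` only.
-/

set_option autoImplicit false

namespace Pool.Agent.W139.PX

open Finset Filter Topology Pool.Agent.Helper112 Pool.Agent.W89.PW Pool.Agent.W261.PWBV
open Pool.Agent.H39R3.PB (ph pts apts)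

/-- level of distribution, `b ≥ 2` -/
theorem bvW2 {b s t : ℕ} (hb : 2 ≤ b) (hs : 1 ≤ s) (ht : 1 ≤ t) (hP : PtW b s t) {κ : ℝ} (hκ0 : 0 < κ)
    (hκ1 : κ < 1) (hB : BigW b s t κ) : BVW b s t κ := by
  intro A
  have hb0 : 0 < b := by omega
  have hbr : (0 : ℝ) < b := by exact_mod_cast hb0
  have hb1 : (1 : ℝ) ≤ b := by exact_mod_cast hb0
  filter_upwards [U_sum b s t (by omega) hP κ hκ0 hκ1 hB (A + 5),
    eventually_ge_atTop ((b + 1) ^ 4)] with L hL hLb
  set D := ⌊(b : ℝ) ^ (κ * L)⌋₊ with hD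
  have hLb' : ((b : ℝ) + 1) ^ 4 ≤ L := by exact_mod_cast hLb
  have hL1 : (1 : ℝ) ≤ L := by
    have : (1 : ℝ) ≤ ((b : ℝ) + 1) ^ 4 := one_le_pow₀ (by linarith)
    linarith
  have hL0 : (0 : ℝ) < L := by linarith
  have h1 : ∑ q ∈ (Icc 1 D).filter (fun q => q.Coprime (2 * b)),
      (q.divisors.card : ℝ) ^ 2 * |cnt b s t L q - ((s : ℝ) * t) ^ L / q| ≤
      ∑ q ∈ (Icc 1 D).filter (fun q => q.Coprime (2 * b)),
      (q.divisors.card : ℝ) ^ 2 *
        (((s : ℝ) * t) ^ L / q * ∑ d ∈ q.divisors.filter (fun d => 1 < d), U b s t L d) := by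
    refine sum_le_sum fun q hq => ?_
    rw [mem_filter] at hq
    exact mul_le_mul_of_nonneg_left (cnt_bound hs ht b L q hq.2) (by positivity)
  have h2 := h1.trans (double b s t L D)
  have h3 := Pool.Agent.H316R2.tau_sq_sum_le D
  have hlog : 1 + Real.log D ≤ (b + 1) * L := by
    rcases Nat.eq_zero_or_pos D with h0 | h0
    · rw [h0]
      simp only [Nat.cast_zero, Real.log_zero, add_zero]
      nlinarith
    · have hDle : (D : ℝ) ≤ (b : ℝ) ^ (κ * L) := Nat.floor_le (by positivity)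
      have hDle2 : (D : ℝ) ≤ (b : ℝ) ^ ((1 : ℝ) * L) := by
        refine hDle.trans (Real.rpow_le_rpow_of_exponent_le hb1 ?_)
        exact mul_le_mul_of_nonneg_right hκ1.le hL0.le
      have h4 : Real.log D ≤ (1 * L) * Real.log b := by
        rw [← Real.log_rpow hbr]
        exact Real.log_le_log (by exact_mod_cast h0) hDle2
      have h5 : Real.log b ≤ b - 1 := Real.log_le_sub_one_of_pos hbr
      have h6 : (1 * L) * Real.log b ≤ (1 * L) * ((b : ℝ) - 1) :=
        mul_le_mul_of_nonneg_left h5 (by positivity)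
      nlinarith [mul_pos hbr hL0]
  have hlog0 : 0 ≤ 1 + Real.log D := by
    have := Real.log_natCast_nonneg D
    linarith
  have h4 : ∑ e ∈ Icc 1 D, (e.divisors.card : ℝ) ^ 2 / e ≤ ((b : ℝ) + 1) ^ 4 * (L : ℝ) ^ 4 := by
    refine h3.trans ?_
    calc (1 + Real.log D) ^ 4 ≤ (((b : ℝ) + 1) * (L : ℝ)) ^ 4 := by gcongr
      _ = ((b : ℝ) + 1) ^ 4 * (L : ℝ) ^ 4 := by ring
  refine h2.trans ?_
  have hS0 : 0 ≤ ∑ e ∈ Icc 1 D, (e.divisors.card : ℝ) ^ 2 / e :=
    sum_nonneg fun _ _ => by positivity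
  calc ((s : ℝ) * t) ^ L * ((∑ d ∈ (Icc 2 D).filter (fun q => q.Coprime (2 * b)),
      (d.divisors.card : ℝ) ^ 2 * U b s t L d / d) *
        ∑ e ∈ Icc 1 D, (e.divisors.card : ℝ) ^ 2 / e)
      ≤ ((s : ℝ) * t) ^ L * ((1 / (L : ℝ) ^ (A + 5)) * (((b : ℝ) + 1) ^ 4 * (L : ℝ) ^ 4)) :=
        mul_le_mul_of_nonneg_left (mul_le_mul hL h4 hS0 (by positivity)) (by positivity)
    _ ≤ ((s : ℝ) * t) ^ L / (L : ℝ) ^ A := by
        generalize ((b : ℝ) + 1) ^ 4 = B at hLb'
        have h5 : (1 / (L : ℝ) ^ (A + 5)) * (B * (L : ℝ) ^ 4) = B / L * (1 / (L : ℝ) ^ A) := by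
          have hy : ((L : ℝ) ^ A) ≠ 0 := by positivity
          have hx : (L : ℝ) ≠ 0 := hL0.ne'
          rw [pow_add]
          generalize (L : ℝ) ^ A = y at hy
          generalize (L : ℝ) = x at hx
          field_simp
        rw [h5]
        have h6 : B / (L : ℝ) ≤ 1 := by rw [div_le_one hL0]; exact hLb'
        have h7 : (0 : ℝ) < 1 / (L : ℝ) ^ A := by positivity
        calc ((s : ℝ) * t) ^ L * (B / L * (1 / (L : ℝ) ^ A))
            ≤ ((s : ℝ) * t) ^ L * (1 * (1 / (L : ℝ) ^ A)) := by gcongr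
          _ = _ := by ring


section Dig

open Pool.Agent.W571.PW.Dig (dg pv_eq)
open Pool.Agent.H181R5.PBT9 (pvl digits_pvl lst lst_reverse pvl_inj)

/-- digit facts, `b ≥ 2` -/
theorem dig2 {b s t : ℕ} (L : ℕ) (hb : 2 ≤ b) (hst : s + t = b + 1) :
    (∀ m : Fin L → Fin s × Fin t, b ^ (2 * L + 2) < pv b s t L m ∧ pv b s t L m < b ^ (2 * L + 3) ∧
      (Nat.digits b (pv b s t L m)).reverse = Nat.digits b (pv b s t L m) ∧
      (pv b s t L m).Coprime (2 * b)) ∧
    ∀ n : ℕ, ((univ : Finset (Fin L → Fin s × Fin t)).filter (fun m => pv b s t L m = n)).card ≤ s ^ L := by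
  have hb1 : 1 < b := by omega
  have hdig : ∀ m : Fin L → Fin s × Fin t, Nat.digits b (pv b s t L m) =
      lst b 1 (L + 1) (dg b s t L hb1 hst m) := fun m => by
    rw [pv_eq hb1 hst, digits_pvl (by omega) le_rfl hb1 (L + 1) (by omega)]
  refine ⟨fun m => ⟨?_, ?_, ?_, ?_⟩, fun n => ?_⟩
  · unfold pv
    have : 0 < b ^ (L + 1) := by positivity
    omega
  · have h := Nat.lt_base_pow_length_digits (b := b) (m := pv b s t L m) (by omega)
    rw [hdig, lst, List.length_map, List.length_range] at h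
    rwa [show 2 * (L + 1) + 1 = 2 * L + 3 by ring] at h
  · rw [hdig, lst_reverse]
  · -- coprime
    have hmodb : ∃ k, pv b s t L m = b * k + 1 := by
      have h1 : b ∣ ∑ c : Fin L, (((m c).1 : ℕ) + ((m c).2 : ℕ)) * fr b L c := by
        refine dvd_sum fun c _ => Dvd.dvd.mul_left ?_ _
        unfold fr
        exact dvd_add (dvd_pow_self b (by omega)) (dvd_pow_self b (by have := c.2; omega))
      obtain ⟨k, hk⟩ := h1
      refine ⟨b ^ (2 * L + 1) + b ^ L + k, ?_⟩
      unfold pv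
      rw [hk]
      ring
    rw [Nat.coprime_mul_iff_right]
    constructor
    · rw [Nat.coprime_two_right]
      rcases Nat.even_or_odd b with he | ho
      · obtain ⟨k, hk⟩ := hmodb
        rw [hk]
        exact (he.mul_right k).add_one
      · unfold pv
        have h1 : Even (∑ c : Fin L, (((m c).1 : ℕ) + ((m c).2 : ℕ)) * fr b L c) := by
          refine Finset.even_sum _ fun c _ => ?_
          refine Even.mul_left ?_ _
          unfold fr
          exact (ho.pow).add_odd (ho.pow)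
        refine Even.add_one ?_ |>.add_even h1
        exact (ho.pow).add_odd (ho.pow)
    · obtain ⟨k, hk⟩ := hmodb
      rw [hk, mul_comm, Nat.coprime_mul_right_add_left]
      exact Nat.coprime_one_left b
  · have hinj : Set.InjOn (fun (m : Fin L → Fin s × Fin t) (c : Fin L) => (m c).1)
        ((univ : Finset (Fin L → Fin s × Fin t)).filter (fun m => pv b s t L m = n)) := by
      intro m hm m' hm' h
      rw [mem_coe, mem_filter] at hm hm'
      have h1 : pv b s t L m = pv b s t L m' := hm.2.trans hm'.2.symm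
      rw [pv_eq hb1 hst, pv_eq hb1 hst] at h1
      have h2 := pvl_inj (b := b) (by omega) (L + 1) (by omega)
        (show (1, dg b s t L hb1 hst m) ∈ {x : ℕ × (Fin (L + 1) → Fin b) | x.1 < b} from hb1)
        (show (1, dg b s t L hb1 hst m') ∈ {x : ℕ × (Fin (L + 1) → Fin b) | x.1 < b} from hb1) h1
      have h3 : dg b s t L hb1 hst m = dg b s t L hb1 hst m' := (Prod.ext_iff.1 h2).2
      funext c
      have h4 : ((m c).1 : ℕ) + ((m c).2 : ℕ) = ((m' c).1 : ℕ) + ((m' c).2 : ℕ) :=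
        congrArg Fin.val (congrFun h3 c.succ)
      have h5 : (m c).1 = (m' c).1 := congrFun h c
      have h6 : ((m c).1 : ℕ) = ((m' c).1 : ℕ) := congrArg Fin.val h5
      refine Prod.ext h5 (Fin.ext ?_)
      omega
    have h := Finset.card_le_card_of_injOn (t := (univ : Finset (Fin L → Fin s))) _
      (fun m _ => mem_univ _) hinj
    simpa using h


end Dig

end Pool.Agent.W139.PX
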