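import Mathlib
import Pool.Agent.H39R3.PB.Basic

/-!
# The Fejér majorant of the Dirichlet kernel: trigonometric facts
-/

set_option autoImplicit false

namespace Pool.Agent.W139.PX

open Finset Pool.Agent.Helper112 Real
open Pool.Agent.H39R3.PB (ph ph_nonneg ph_le_one ph_add_int)

/-! ### Taylor bounds -/

lemma cos_le_taylor {t : ℝ} (ht : 0 ≤ t) : cos t ≤ 1 - t ^ 2 / 2 + t ^ 4 / 24 := by
  have hmono : MonotoneOn (fun x : ℝ => 1 - x ^ 2 / 2 + x ^ 4 / 24 - cos x) (Set.Ici 0) := by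
    apply monotoneOn_of_deriv_nonneg (convex_Ici 0)
    · fun_prop
    · fun_prop
    · intro x hx
      rw [interior_Ici, Set.mem_Ioi] at hx
      have h1 : HasDerivAt (fun x : ℝ => 1 - x ^ 2 / 2 + x ^ 4 / 24 - cos x)
          (0 - 2 * x ^ 1 / 2 + 4 * x ^ 3 / 24 - (- sin x)) x := by
        have e1 := (hasDerivAt_pow 2 x).div_const 2
        have e2 := (hasDerivAt_pow 4 x).div_const 24
        have e3 := hasDerivAt_cos x
        exact (((hasDerivAt_const x (1 : ℝ)).sub (by simpa using e1)).add (by simpa using e2)).sub e3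
      rw [h1.deriv]
      have := sin_gt_sub_cube hx
      nlinarith
  have h := hmono (Set.mem_Ici.2 le_rfl) (Set.mem_Ici.2 ht) ht
  simp only at h
  norm_num at h
  linarith

lemma sin_le_taylor {t : ℝ} (ht : 0 ≤ t) : sin t ≤ t - t ^ 3 / 6 + t ^ 5 / 120 := by
  have hmono : MonotoneOn (fun x : ℝ => x - x ^ 3 / 6 + x ^ 5 / 120 - sin x) (Set.Ici 0) := by
    apply monotoneOn_of_deriv_nonneg (convex_Ici 0)
    · fun_prop
    · fun_prop
    · intro x hx
      rw [interior_Ici, Set.mem_Ioi] at hx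
      have h1 : HasDerivAt (fun x : ℝ => x - x ^ 3 / 6 + x ^ 5 / 120 - sin x)
          (1 - 3 * x ^ 2 / 6 + 5 * x ^ 4 / 120 - cos x) x := by
        have e1 := (hasDerivAt_pow 3 x).div_const 6
        have e2 := (hasDerivAt_pow 5 x).div_const 120
        have e3 := hasDerivAt_sin x
        exact (((hasDerivAt_id x).sub (by simpa using e1)).add (by simpa using e2)).sub e3
      rw [h1.deriv]
      have := cos_le_taylor hx.le
      nlinarith
  have h := hmono (Set.mem_Ici.2 le_rfl) (Set.mem_Ici.2 ht) ht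
  simp only at h
  norm_num at h
  linarith

lemma sin_sq_ge (t : ℝ) : t ^ 2 - t ^ 4 / 3 ≤ sin t ^ 2 := by
  have h1 : cos (2 * |t|) ≤ 1 - (2 * |t|) ^ 2 / 2 + (2 * |t|) ^ 4 / 24 := cos_le_taylor (by positivity)
  have h2 : cos (2 * |t|) = cos (2 * t) := by
    rcases abs_choice t with h | h
    · rw [h]
    · rw [h, mul_neg, cos_neg]
  have h3 : cos (2 * t) = 1 - 2 * sin t ^ 2 := by
    rw [cos_two_mul, cos_sq']
    ring
  have h4 : |t| ^ 2 = t ^ 2 := sq_abs t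
  have h5 : |t| ^ 4 = t ^ 4 := by
    rw [show (4 : ℕ) = 2 * 2 by norm_num, pow_mul, pow_mul, h4]
  rw [h2, h3, mul_pow, mul_pow, h4, h5] at h1
  linarith

/-! ### the series -/

lemma hasSum_sin_sq {x : ℝ} (h0 : 0 ≤ x) (h1 : x ≤ 1) :
    HasSum (fun n : ℕ => sin (π * (n * x)) ^ 2 / (n : ℝ) ^ 2) (π ^ 2 * x * (1 - x) / 2) := by
  have e1 := hasSum_one_div_nat_pow_mul_cos one_ne_zero ⟨h0, h1⟩
  have e2 := hasSum_zeta_two
  have e3 := (e2.sub e1).mul_left (1 / 2)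
  have e4 : (fun n : ℕ => 1 / 2 * (1 / (n : ℝ) ^ 2 - 1 / (n : ℝ) ^ (2 * 1) * cos (2 * π * n * x))) =
      fun n : ℕ => sin (π * (n * x)) ^ 2 / (n : ℝ) ^ 2 := by
    funext n
    have : sin (π * (n * x)) ^ 2 = (1 - cos (2 * π * n * x)) / 2 := by
      rw [show 2 * π * n * x = 2 * (π * (n * x)) by ring, cos_two_mul, cos_sq']
      ring
    rw [this, mul_one]
    ring
  rw [e4] at e3
  have e5 : Polynomial.bernoulli 2 = Polynomial.X ^ 2 - Polynomial.X + Polynomial.C (1 / 6) := by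
    rw [Polynomial.bernoulli]
    simp [sum_range_succ, bernoulli, bernoulli'_two, Polynomial.C_mul_X_pow_eq_monomial.symm]
    have h2 : (Polynomial.C (2⁻¹ : ℚ)) * 2 = 1 := by
      rw [show (2 : Polynomial ℚ) = Polynomial.C 2 from rfl, ← Polynomial.C_mul]
      norm_num
    linear_combination (-Polynomial.X) * h2
  have e6 : π ^ 2 * x * (1 - x) / 2 = 1 / 2 * (π ^ 2 / 6 -
        (-1) ^ (1 + 1) * (2 * π) ^ (2 * 1) / 2 / ↑(2 * 1).factorial *
          Polynomial.eval x (Polynomial.map (algebraMap ℚ ℝ) (Polynomial.bernoulli (2 * 1)))) := by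
    rw [mul_one, e5]
    simp
    ring
  rw [e6]
  exact e3

lemma sum_sin_sq_ge {x : ℝ} (h0 : 0 ≤ x) (h1 : x ≤ 1) (S : ℕ) :
    π ^ 2 * x * (1 - x) / 2 - 2 / (2 * S + 1) ≤ ∑ s ∈ Icc 1 S, sin (π * (s * x)) ^ 2 / (s : ℝ) ^ 2 := by
  have key : ∀ N : ℕ, S ≤ N → ∑ s ∈ range (N + 1), sin (π * (s * x)) ^ 2 / (s : ℝ) ^ 2 ≤
      ∑ s ∈ range (S + 1), sin (π * (s * x)) ^ 2 / (s : ℝ) ^ 2 + (2 / (2 * S + 1) - 2 / (2 * N + 1)) := by
    intro N hN
    induction N, hN using Nat.le_induction with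
    | base => simp
    | succ N hN ih =>
      rw [sum_range_succ _ (N + 1)]
      have h2 : sin (π * (((N + 1 : ℕ) : ℝ) * x)) ^ 2 / (((N + 1 : ℕ) : ℝ)) ^ 2 ≤
          2 / (2 * (N : ℝ) + 1) - 2 / (2 * ((N + 1 : ℕ) : ℝ) + 1) := by
        have h3 : sin (π * (((N + 1 : ℕ) : ℝ) * x)) ^ 2 ≤ 1 := sin_sq_le_one _
        have h4 : sin (π * (((N + 1 : ℕ) : ℝ) * x)) ^ 2 / (((N + 1 : ℕ) : ℝ)) ^ 2 ≤ 1 / (((N + 1 : ℕ) : ℝ)) ^ 2 := by
          gcongr
        refine h4.trans ?_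
        push_cast
        rw [div_sub_div _ _ (by positivity) (by positivity), div_le_div_iff₀ (by positivity) (by positivity)]
        nlinarith
      linarith
  have h2 := (hasSum_sin_sq h0 h1).tendsto_sum_nat
  have h3 : π ^ 2 * x * (1 - x) / 2 ≤
      ∑ s ∈ range (S + 1), sin (π * (s * x)) ^ 2 / (s : ℝ) ^ 2 + 2 / (2 * S + 1) := by
    apply le_of_tendsto h2
    filter_upwards [Filter.eventually_ge_atTop (S + 1)] with N hN
    obtain ⟨M, rfl⟩ : ∃ M, N = M + 1 := ⟨N - 1, by omega⟩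
    refine (key M (by omega)).trans ?_
    have : 0 ≤ 2 / (2 * (M : ℝ) + 1) := by positivity
    linarith
  have h4 : ∑ s ∈ range (S + 1), sin (π * (s * x)) ^ 2 / (s : ℝ) ^ 2 =
      ∑ s ∈ Icc 1 S, sin (π * (s * x)) ^ 2 / (s : ℝ) ^ 2 := by
    rw [range_eq_Ico, sum_eq_sum_Ico_succ_bot (by omega)]
    simp
    rfl
  linarith

/-- `sin π x ≤ π x (1 - x) + sin² (π x) / π` -/
lemma sin_le_par {x : ℝ} (h0 : 0 ≤ x) (h1 : x ≤ 1 / 2) :
    sin (π * x) ≤ π * x * (1 - x) + sin (π * x) ^ 2 / π := by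
  have hpi := pi_pos
  set t := π * x with ht
  have ht0 : 0 ≤ t := by positivity
  have ht1 : t ≤ π / 2 := by
    rw [ht]
    nlinarith
  have h2 : sin t ≤ t := sin_le ht0
  have h3 : sin t ≤ 1 := sin_le_one t
  have h4 : 0 ≤ sin t := sin_nonneg_of_nonneg_of_le_pi ht0 (by linarith)
  have hpi3 := pi_gt_three
  have h5 : (t - sin t) * (t + sin t) ≤ π * (t - sin t) := by
    rw [mul_comm]
    apply mul_le_mul_of_nonneg_right _ (by linarith)
    linarith
  have h6 : π * x * (1 - x) = t - t ^ 2 / π := by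
    rw [ht]
    field_simp
  rw [h6]
  have h7 : t ^ 2 / π - sin t ^ 2 / π ≤ t - sin t := by
    rw [← sub_div, div_le_iff₀ hpi]
    nlinarith
  linarith

/-! ### the digit sums -/

lemma ph_mul {s : ℕ} (hs : 1 ≤ s) (x : ℝ) : ph s x * (s * |sin (π * x)|) = |sin (π * (s * x))| := by
  have hs0 : (0 : ℝ) < s := by exact_mod_cast hs
  have h1 : (∑ m ∈ range s, ee (m * x)) * (ee x - 1) = ee (s * x) - 1 := by
    have e1 : ∀ m ∈ range s, ee ((m : ℝ) * x) = ee x ^ m := fun m _ => ls_ee_nat_mul m x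
    rw [sum_congr rfl e1, geom_sum_mul, ← ls_ee_nat_mul]
  have h2 := congrArg norm h1
  rw [norm_mul, ls_norm_ee_sub_one, ls_norm_ee_sub_one, abs_mul, abs_mul, abs_two] at h2
  unfold ph
  rw [div_mul_eq_mul_div, div_eq_iff hs0.ne']
  nlinarith

lemma ph_int_zero {s : ℕ} (hs : 1 ≤ s) : ph s 0 = 1 := by
  have hs0 : (s : ℝ) ≠ 0 := by
    have : (0 : ℝ) < s := by exact_mod_cast hs
    exact this.ne'
  unfold ph
  simp [ls_ee_zero, hs0]

lemma ph_neg (s : ℕ) (x : ℝ) : ph s (-x) = ph s x := by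
  unfold ph
  congr 1
  have h1 : ∑ m ∈ range s, ee ((m : ℝ) * (-x)) = (starRingEnd ℂ) (∑ m ∈ range s, ee ((m : ℝ) * x)) := by
    rw [map_sum]
    apply sum_congr rfl
    intro m _
    rw [ls_conj_ee, mul_neg]
  rw [h1, Complex.norm_conj]

end Pool.Agent.W139.PX
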