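import Pool.Agent.W139.PX.F1

/-!
# The Fejér majorant of the Dirichlet kernel: the inequality
-/

set_option autoImplicit false

namespace Pool.Agent.W139.PX

open Finset Real

/-- the weight of the middle term -/
noncomputable def cz (b : ℕ) : ℝ := 1 - (2 * ((4 * b / 5 : ℕ) : ℝ) + 1) / (π * b)

lemma S_bounds (b : ℕ) : (4 * (b : ℝ) - 4) / 5 ≤ ((4 * b / 5 : ℕ) : ℝ) ∧ ((4 * b / 5 : ℕ) : ℝ) ≤ 4 * b / 5 := by
  have h1 : 4 * b < 5 * (4 * b / 5) + 5 := by omega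
  have h2 : 5 * (4 * b / 5) ≤ 4 * b := by omega
  have h1' : 4 * b ≤ 5 * (4 * b / 5) + 4 := by omega
  have h3 : 4 * (b : ℝ) ≤ 5 * ((4 * b / 5 : ℕ) : ℝ) + 4 := by exact_mod_cast h1'
  have h4 : 5 * ((4 * b / 5 : ℕ) : ℝ) ≤ 4 * b := by exact_mod_cast h2
  constructor <;> linarith

lemma cz_bounds {b : ℕ} (hb : 64 ≤ b) : 4857 / 10000 ≤ cz b ∧ cz b ≤ 4938 / 10000 := by
  have hbR : (64 : ℝ) ≤ b := by exact_mod_cast hb
  obtain ⟨h1, h2⟩ := S_bounds b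
  have hp1 := pi_gt_d4
  have hp2 := pi_lt_d4
  have hpb : 0 < π * b := by positivity
  unfold cz
  constructor
  · have h3 : (2 * ((4 * b / 5 : ℕ) : ℝ) + 1) / (π * b) ≤ 5143 / 10000 := by
      rw [div_le_iff₀ hpb]
      have i1 : 3.1415 * (b : ℝ) ≤ π * b := mul_le_mul_of_nonneg_right hp1.le (by linarith)
      norm_num at i1
      linarith
    linarith
  · have h3 : 5062 / 10000 ≤ (2 * ((4 * b / 5 : ℕ) : ℝ) + 1) / (π * b) := by
      rw [le_div_iff₀ hpb]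
      have i1 : π * (b : ℝ) ≤ 3.1416 * b := mul_le_mul_of_nonneg_right hp2.le (by linarith)
      norm_num at i1
      linarith
    linarith

lemma uv_facts (b : ℕ) : (((b / 2 : ℕ) : ℝ) + ((b - b / 2 : ℕ) : ℝ) = b) ∧
    (0 : ℝ) ≤ ((b - b / 2 : ℕ) : ℝ) - ((b / 2 : ℕ) : ℝ) ∧ ((b - b / 2 : ℕ) : ℝ) - ((b / 2 : ℕ) : ℝ) ≤ 1 := by
  have h1 : b / 2 + (b - b / 2) = b := by omega
  have h2 : b / 2 ≤ b - b / 2 := by omega
  have h3 : b - b / 2 ≤ b / 2 + 1 := by omega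
  have h1' : ((b / 2 : ℕ) : ℝ) + ((b - b / 2 : ℕ) : ℝ) = b := by exact_mod_cast h1
  have h2' : ((b / 2 : ℕ) : ℝ) ≤ ((b - b / 2 : ℕ) : ℝ) := by exact_mod_cast h2
  have h3' : ((b - b / 2 : ℕ) : ℝ) ≤ ((b / 2 : ℕ) : ℝ) + 1 := by exact_mod_cast h3
  exact ⟨h1', by linarith, by linarith⟩

/-- the first region -/
lemma far {b : ℕ} (hb : 64 ≤ b) {x : ℝ} (h0 : 1 / (b : ℝ) ≤ x) (h1 : x ≤ 1 / 2) :
    |sin (π * (b * x))| * sin (π * x) ≤
      2 / π * ∑ s ∈ Icc 1 (4 * b / 5), sin (π * (s * x)) ^ 2 / (s : ℝ) ^ 2 + sin (π * x) ^ 2 / π +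
      b * cz b / (((b / 2 : ℕ) : ℝ) ^ 2 + ((b - b / 2 : ℕ) : ℝ) ^ 2) *
        (sin (π * (((b / 2 : ℕ) : ℝ) * x)) ^ 2 + sin (π * (((b - b / 2 : ℕ) : ℝ) * x)) ^ 2) := by
  have hbR : (64 : ℝ) ≤ b := by exact_mod_cast hb
  have hb0 : (0 : ℝ) < b := by linarith
  have hx0 : 0 < x := lt_of_lt_of_le (by positivity) h0
  have hp1 := pi_gt_d4
  have hp2 := pi_lt_d4
  have hpi := pi_pos
  obtain ⟨hS1, hS2⟩ := S_bounds b
  obtain ⟨hc1, hc2⟩ := cz_bounds hb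
  obtain ⟨hu1, hu2, hu3⟩ := uv_facts b
  set S := 4 * b / 5 with hS
  set u : ℝ := ((b / 2 : ℕ) : ℝ) with hu
  set v : ℝ := ((b - b / 2 : ℕ) : ℝ) with hv
  set c := cz b with hc
  set w := sin (π * x) with hw
  -- series
  have e1 := sum_sin_sq_ge hx0.le (by linarith : x ≤ 1) S
  have e2 := sin_le_par hx0.le h1
  rw [← hw] at e2
  have e3 : w - 4 / π / (2 * S + 1) ≤
      2 / π * ∑ s ∈ Icc 1 S, sin (π * (s * x)) ^ 2 / (s : ℝ) ^ 2 + w ^ 2 / π := by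
    have h2 := mul_le_mul_of_nonneg_left e1 (by positivity : 0 ≤ 2 / π)
    have h3 : 2 / π * (π ^ 2 * x * (1 - x) / 2 - 2 / (2 * S + 1)) =
        π * x * (1 - x) - 4 / π / (2 * S + 1) := by
      field_simp
      ring
    rw [h3] at h2
    linarith
  -- lower bound for w
  have hw3 : 3 / (b : ℝ) ≤ w := by
    have h2 : sin (π * (1 / b)) ≤ w := by
      apply sin_le_sin_of_le_of_le_pi_div_two
      · have : 0 < π * (1 / (b : ℝ)) := by positivity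
        linarith
      · have i1 := mul_le_mul_of_nonneg_left h1 hpi.le
        linarith
      · exact mul_le_mul_of_nonneg_left h0 hpi.le
    have h3 : π * (1 / b) - (π * (1 / b)) ^ 3 / 6 ≤ sin (π * (1 / b)) := sin_ge_sub_cube (by positivity)
    have h4 : (π * (1 / (b : ℝ))) ^ 2 ≤ 1 / 100 := by
      have h5 : π * (1 / (b : ℝ)) ≤ 1 / 10 := by
        rw [mul_one_div, div_le_iff₀ hb0]
        linarith
      have h6 : 0 ≤ π * (1 / (b : ℝ)) := by positivity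
      nlinarith only [h5, h6]
    have h7 : 0 ≤ π * (1 / (b : ℝ)) := by positivity
    have h8 : (π * (1 / (b : ℝ))) ^ 3 ≤ π * (1 / (b : ℝ)) * (1 / 100) := by
      have : (π * (1 / (b : ℝ))) ^ 3 = π * (1 / (b : ℝ)) * (π * (1 / (b : ℝ))) ^ 2 := by ring
      rw [this]
      exact mul_le_mul_of_nonneg_left h4 h7
    have h9 : 3 / (b : ℝ) = 3 * (1 / b) := by ring
    have h10 : 0 < 1 / (b : ℝ) := by positivity
    have h11 : 3.1415 * (1 / (b : ℝ)) ≤ π * (1 / b) := mul_le_mul_of_nonneg_right hp1.le h10.le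
    norm_num only at h11
    rw [h9]
    linarith
  have hw0 : 0 < w := lt_of_lt_of_le (by positivity) hw3
  -- the middle term
  set C := cos (π * (b * x)) with hC
  set p := |sin (π * (b * x))| with hp
  have hp0 : 0 ≤ p := abs_nonneg _
  have hp1' : p ≤ 1 := abs_sin_le_one _
  have hpC : p ^ 2 + C ^ 2 = 1 := by
    rw [hp, sq_abs, hC]
    exact sin_sq_add_cos_sq _
  set k := cos (π * ((v - u) * x)) with hk
  have hk0 : 0 ≤ k := by
    apply cos_nonneg_of_neg_pi_div_two_le_of_le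
    · have : 0 ≤ π * ((v - u) * x) := by positivity
      linarith
    · have h2 : (v - u) * x ≤ 1 * (1 / 2) := mul_le_mul hu3 h1 hx0.le (by norm_num)
      have h3 := mul_le_mul_of_nonneg_left h2 hpi.le
      linarith
  have hk1 : k ≤ 1 := cos_le_one _
  have e4 : sin (π * (u * x)) ^ 2 + sin (π * (v * x)) ^ 2 = 1 - C * k := by
    have h2 : C = cos (π * (v * x) + π * (u * x)) := by
      rw [hC, ← hu1]
      congr 1
      ring
    have h3 : k = cos (π * (v * x) - π * (u * x)) := by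
      rw [hk]
      congr 1
      ring
    rw [h2, h3, cos_add, cos_sub]
    have h4 := sin_sq_add_cos_sq (π * (u * x))
    have h5 := sin_sq_add_cos_sq (π * (v * x))
    linear_combination (1 - sin (π * (v * x)) ^ 2) * h4 + cos (π * (u * x)) ^ 2 * h5
  rw [e4]
  set R := u ^ 2 + v ^ 2 with hR
  have hR1 : R ≤ (b ^ 2 + 1) / 2 := by
    rw [hR, ← hu1]
    nlinarith only [hu2, hu3]
  have hv0 : 0 < v := by linarith
  have hR0 : 0 < R := by positivity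
  obtain ⟨g, hg⟩ : ∃ g : ℝ, g = 97 / 100 := ⟨_, rfl⟩
  have hbb : (4096 : ℝ) ≤ b ^ 2 := by nlinarith only [hbR]
  have hg1 : g / b ≤ b * c / R := by
    rw [div_le_div_iff₀ hb0 hR0]
    have i1 : g * R ≤ 97 / 100 * ((b ^ 2 + 1) / 2) := by
      rw [hg]
      exact mul_le_mul_of_nonneg_left hR1 (by norm_num)
    have i2 : (b : ℝ) ^ 2 * (4857 / 10000) ≤ b ^ 2 * c := mul_le_mul_of_nonneg_left hc1 (by positivity)
    have i3 : b * c * b = b ^ 2 * c := by ring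
    rw [i3]
    linarith
  have hCk : 0 ≤ 1 - C * k := by
    have i1 : C ≤ 1 := cos_le_one _
    have i2 : C * k ≤ 1 * k := mul_le_mul_of_nonneg_right i1 hk0
    linarith
  have e5 : g / b * (1 - C * k) ≤ b * c / R * (1 - C * k) := mul_le_mul_of_nonneg_right hg1 hCk
  have e6 : 3 / (b : ℝ) * (1 - p) ≤ w * (1 - p) := mul_le_mul_of_nonneg_right hw3 (by linarith)
  have e7 : 4 / π / (2 * S + 1) ≤ 801 / 1000 / b := by
    rw [div_div, div_le_div_iff₀ (by positivity) hb0]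
    have i1 : 3.1415 * (2 * (S : ℝ) + 1) ≤ π * (2 * S + 1) := mul_le_mul_of_nonneg_right hp1.le (by positivity)
    norm_num only at i1
    linarith
  have e8 : 801 / 1000 ≤ 3 * (1 - p) + g * (1 - C * k) := by
    rw [hg]
    rcases le_total C 0 with hC0 | hC0
    · have : C * k ≤ 0 := mul_nonpos_of_nonpos_of_nonneg hC0 hk0
      linarith
    · have h2 : C * k ≤ C := mul_le_of_le_one_right hC0 hk1
      have h3 : (3 * p + 97 / 100 * C) ^ 2 ≤ 9 + (97 / 100) ^ 2 := by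
        have i1 : 0 ≤ (97 / 100 * p - 3 * C) ^ 2 := sq_nonneg _
        have i2 : (3 * p + 97 / 100 * C) ^ 2 + (97 / 100 * p - 3 * C) ^ 2 =
            (9 + (97 / 100) ^ 2) * (p ^ 2 + C ^ 2) := by ring
        rw [hpC, mul_one] at i2
        linarith
      have h4 : 3 * p + 97 / 100 * C ≤ 3 + 97 / 100 - 801 / 1000 := by
        apply le_of_sq_le_sq _ (by norm_num)
        refine h3.trans ?_
        norm_num
      linarith
  have e9 : 801 / 1000 / b ≤ 3 / (b : ℝ) * (1 - p) + g / b * (1 - C * k) := by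
    have h2 : 3 / (b : ℝ) * (1 - p) + g / b * (1 - C * k) = (3 * (1 - p) + g * (1 - C * k)) / b := by
      field_simp
    rw [h2]
    exact div_le_div_of_nonneg_right e8 hb0.le
  have e10 : w * (1 - p) = w - p * w := by ring
  linarith

/-- the second region -/
lemma near {b : ℕ} (hb : 64 ≤ b) {x : ℝ} (hx0 : 0 < x) (h1 : x ≤ 1 / (b : ℝ)) :
    |sin (π * (b * x))| * sin (π * x) ≤
      2 / π * ∑ s ∈ Icc 1 (4 * b / 5), sin (π * (s * x)) ^ 2 / (s : ℝ) ^ 2 + sin (π * x) ^ 2 / π +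
      b * cz b / (((b / 2 : ℕ) : ℝ) ^ 2 + ((b - b / 2 : ℕ) : ℝ) ^ 2) *
        (sin (π * (((b / 2 : ℕ) : ℝ) * x)) ^ 2 + sin (π * (((b - b / 2 : ℕ) : ℝ) * x)) ^ 2) := by
  have hbR : (64 : ℝ) ≤ b := by exact_mod_cast hb
  have hb0 : (0 : ℝ) < b := by linarith
  have hp1 := pi_gt_d4
  have hp2 := pi_lt_d4
  have hpi := pi_pos
  obtain ⟨hS1, hS2⟩ := S_bounds b
  obtain ⟨hc1, hc2⟩ := cz_bounds hb
  obtain ⟨hu1, hu2, hu3⟩ := uv_facts b
  have hcz : 2 / π * ((4 * b / 5 : ℕ) : ℝ) + 1 / π + b * cz b = b := by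
    unfold cz
    field_simp
    ring
  set S := 4 * b / 5 with hS
  set u : ℝ := ((b / 2 : ℕ) : ℝ) with hu
  set v : ℝ := ((b - b / 2 : ℕ) : ℝ) with hv
  set c := cz b with hc
  set X := π * x with hX
  have hX0 : 0 < X := by positivity
  have hbx : b * x ≤ 1 := by
    rw [le_div_iff₀ hb0] at h1
    linarith
  -- first term
  have e1 : S * X ^ 2 - X ^ 4 / 3 * ((S : ℝ) * (S + 1) * (2 * S + 1) / 6) ≤
      ∑ s ∈ Icc 1 S, sin (π * (s * x)) ^ 2 / (s : ℝ) ^ 2 := by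
    have h2 : ∀ s ∈ Icc 1 S, X ^ 2 - X ^ 4 / 3 * (s : ℝ) ^ 2 ≤ sin (π * (s * x)) ^ 2 / (s : ℝ) ^ 2 := by
      intro s hs
      have hs0 : (0 : ℝ) < s := by exact_mod_cast (mem_Icc.1 hs).1
      rw [le_div_iff₀ (by positivity)]
      have h3 := sin_sq_ge (π * (s * x))
      have h4 : (π * (s * x)) ^ 2 - (π * (s * x)) ^ 4 / 3 = (X ^ 2 - X ^ 4 / 3 * (s : ℝ) ^ 2) * (s : ℝ) ^ 2 := by
        rw [hX]; ring
      linarith
    refine le_trans (le_of_eq ?_) (sum_le_sum h2)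
    rw [sum_sub_distrib, sum_const, Nat.card_Icc, Nat.add_sub_cancel, nsmul_eq_mul, ← mul_sum]
    have h5 : ∀ n : ℕ, ∑ s ∈ Icc 1 n, (s : ℝ) ^ 2 = (n : ℝ) * (n + 1) * (2 * n + 1) / 6 := by
      intro n
      induction n with
      | zero => simp
      | succ n ih =>
        rw [sum_Icc_succ_top (by omega), ih]
        push_cast
        ring
    rw [h5]
  have e2 : X ^ 2 - X ^ 4 / 3 ≤ sin X ^ 2 := sin_sq_ge X
  -- middle term
  have hv1 : v ≤ (b + 1) / 2 := by linarith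
  have hv0 : 0 < v := by linarith
  have hu0 : 0 ≤ u := by rw [hu]; positivity
  set R := u ^ 2 + v ^ 2 with hR
  have hR0 : 0 < R := by positivity
  have e3 : R * (X ^ 2 - X ^ 4 / 3 * ((b + 1) / 2) ^ 2) ≤ sin (π * (u * x)) ^ 2 + sin (π * (v * x)) ^ 2 := by
    have h3 := sin_sq_ge (π * (u * x))
    have h4 := sin_sq_ge (π * (v * x))
    have h5 : (π * (u * x)) ^ 2 - (π * (u * x)) ^ 4 / 3 = u ^ 2 * X ^ 2 - X ^ 4 / 3 * u ^ 4 := by
      rw [hX]; ring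
    have h6 : (π * (v * x)) ^ 2 - (π * (v * x)) ^ 4 / 3 = v ^ 2 * X ^ 2 - X ^ 4 / 3 * v ^ 4 := by
      rw [hX]; ring
    have hv2 : v ^ 2 ≤ ((b + 1) / 2) ^ 2 := pow_le_pow_left₀ hv0.le hv1 2
    have hu2' : u ^ 2 ≤ ((b + 1) / 2) ^ 2 := pow_le_pow_left₀ hu0 (by linarith) 2
    have h7 : u ^ 4 + v ^ 4 ≤ R * ((b + 1) / 2) ^ 2 := by
      have i1 : u ^ 2 * u ^ 2 ≤ u ^ 2 * ((b + 1) / 2) ^ 2 := mul_le_mul_of_nonneg_left hu2' (by positivity)
      have i2 : v ^ 2 * v ^ 2 ≤ v ^ 2 * ((b + 1) / 2) ^ 2 := mul_le_mul_of_nonneg_left hv2 (by positivity)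
      have i3 : u ^ 4 + v ^ 4 = u ^ 2 * u ^ 2 + v ^ 2 * v ^ 2 := by ring
      rw [i3, hR, add_mul]
      linarith
    have h8 : 0 ≤ X ^ 4 / 3 := by positivity
    have h9 := mul_le_mul_of_nonneg_left h7 h8
    have h10 : R * (X ^ 2 - X ^ 4 / 3 * ((b + 1) / 2) ^ 2) =
        R * X ^ 2 - X ^ 4 / 3 * (R * ((b + 1) / 2) ^ 2) := by ring
    rw [h10]
    have h11 : R * X ^ 2 = u ^ 2 * X ^ 2 + v ^ 2 * X ^ 2 := by rw [hR]; ring
    linarith
  have e4 : b * c * (X ^ 2 - X ^ 4 / 3 * ((b + 1) / 2) ^ 2) ≤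
      b * c / R * (sin (π * (u * x)) ^ 2 + sin (π * (v * x)) ^ 2) := by
    have h2 : 0 ≤ b * c / R := by positivity
    have h3 := mul_le_mul_of_nonneg_left e3 h2
    have h4 : b * c / R * (R * (X ^ 2 - X ^ 4 / 3 * ((b + 1) / 2) ^ 2)) =
        b * c * (X ^ 2 - X ^ 4 / 3 * ((b + 1) / 2) ^ 2) := by
      field_simp
    rw [h4] at h3
    exact h3
  -- total
  set K : ℝ := 2 / π * ((S : ℝ) * (S + 1) * (2 * S + 1) / 6) + 1 / π + b * c * ((b + 1) / 2) ^ 2 with hK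
  have e5 : b * X ^ 2 - X ^ 4 / 3 * K ≤ 2 / π * ∑ s ∈ Icc 1 S, sin (π * (s * x)) ^ 2 / (s : ℝ) ^ 2 +
      sin X ^ 2 / π + b * c / R * (sin (π * (u * x)) ^ 2 + sin (π * (v * x)) ^ 2) := by
    have h2 := mul_le_mul_of_nonneg_left e1 (by positivity : 0 ≤ 2 / π)
    have h3 : (X ^ 2 - X ^ 4 / 3) / π ≤ sin X ^ 2 / π := div_le_div_of_nonneg_right e2 hpi.le
    have h4 : b * X ^ 2 - X ^ 4 / 3 * K =
        2 / π * (S * X ^ 2 - X ^ 4 / 3 * ((S : ℝ) * (S + 1) * (2 * S + 1) / 6)) + (X ^ 2 - X ^ 4 / 3) / π +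
        b * c * (X ^ 2 - X ^ 4 / 3 * ((b + 1) / 2) ^ 2) := by
      rw [hK]
      nth_rewrite 1 [← hcz]
      ring
    linarith
  have hKb : K ≤ 253 / 1000 * (b : ℝ) ^ 3 := by
    have hS0 : (0 : ℝ) ≤ S := Nat.cast_nonneg _
    have h2 : (S : ℝ) * (S + 1) * (2 * S + 1) / 6 ≤ (4 * b / 5) * (4 * b / 5 + 1) * (2 * (4 * b / 5) + 1) / 6 := by
      gcongr
    have h3 : 2 / π ≤ 6367 / 10000 := by
      rw [div_le_iff₀ hpi]
      linarith
    have h4 : 1 / π ≤ 3184 / 10000 := by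
      rw [div_le_iff₀ hpi]
      linarith
    have h5 : 2 / π * ((S : ℝ) * (S + 1) * (2 * S + 1) / 6) ≤
        6367 / 10000 * ((4 * b / 5) * (4 * b / 5 + 1) * (2 * (4 * b / 5) + 1) / 6) := by
      apply mul_le_mul h3 h2 (by positivity) (by norm_num)
    have h6 : b * c * ((b + 1) / 2) ^ 2 ≤ b * (4938 / 10000) * ((b + 1) / 2) ^ 2 := by gcongr
    rw [hK]
    have i1 : 64 * (b : ℝ) ≤ b ^ 2 := by nlinarith only [hbR]
    have i2 : 64 * (b : ℝ) ^ 2 ≤ b ^ 3 := by nlinarith only [hbR, sq_nonneg (b : ℝ)]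
    have i3 : 6367 / 10000 * ((4 * (b : ℝ) / 5) * (4 * b / 5 + 1) * (2 * (4 * b / 5) + 1) / 6) =
        6367 / 60000 * (128 / 125 * b ^ 3 + 48 / 25 * b ^ 2 + 4 / 5 * b) := by ring
    have i4 : (b : ℝ) * (4938 / 10000) * ((b + 1) / 2) ^ 2 = 4938 / 40000 * (b ^ 3 + 2 * b ^ 2 + b) := by ring
    rw [i3] at h5
    rw [i4] at h6
    linarith
  -- the left side
  set t := π * (b * x) with ht
  have ht0 : 0 < t := by positivity
  have htpi : t ≤ π := by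
    rw [ht]
    exact mul_le_of_le_one_right hpi.le hbx
  have hsint : 0 ≤ sin t := sin_nonneg_of_nonneg_of_le_pi ht0.le htpi
  have e6 : |sin t| * sin X ≤ sin t * X := by
    rw [abs_of_nonneg hsint]
    exact mul_le_mul_of_nonneg_left (sin_le hX0.le) hsint
  have e7 : sin t ≤ t - t ^ 3 * (253 / 3000) := by
    have h2 := sin_le_taylor ht0.le
    have h3 : t ^ 2 ≤ 98697 / 10000 := by
      have i1 : t ^ 2 ≤ 3.1416 ^ 2 := pow_le_pow_left₀ ht0.le (htpi.trans hp2.le) 2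
      refine i1.trans ?_
      norm_num
    have h4 : 0 < t ^ 3 := by positivity
    have h5 : t ^ 5 = t ^ 3 * t ^ 2 := by ring
    have h6 : t ^ 3 * t ^ 2 ≤ t ^ 3 * (98697 / 10000) := mul_le_mul_of_nonneg_left h3 h4.le
    rw [h5] at h2
    linarith
  have e8 : sin t * X ≤ b * X ^ 2 - X ^ 4 / 3 * (253 / 1000 * (b : ℝ) ^ 3) := by
    have h2 : sin t * X ≤ (t - t ^ 3 * (253 / 3000)) * X := mul_le_mul_of_nonneg_right e7 hX0.le
    have h3 : t = b * X := by rw [ht, hX]; ring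
    rw [h3] at h2
    rw [h3]
    refine h2.trans (le_of_eq ?_)
    ring
  have e9 : X ^ 4 / 3 * K ≤ X ^ 4 / 3 * (253 / 1000 * (b : ℝ) ^ 3) :=
    mul_le_mul_of_nonneg_left hKb (by positivity)
  linarith

end Pool.Agent.W139.PX
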