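import Pool.Agent.W139.PX.F2
import Pool.Agent.W139.PX.D1

/-!
# The Fejér majorant of the Dirichlet kernel: assembly
-/

set_option autoImplicit false

namespace Pool.Agent.W139.PX

open Finset Real
open Pool.Agent.H39R3.PB (ph ph_nonneg ph_le_one ph_add_int)
open Pool.Agent.W139.PW (MxOK Mx MajOK)

lemma ph_red (s : ℕ) (β : ℝ) : ph s β = ph s |β - round β| := by
  have h1 : ph s β = ph s (β - round β) := by
    have := ph_add_int (b := s) β (-(round β))
    rw [← this]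
    congr 1
    push_cast
    ring
  rw [h1]
  rcases abs_choice (β - round β) with h | h
  · rw [h]
  · rw [h, ph_neg]

/-- the sizes -/
def szf (b i : ℕ) : ℕ :=
  if i < 4 * b / 5 then i + 1 else if i = 4 * b / 5 then 1 else if i = 4 * b / 5 + 1 then b / 2 else b - b / 2

/-- the weights -/
noncomputable def gf (b i : ℕ) : ℝ :=
  if i < 4 * b / 5 then 2 / (π * b) else if i = 4 * b / 5 then 1 / (π * b)
  else if i = 4 * b / 5 + 1 then
    cz b * ((b / 2 : ℕ) : ℝ) ^ 2 / (((b / 2 : ℕ) : ℝ) ^ 2 + ((b - b / 2 : ℕ) : ℝ) ^ 2)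
  else cz b * ((b - b / 2 : ℕ) : ℝ) ^ 2 / (((b / 2 : ℕ) : ℝ) ^ 2 + ((b - b / 2 : ℕ) : ℝ) ^ 2)

/-- sums over the index set -/
lemma sum_idx (b : ℕ) (F : ℕ → ℕ → ℝ → ℝ) :
    ∑ i ∈ range (4 * b / 5 + 3), F i (szf b i) (gf b i) =
      ∑ i ∈ range (4 * b / 5), F i (i + 1) (2 / (π * b)) + F (4 * b / 5) 1 (1 / (π * b)) +
      F (4 * b / 5 + 1) (b / 2)
        (cz b * ((b / 2 : ℕ) : ℝ) ^ 2 / (((b / 2 : ℕ) : ℝ) ^ 2 + ((b - b / 2 : ℕ) : ℝ) ^ 2)) +
      F (4 * b / 5 + 2) (b - b / 2)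
        (cz b * ((b - b / 2 : ℕ) : ℝ) ^ 2 / (((b / 2 : ℕ) : ℝ) ^ 2 + ((b - b / 2 : ℕ) : ℝ) ^ 2)) := by
  rw [sum_range_succ, sum_range_succ, sum_range_succ]
  congr 1
  · congr 1
    · congr 1
      · apply sum_congr rfl
        intro i hi
        rw [mem_range] at hi
        unfold szf gf
        rw [if_pos hi, if_pos hi]
      · unfold szf gf
        rw [if_neg (by omega), if_pos rfl, if_neg (by omega), if_pos rfl]
    · unfold szf gf
      rw [if_neg (by omega), if_neg (by omega), if_pos rfl, if_neg (by omega), if_neg (by omega), if_pos rfl]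
  · unfold szf gf
    rw [if_neg (by omega), if_neg (by omega), if_neg (by omega), if_neg (by omega), if_neg (by omega),
      if_neg (by omega)]

/-- the majorant of the sum over all digits -/
theorem majUnif {b : ℕ} (hb : 64 ≤ b) : MajOK b b 1 ((2 + 2 / π * log b) / b) := by
  have hbR : (64 : ℝ) ≤ b := by exact_mod_cast hb
  have hb0 : (0 : ℝ) < b := by linarith
  have hpi := pi_pos
  have hp1 := pi_gt_d4
  have hp2 := pi_lt_d4
  obtain ⟨hS1, hS2⟩ := S_bounds b
  obtain ⟨hc1, hc2⟩ := cz_bounds hb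
  obtain ⟨hu1, hu2, hu3⟩ := uv_facts b
  have hcz : 2 / π * ((4 * b / 5 : ℕ) : ℝ) + 1 / π + b * cz b = b := by
    unfold cz
    field_simp
    ring
  have hv0 : (0 : ℝ) < ((b - b / 2 : ℕ) : ℝ) := by linarith
  have hu0 : (0 : ℝ) < ((b / 2 : ℕ) : ℝ) := by linarith
  have hc0 : 0 < cz b := by linarith
  have hR0 : 0 < ((b / 2 : ℕ) : ℝ) ^ 2 + ((b - b / 2 : ℕ) : ℝ) ^ 2 := by positivity
  refine ⟨range (4 * b / 5 + 3), gf b, szf b, ⟨?_, ?_, ?_, ?_, ?_⟩, ?_⟩
  · intro i _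
    unfold gf
    split_ifs <;> positivity
  · intro i _
    unfold szf
    split_ifs <;> omega
  · intro i _
    unfold szf
    split_ifs <;> omega
  · rw [sum_idx b (fun _ _ z => z), sum_const, card_range, nsmul_eq_mul]
    have h1 : cz b * ((b / 2 : ℕ) : ℝ) ^ 2 / (((b / 2 : ℕ) : ℝ) ^ 2 + ((b - b / 2 : ℕ) : ℝ) ^ 2) +
        cz b * ((b - b / 2 : ℕ) : ℝ) ^ 2 / (((b / 2 : ℕ) : ℝ) ^ 2 + ((b - b / 2 : ℕ) : ℝ) ^ 2) = cz b := by
      rw [← add_div, ← mul_add, mul_div_assoc, div_self hR0.ne', mul_one]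
    have h2 : ((4 * b / 5 : ℕ) : ℝ) * (2 / (π * b)) + 1 / (π * b) + cz b = 1 := by
      have h3 : ((4 * b / 5 : ℕ) : ℝ) * (2 / (π * b)) + 1 / (π * b) + cz b =
          (2 / π * ((4 * b / 5 : ℕ) : ℝ) + 1 / π + b * cz b) / b := by
        field_simp
      rw [h3, hcz, div_self hb0.ne']
    linarith
  · rw [sum_idx b (fun _ s z => z / (s : ℝ))]
    set u : ℝ := ((b / 2 : ℕ) : ℝ) with hu
    set v : ℝ := ((b - b / 2 : ℕ) : ℝ) with hv
    have h1 : cz b * u ^ 2 / (u ^ 2 + v ^ 2) / u + cz b * v ^ 2 / (u ^ 2 + v ^ 2) / v =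
        cz b * b / (u ^ 2 + v ^ 2) := by
      rw [← hu1]
      field_simp
    have h2 : cz b * b / (u ^ 2 + v ^ 2) ≤ 2 * cz b / b := by
      rw [div_le_div_iff₀ hR0 hb0]
      have h3 : (b : ℝ) * b ≤ 2 * (u ^ 2 + v ^ 2) := by
        rw [← hu1]
        nlinarith only [sq_nonneg (u - v)]
      have h4 := mul_le_mul_of_nonneg_left h3 hc0.le
      linarith
    have h3 : ∑ i ∈ range (4 * b / 5), 2 / (π * b) / (((i + 1 : ℕ) : ℝ)) ≤
        2 / (π * b) * (1 + log (4 * b / 5)) := by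
      have h4 : ∑ i ∈ range (4 * b / 5), 2 / (π * b) / (((i + 1 : ℕ) : ℝ)) =
          2 / (π * b) * ((harmonic (4 * b / 5) : ℚ) : ℝ) := by
        rw [harmonic, Rat.cast_sum, mul_sum]
        apply sum_congr rfl
        intro i _
        push_cast
        rw [div_eq_mul_inv]
      rw [h4]
      apply mul_le_mul_of_nonneg_left _ (by positivity)
      refine (harmonic_le_one_add_log _).trans ?_
      have h5 : log ((4 * b / 5 : ℕ) : ℝ) ≤ log (4 * b / 5) := by
        apply log_le_log _ hS2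
        linarith
      linarith
    have h4 : log (4 * (b : ℝ) / 5) ≤ log b - 1 / 5 := by
      have h5 : 4 * (b : ℝ) / 5 = (4 / 5) * b := by ring
      rw [h5, log_mul (by norm_num) hb0.ne']
      have h6 : log (4 / 5 : ℝ) ≤ 4 / 5 - 1 := log_le_sub_one_of_pos (by norm_num)
      linarith
    have h5 : 2 / (π * b) * (1 + log (4 * b / 5)) ≤ 2 / (π * b) * (1 + (log b - 1 / 5)) := by
      apply mul_le_mul_of_nonneg_left _ (by positivity)
      linarith
    have h6 : 1 / (π * (b : ℝ)) / ((1 : ℕ) : ℝ) = 1 / (π * b) := by simp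
    rw [h6]
    have h7 : 2 / (π * b) * (1 + (log b - 1 / 5)) + 1 / (π * b) + 2 * cz b / b ≤ (2 + 2 / π * log b) / b := by
      have h8 : 2 / (π * b) * (1 + (log b - 1 / 5)) + 1 / (π * b) + 2 * cz b / b =
          (13 / 5 * (1 / π) + 2 / π * log b + 2 * cz b) / b := by
        field_simp
        ring
      rw [h8]
      apply div_le_div_of_nonneg_right _ hb0.le
      have h9 : 1 / π ≤ 3184 / 10000 := by
        rw [div_le_iff₀ hpi]
        linarith
      linarith
    linarith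
  · intro β
    set y := |β - round β| with hy
    have hy0 : 0 ≤ y := abs_nonneg _
    have hy1 : y ≤ 1 / 2 := abs_sub_round β
    have hM : Mx (range (4 * b / 5 + 3)) (gf b) (szf b) β = ∑ i ∈ range (4 * b / 5 + 3), gf b i * ph (szf b i) y ^ 2 := by
      unfold Mx
      apply sum_congr rfl
      intro i _
      rw [ph_red _ β]
    rw [hM, ph_red b β, ph_red 1 β, ← hy]
    have hsz1 : ∀ i, 1 ≤ szf b i := by
      intro i
      unfold szf
      split_ifs <;> omega
    rcases hy0.eq_or_lt with h0 | h0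
    · rw [← h0, ph_int_zero (by omega), ph_int_zero le_rfl]
      have h1 : ∀ i ∈ range (4 * b / 5 + 3), gf b i * ph (szf b i) 0 ^ 2 = gf b i := by
        intro i _
        rw [ph_int_zero (hsz1 i)]
        ring
      rw [sum_congr rfl h1, sum_idx b (fun _ _ z => z), sum_const, card_range, nsmul_eq_mul]
      have h1 : cz b * ((b / 2 : ℕ) : ℝ) ^ 2 / (((b / 2 : ℕ) : ℝ) ^ 2 + ((b - b / 2 : ℕ) : ℝ) ^ 2) +
          cz b * ((b - b / 2 : ℕ) : ℝ) ^ 2 / (((b / 2 : ℕ) : ℝ) ^ 2 + ((b - b / 2 : ℕ) : ℝ) ^ 2) = cz b := by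
        rw [← add_div, ← mul_add, mul_div_assoc, div_self hR0.ne', mul_one]
      have h2 : ((4 * b / 5 : ℕ) : ℝ) * (2 / (π * b)) + 1 / (π * b) + cz b = 1 := by
        have h3 : ((4 * b / 5 : ℕ) : ℝ) * (2 / (π * b)) + 1 / (π * b) + cz b =
            (2 / π * ((4 * b / 5 : ℕ) : ℝ) + 1 / π + b * cz b) / b := by
          field_simp
        rw [h3, hcz, div_self hb0.ne']
      linarith
    · set w := sin (π * y) with hw
      have hw0 : 0 < w := by
        apply sin_pos_of_pos_of_lt_pi (by positivity)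
        nlinarith
      have hwabs : |sin (π * y)| = w := abs_of_pos hw0
      have hph : ∀ s : ℕ, 1 ≤ s → ph s y ^ 2 = sin (π * (s * y)) ^ 2 / ((s : ℝ) ^ 2 * w ^ 2) := by
        intro s hs
        have hs0 : (0 : ℝ) < s := by exact_mod_cast hs
        have h1 := ph_mul hs y
        rw [hwabs] at h1
        rw [eq_div_iff (by positivity), ← sq_abs (sin (π * (s * y))), ← h1]
        ring
      have hmain : |sin (π * (b * y))| * w ≤
          2 / π * ∑ s ∈ Icc 1 (4 * b / 5), sin (π * (s * y)) ^ 2 / (s : ℝ) ^ 2 + w ^ 2 / π +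
          b * cz b / (((b / 2 : ℕ) : ℝ) ^ 2 + ((b - b / 2 : ℕ) : ℝ) ^ 2) *
          (sin (π * (((b / 2 : ℕ) : ℝ) * y)) ^ 2 + sin (π * (((b - b / 2 : ℕ) : ℝ) * y)) ^ 2) := by
        rcases le_total y (1 / (b : ℝ)) with h | h
        · exact near hb h0 h
        · exact far hb h hy1
      have hsum : ∑ i ∈ range (4 * b / 5 + 3), gf b i * ph (szf b i) y ^ 2 =
          (2 / π * ∑ s ∈ Icc 1 (4 * b / 5), sin (π * (s * y)) ^ 2 / (s : ℝ) ^ 2 + w ^ 2 / π +
          b * cz b / (((b / 2 : ℕ) : ℝ) ^ 2 + ((b - b / 2 : ℕ) : ℝ) ^ 2) *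
          (sin (π * (((b / 2 : ℕ) : ℝ) * y)) ^ 2 + sin (π * (((b - b / 2 : ℕ) : ℝ) * y)) ^ 2)) / (b * w ^ 2) := by
        rw [sum_idx b (fun _ s z => z * ph s y ^ 2)]
        rw [hph (b / 2) (by omega), hph (b - b / 2) (by omega), hph 1 le_rfl]
        have h1 : ∑ i ∈ range (4 * b / 5), 2 / (π * b) * ph (i + 1) y ^ 2 =
            (2 / π * ∑ s ∈ Icc 1 (4 * b / 5), sin (π * (s * y)) ^ 2 / (s : ℝ) ^ 2) / (b * w ^ 2) := by
          have h2 : ∑ s ∈ Icc 1 (4 * b / 5), sin (π * (s * y)) ^ 2 / (s : ℝ) ^ 2 =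
              ∑ i ∈ range (4 * b / 5), sin (π * (((i + 1 : ℕ) : ℝ) * y)) ^ 2 / (((i + 1 : ℕ) : ℝ)) ^ 2 := by
            rw [range_eq_Ico, sum_Ico_add' (fun s : ℕ => sin (π * ((s : ℝ) * y)) ^ 2 / (s : ℝ) ^ 2) 0 _ 1]
            rfl
          rw [h2, mul_sum, sum_div]
          apply sum_congr rfl
          intro i _
          rw [hph (i + 1) (by omega)]
          have hi0 : (0 : ℝ) < ((i + 1 : ℕ) : ℝ) := by positivity
          field_simp
        rw [h1]
        have h3 : sin (π * (((1 : ℕ) : ℝ) * y)) = w := by rw [Nat.cast_one, one_mul]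
        rw [h3]
        rw [Nat.cast_one]
        generalize sin (π * (((b / 2 : ℕ) : ℝ) * y)) = su
        generalize sin (π * (((b - b / 2 : ℕ) : ℝ) * y)) = sv
        generalize ∑ s ∈ Icc 1 (4 * b / 5), sin (π * (s * y)) ^ 2 / (s : ℝ) ^ 2 = Z
        generalize ((b - b / 2 : ℕ) : ℝ) = v at hv0 hR0
        generalize ((b / 2 : ℕ) : ℝ) = u at hu0 hR0
        field_simp
        ring
      rw [hsum, le_div_iff₀ (by positivity)]
      have h1 := ph_mul (show 1 ≤ b by omega) y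
      rw [hwabs] at h1
      have h2 : ph b y * ph 1 y ≤ ph b y := mul_le_of_le_one_right (ph_nonneg _ _) (ph_le_one _ _)
      calc ph b y * ph 1 y * (b * w ^ 2) ≤ ph b y * (b * w ^ 2) :=
            mul_le_mul_of_nonneg_right h2 (by positivity)
        _ = (ph b y * (b * w)) * w := by ring
        _ = |sin (π * (b * y))| * w := by rw [h1]
        _ ≤ _ := hmain

end Pool.Agent.W139.PX
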